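import Mathlib.Analysis.SpecialFunctions.Sqrt
import Pool.Agent.MP_e1dc65_gt.Spec1
import Pool.Agent.MP_e1dc65_gt.t2.Spec2
import Pool.Agent.MP_e1dc65_gt.k.Bump
import Mathlib.Topology.UrysohnsLemma
import Mathlib.Topology.Homotopy.Lifting
import Mathlib.Analysis.Convex.Contractible
import Mathlib.Analysis.Normed.Module.Connected
import Mathlib.Topology.Order.MonotoneContinuity
import Mathlib.Analysis.Normed.Group.FunctionSeries

-- ======== part 0: formerly Pool.Agent.MP_e1dc65_gt.t2.Tube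
section MrgPart0

-- ======== part 0: formerly Pool.Agent.MP_e1dc65_gt.t4.Spec
section MrgPart0

/-! PROJECT HC, parts T4 and T5: insertion of packages, controlled spaces, the swindle.
Definitions and statements. -/

open scoped Topology Real
open Set Filter Function Module Metric Topology

noncomputable section

namespace Pool.Agent.MP_e1dc65_gt.T4

abbrev V : Type := Rn 3
abbrev Z : Type := Rn 2

/-- inversion in the unit sphere -/
def inv (v : V) : V := (nsq v)⁻¹ • v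

/-! ### Insertion of patches -/

section Ins
variable {X Y A P N ι : Type} [TopologicalSpace X] [TopologicalSpace Y] [TopologicalSpace A]
  [TopologicalSpace P] [TopologicalSpace N]

/-- continuous and open on the open set `U` -/
structure CO (f : X → Y) (U : Set X) : Prop where
  dom : IsOpen U
  cont : ContinuousOn f U
  op : ∀ O, IsOpen O → O ⊆ U → IsOpen (f '' O)

/-- open embedding of the open set `U` -/
structure TE (f : X → Y) (U : Set X) : Prop extends CO f U where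
  inj : InjOn f U

/-- a patch: `P` is `A` with `K` replaced by `KP` -/
structure Pat (A P : Type) where
  φ : A → P
  K : Set A
  KP : Set P

/-- the part of the patch over `W` -/
def Pat.dom (q : Pat A P) (W : Set A) : Set P := q.φ '' (W \ q.K) ∪ q.KP

structure Pat.Ok (q : Pat A P) : Prop where
  cpt : IsCompact q.K
  te : TE q.φ q.Kᶜ
  img : q.φ '' q.Kᶜ = q.KPᶜ
  nb : ∀ W, IsOpen W → q.K ⊆ W → IsOpen (q.dom W)

/-- `N₀` minus the supports -/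
def Pat.rest (q : Pat A P) (J : Set ι) (e : ι → A → N) (N₀ : Set N) : Set N :=
  N₀ \ ⋃ i ∈ J, e i '' q.K

/-- `Y₀` is `N₀` with the patch put in along the maps `e i`, `i ∈ J`, which are used on `W` -/
structure Ins (q : Pat A P) (W : Set A) (J : Set ι) (e : ι → A → N) (N₀ : Set N) (α : N → Y)
    (β : ι → P → Y) (Y₀ : Set Y) : Prop where
  ta : TE α (q.rest J e N₀)
  tb : ∀ i ∈ J, TE (β i) (q.dom W)
  off : ∀ i ∈ J, ∀ w ∈ W \ q.K, e i w ∈ q.rest J e N₀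
  com : ∀ i ∈ J, ∀ w ∈ W \ q.K, β i (q.φ w) = α (e i w)
  sep : ∀ i ∈ J, ∀ p ∈ q.KP, ∀ n ∈ q.rest J e N₀, α n ≠ β i p
  sep' : ∀ i ∈ J, ∀ j ∈ J, ∀ p ∈ q.KP, ∀ p' ∈ q.KP, β i p = β j p' → i = j
  cov : Y₀ = α '' q.rest J e N₀ ∪ ⋃ i ∈ J, β i '' q.KP

/-- the patch with a larger support -/
def Pat.grow (q : Pat A P) (K' : Set A) : Pat A P := ⟨q.φ, K', q.dom K'⟩

/-- continuous maps on `W` extend over the patch -/
def Pat.Ext (q : Pat A P) (W : Set A) : Prop :=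
  ∀ (E : Type) [NormedAddCommGroup E] [NormedSpace ℝ E] (f : A → E) (S : Set E),
    ContinuousOn f W → Convex ℝ S → S.Nonempty → MapsTo f W S →
    ∃ g : P → E, ContinuousOn g (q.dom W) ∧ MapsTo g (q.dom W) S ∧ ∀ w ∈ W \ q.K, g (q.φ w) = f w

end Ins

/-! ### The interface with T2 and T3 -/

/-- the chart at the base point -/
def cq {F : Type} (e₀ : V → F) (v : V) : F := e₀ (q0 + eps • v)

/-- packages can be put in wherever their domain is thin -/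
def Insert (F : Mf V) (P : Mf (Rn 5)) (q : Pat (F × Z) P) : Prop :=
  ∀ (E : Type) [NormedAddCommGroup E] [NormedSpace ℝ E] [FiniteDimensional ℝ E] (N : Mf E)
    (ι : Type) [Finite ι] (W : Set (F × Z)) (e : ι → F × Z → N) (O : Set N), finrank ℝ E = 5 →
    q.K ⊆ W → (∀ i, OE (F.prod (vs Z)) N (e i) W) →
    Pairwise (fun i j => Disjoint (e i '' W) (e j '' W)) → IsOpen O → (∀ i, e i '' W ⊆ O) →
    (∀ i, Thin (e i '' W) O) →
    ∃ (α : N → N) (β : ι → P → N) (C : Set N), IsCompact C ∧ C ⊆ O ∧ (∀ i, e i '' q.K ⊆ C) ∧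
      (∀ n ∉ C, α n = n) ∧ Ins q W univ e univ α β univ

/-- the package: `P` is `F × ℝ²` with one package -/
structure Pkg (F : Mf V) (P : Mf (Rn 5)) (q : Pat (F × Z) P) : Prop where
  ok : q.Ok
  oe : OE (F.prod (vs Z)) P q.φ q.Kᶜ
  sc : ∃ (r₀ : ℝ) (z₀ : Z), r₀ < ‖z₀‖ ∧ ‖z₀‖ < 1 ∧ (∀ w ∈ q.K, ‖w.2‖ ≤ r₀) ∧
    Thin (q.φ '' (univ ×ˢ {z₀})) (q.dom (univ ×ˢ ball 0 1))
  ins : Insert F P q

/-- `κ` is a homeomorphism off the box, with inverse `σ` -/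
structure Kap {F : Type} [TopologicalSpace F] (κ : F → V) (σ : V → F) : Prop where
  cont : Continuous κ
  scont : ContinuousOn σ {v | 1 < ‖v‖}
  right : ∀ v, 1 < ‖v‖ → κ (σ v) = v
  left : ∀ m, 1 < ‖κ m‖ → σ (κ m) = m

/-- comparison of the end of `F₀` with the chart `c` of `F` -/
structure End {F₀ F : Type} [TopologicalSpace F₀] [TopologicalSpace F] (c : V → F) (j : F₀ → F)
    (κ : F₀ → V) (th' : V → V) (th : F → V) : Prop where
  ne : ∀ m, j m ≠ c 0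
  te' : TE th' univ
  te : TE th ({c 0}ᶜ \ j '' {m | ‖κ m‖ ≤ 1})
  img : th '' ({c 0}ᶜ \ j '' {m | ‖κ m‖ ≤ 1}) = (th' '' closedBall 0 1)ᶜ
  com : ∀ m, 1 < ‖κ m‖ → th (j m) = th' (κ m)
  far : ∃ R, ∀ v, R < nsq v → c (inv v) ∈ {c 0}ᶜ \ j '' {m | ‖κ m‖ ≤ 1} ∧ th (c (inv v)) = v

/-- `p` is the projection to the torus -/
structure Tor {T : Type} [TopologicalSpace T] (p : Z → T) : Prop where
  cov : IsCoveringMap p
  sur : Surjective p
  eq : ∀ z z', p z = p z' ↔ Lat z z'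

/-- the centre of the cell -/
def zc : Z := fun _ => π

def lo (c ρ : ℝ) : Set V := {v | ‖v‖ ≤ ρ ∧ v 2 ≤ c}
def hi (c ρ : ℝ) : Set V := {v | ‖v‖ ≤ ρ ∧ c ≤ v 2}

/-- The result of T3. `L` is the top level with control `k`, `i` its first sheet; `L` with the
package (`true`) and the mirror package (`false`) is `V × T`. -/
structure Top3 {F P T L : Type} [TopologicalSpace F] [TopologicalSpace P] [TopologicalSpace T]
    [TopologicalSpace L] (κ : F → V) (q : Pat (F × Z) P) (p : Z → T) (k : L → V × T)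
    (s : V × T → L) (i : F × T → L) (ρ ρ' r : ℝ) (u : Z → Z) (W : Set (F × Z))
    (e : Bool → F × Z → L) (α : L → V × T) (β : Bool → P → V × T) : Prop where
  tor : Tor p
  ρ1 : 1 ≤ ρ
  ρ2 : ρ + 1 ≤ ρ'
  r0 : 0 < r
  r1 : r ≤ 1
  kc : Continuous k
  sc : ContinuousOn s {b | 1 < ‖b.1‖ ∧ b.1 ∉ hi (ρ + 1) ρ'}
  ks : ∀ b : V × T, 1 < ‖b.1‖ → b.1 ∉ hi (ρ + 1) ρ' → k (s b) = b
  sk : ∀ y, 1 < ‖(k y).1‖ → (k y).1 ∉ hi (ρ + 1) ρ' → s (k y) = y
  ti : TE i {w | ‖κ w.1‖ < ρ + 1}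
  ki : ∀ m τ, ‖κ m‖ < ρ + 1 → k (i (m, τ)) = (κ m, τ)
  ik : ∀ y, ‖(k y).1‖ ≤ 1 → ∃ m τ, ‖κ m‖ < ρ + 1 ∧ i (m, τ) = y
  Wo : IsOpen W
  KW : q.K ⊆ W
  Wρ : ∀ w ∈ W, ‖κ w.1‖ < ρ ∧ ‖w.2‖ < 1
  et : ∀ w ∈ W, e true w = i (w.1, p (zc + r • w.2))
  uc : Continuous u
  ec : ∀ b, ContinuousOn (e b) W
  ef : ∀ w ∈ W, (k (e false w)).1 ∈ hi (ρ + 1) ρ' ∧ (k (e false w)).2 = p (u w.2)
  ins : Ins q W univ e univ α β univ
  far : ∃ R, ∀ y, R ≤ ‖(k y).1‖ → α y = k y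

/-- what T2 and T3 deliver -/
def T23Stmt : Prop :=
  ∀ (F : Mf V) (e₀ : V → F) (e : Fin 3 → V → F), IsF F e₀ e →
    ∃ (F₀ : Mf V) (j : F₀ → F) (κ : F₀ → V) (σ : V → F₀) (th' : V → V) (th : F → V)
      (P : Mf (Rn 5)) (q : Pat (F₀ × Z) P), OE F₀ F j univ ∧ Kap κ σ ∧ End (cq e₀) j κ th' th ∧
      Pkg F₀ P q ∧ ∃ (T L : Type) (_ : TopologicalSpace T) (_ : T2Space T) (_ : TopologicalSpace L)
        (_ : T2Space L) (p : Z → T) (k : L → V × T) (s : V × T → L) (i : F₀ × T → L) (ρ ρ' r : ℝ)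
        (u : Z → Z) (W : Set (F₀ × Z)) (e : Bool → F₀ × Z → L) (α : L → V × T)
        (β : Bool → P → V × T), Top3 κ q p k s i ρ ρ' r u W e α β

/-! ### Controlled spaces -/

/-- a space over `V × Z` -/
structure Ctl where
  Y : Type
  [top : TopologicalSpace Y]
  pj : Y → V × Z
  cont : Continuous pj

attribute [instance] Ctl.top

/-- equal, or both over `H` at distance at most `ε` in the direction `Z` -/
def Nr (H : Set V) (ε : ℝ) (b b' : V × Z) : Prop :=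
  b = b' ∨ (b.1 ∈ H ∧ b'.1 ∈ H ∧ dist b.2 b'.2 ≤ ε)

def Iso (C C' : Ctl) (H : Set V) (ε : ℝ) : Prop :=
  ∃ θ : C.Y ≃ₜ C'.Y, ∀ y, Nr H ε (C.pj y) (C'.pj (θ y))

/-- bounded isomorphism relative to the end -/
def BIso (C C' : Ctl) : Prop := ∃ (R ε : ℝ), 0 ≤ ε ∧ Iso C C' (closedBall 0 R) ε

/-- the control map is a homeomorphism off `S × Z` -/
def Std (C : Ctl) (S : Set V) : Prop :=
  ∃ σ : V × Z → C.Y, ContinuousOn σ {b | b.1 ∉ S} ∧ (∀ b, b.1 ∉ S → C.pj (σ b) = b) ∧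
    ∀ y, (C.pj y).1 ∉ S → σ (C.pj y) = y

def one : Ctl := ⟨V × Z, id, continuous_id⟩

/-- fibre product -/
def Ctl.fp (C C' : Ctl) : Ctl :=
  ⟨{p : C.Y × C'.Y // C.pj p.1 = C'.pj p.2}, fun p => C.pj p.1.1,
    C.cont.comp (continuous_fst.comp continuous_subtype_val)⟩

/-- infinite fibre product -/
def pr (C : ℕ → Ctl) : Ctl :=
  ⟨{p : (V × Z) × ∀ m, (C m).Y // ∀ m, (C m).pj (p.2 m) = p.1}, fun p => p.1.1,
    continuous_fst.comp continuous_subtype_val⟩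

/-- change of the control: `E` on `V`, scaling by `t` on `Z` -/
def Ctl.mv (C : Ctl) (E : V ≃ₜ V) (t : ℝ) : Ctl :=
  ⟨C.Y, fun y => (E (C.pj y).1, t • (C.pj y).2),
    (E.continuous.comp C.cont.fst).prodMk (C.cont.snd.const_smul t)⟩

/-- row INF -/
def InfStmt : Prop :=
  ∀ (C : ℕ → Ctl) (H : ℕ → Set V) (ε δ : ℕ → ℝ) (e : ℝ), (∀ m, Iso (C m) one (H m) (ε m)) →
    Pairwise (Disjoint on H) → (∀ m, ∀ v ∈ H m, ‖v‖ ≤ δ m) → (∀ m, ε m ≤ δ m) →
    (∀ m, ε m ≤ e) → (∀ m, 0 ≤ δ m) → Summable δ → Iso (pr C) one (⋃ m, H m) e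

/-- the swindle in normal position -/
def SwCoreStmt : Prop :=
  ∀ x y : Ctl, Std x (closedBall ![1, 0, 0] (1 / 100)) →
    Std y (closedBall ![1 / 3, 0, 1] (1 / 100)) → BIso (x.fp y) one →
    BIso x (x.mv (Homeomorph.refl V) (1 / 2)) → BIso x one

/-- row SWINDLE -/
def SwindleStmt : Prop :=
  ∀ (x y : Ctl) (c c' ρ : ℝ), c < c' → Std x (lo c ρ) → Std y (hi c' ρ) → BIso (x.fp y) one →
    BIso x (x.mv (Homeomorph.refl V) (1 / 2)) → BIso x one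

/-- row SPLIT -/
def SplitStmt : Prop :=
  ∀ (D : Ctl) (S S' : Set V) (c : ℝ), IsClosed S → IsClosed S' → (∀ v ∈ S, v 2 < c) →
    (∀ v ∈ S', c < v 2) → Std D (S ∪ S') → T2Space D.Y →
    ∃ (x y : Ctl) (j : D.Y → x.Y), Std x S ∧ Std y S' ∧ Iso (x.fp y) D ∅ 0 ∧ T2Space x.Y ∧
      TE j {w | (D.pj w).1 2 < c} ∧ (∀ w, (D.pj w).1 2 < c → x.pj (j w) = D.pj w) ∧
      ∀ w, (x.pj w).1 2 < c → ∃ w', (D.pj w').1 2 < c ∧ j w' = w

/-- row LIFT -/
def LiftStmt : Prop :=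
  ∀ (T : Type) [TopologicalSpace T] (p : Z → T) (g : V × T → T) (R : ℝ), Tor p → Continuous g →
    (∀ v τ, R ≤ ‖v‖ → g (v, τ) = τ) →
    ∃ (δ : V × T → Z) (ε : ℝ), Continuous δ ∧ (∀ y, ‖δ y‖ ≤ ε) ∧
      (∀ v τ, R ≤ ‖v‖ → δ (v, τ) = 0) ∧ ∀ v t, g (v, p t) = p (t + δ (v, p t))

/-! ### The periodic space -/

/-- row CPK -/
def CpkStmt : Prop :=
  ∀ (F : Mf V) (P : Mf (Rn 5)) (q : Pat (F × Z) P) (W : Set (F × Z)), Pkg F P q → IsOpen W →
    q.K ⊆ W → ∃ K', q.K ⊆ K' ∧ K' ⊆ W ∧ Pkg F P (q.grow K') ∧ (q.grow K').Ext W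

/-- row THIN -/
def ThinXStmt : Prop :=
  ∀ (F : Mf V) (P : Mf (Rn 5)) (q : Pat (F × Z) P) (G D : Set Z), Pkg F P q → Convex ℝ G →
    ball 0 1 ⊆ G → Convex ℝ D → D ⊆ G → Disjoint D (ball 0 1) →
    Thin (q.φ '' (univ ×ˢ D)) (q.dom (univ ×ˢ G))

/-- position of the package in the cell `n` -/
def zn (r : ℝ) (n : Fin 2 → ℤ) (z : Z) : Z := zc + r • z + fun i => 2 * π * n i

def ez {F : Type} (r : ℝ) (n : Fin 2 → ℤ) (w : F × Z) : F × Z := (w.1, zn r n w.2)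

/-- `x` is `F × ℝ²` with one package in each cell -/
structure Pres {F P : Type} [TopologicalSpace F] [TopologicalSpace P] (x : Ctl)
    (q : Pat (F × Z) P) (W : Set (F × Z)) (ζ : P → V × Z) (κ : F → V) (ρ r : ℝ)
    (α : F × Z → x.Y) (β : (Fin 2 → ℤ) → P → x.Y) : Prop where
  t2 : T2Space x.Y
  r0 : 0 < r
  r1 : r ≤ 1
  Wo : IsOpen W
  KW : q.K ⊆ W
  W1 : ∀ w ∈ W, ‖w.2‖ < 1
  ins : Ins q W univ (ez r) univ α β univ
  pa : ∀ w ∈ q.rest univ (ez r) univ, x.pj (α w) = (κ w.1, w.2)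
  pb : ∀ n, ∀ y ∈ q.KP, x.pj (β n y) = ((ζ y).1, zn r n (ζ y).2)
  ζb : ∀ y ∈ q.KP, ‖(ζ y).1‖ ≤ ρ ∧ ‖(ζ y).2‖ < 1

/-- row X: the lift of the result of T3 -/
def XStmt : Prop :=
  ∀ (F P T L : Type) [TopologicalSpace F] [TopologicalSpace P] [TopologicalSpace T] [T2Space T]
    [TopologicalSpace L] (κ : F → V) (σ : V → F) (q : Pat (F × Z) P) (p : Z → T) (k : L → V × T)
    (s : V × T → L) (i : F × T → L) (ρ ρ' r : ℝ) (u : Z → Z) (W : Set (F × Z))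
    (e : Bool → F × Z → L) (α : L → V × T) (β : Bool → P → V × T), q.Ok → q.Ext W → Kap κ σ →
    Top3 κ q p k s i ρ ρ' r u W e α β →
    ∃ (x y : Ctl) (ζ : P → V × Z) (α' : F × Z → x.Y) (β' : (Fin 2 → ℤ) → P → x.Y),
      Std x (closedBall 0 ρ) ∧ Std y (hi (ρ + 1) ρ') ∧ BIso (x.fp y) one ∧
      Pres x q W ζ κ ρ r α' β'

/-- row HALF -/
def HalfStmt : Prop :=
  ∀ (F : Mf V) (P : Mf (Rn 5)) (q : Pat (F × Z) P) (x : Ctl) (W : Set (F × Z)) (ζ : P → V × Z)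
    (κ : F → V) (ρ r : ℝ) (α : F × Z → x.Y) (β : (Fin 2 → ℤ) → P → x.Y), Pkg F P q →
    Pres x q W ζ κ ρ r α β → BIso x (x.mv (Homeomorph.refl V) (1 / 2))

/-! ### T5 -/

/-- the middle of the neck, times a line, is standard -/
structure Mid (D : TDat) (R c : ℝ) (γ : V × Z → D.M × ℝ) : Prop where
  R1 : 1 ≤ R
  te : TE γ {b | |b.2 0| < 2}
  miss : ∀ b : V × Z, |b.2 0| < 2 → (γ b).1 ∉ D.l '' (univ ×ˢ {0})
  far : ∀ b : V × Z, |b.2 0| < 2 → R < nsq b.1 → γ b = (D.l (b.2 0, inv b.1), b.2 1)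
  away : ∀ b : V × Z, |b.2 0| < 2 → ∀ θ w, 2 ≤ θ → θ ≤ 6 → R < nsq w → (γ b).1 ≠ D.l (θ, inv w)
  op : IsOpen ((D.l '' (univ ×ˢ {0}))ᶜ ×ˢ univ \ γ '' {b | |b.2 0| ≤ 1})
  bd : ∀ b : V × Z, |b.2 0| < 2 → |(γ b).2 - b.2 1| ≤ c

/-- row MID -/
def MidStmt : Prop :=
  ∀ (D : TDat) (F₀ : Mf V) (j : F₀ → D.F) (κ : F₀ → V) (σ : V → F₀) (th' : V → V) (th : D.F → V)
    (P : Mf (Rn 5)) (q : Pat (F₀ × Z) P) (x : Ctl) (W : Set (F₀ × Z)) (ζ : P → V × Z) (ρ r : ℝ)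
    (α : F₀ × Z → x.Y) (β : (Fin 2 → ℤ) → P → x.Y), D.Ok → OE F₀ D.F j univ → Kap κ σ →
    End (cq D.e₀) j κ th' th → Pkg F₀ P q → Pres x q W ζ κ ρ r α β → BIso x one →
    ∃ R c γ, Mid D R c γ

/-- row CORE -/
def CoreStmt : Prop :=
  ∀ (D : TDat) (R c : ℝ) (γ : V × Z → D.M × ℝ), D.Ok → Mid D R c γ →
    ∀ (M₀ M₁ : Mf E4) (a₀ : D.M → M₀) (b₀ : D.Ω → M₀) (a₁ : D.M → M₁) (b₁ : D.Ω → M₁),
    Rep D.M D.Ω M₀ D.l D.j₀ a₀ b₀ → Rep D.M D.Ω M₁ D.l D.j₁ a₁ b₁ →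
    ∃ (Θ : M₁ × ℝ ≃ₜ M₀ × ℝ) (c : ℝ), ∀ p, |(Θ p).2 - p.2| ≤ c

end Pool.Agent.MP_e1dc65_gt.T4

end
end MrgPart0

-- ======== part 1: formerly Pool.Agent.MP_e1dc65_gt.t4.Base
section MrgPart1

/-! PROJECT HC, part T4: open embeddings of open sets and gluing. -/

open scoped Topology
open Set Filter Function Topology

noncomputable section

namespace Pool.Agent.MP_e1dc65_gt.T4

variable {X Y B S S' : Type} [TopologicalSpace X] [TopologicalSpace Y] [TopologicalSpace B]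
  [TopologicalSpace S] [TopologicalSpace S'] {f f' : X → Y} {g : Y → B} {U U' : Set X} {T : Set Y}

theorem CO.img (h : CO f U) : IsOpen (f '' U) := h.op U h.dom subset_rfl

theorem CO.mono (h : CO f U) (hU : IsOpen U') (s : U' ⊆ U) : CO f U' :=
  ⟨hU, h.cont.mono s, fun O hO hs => h.op O hO (hs.trans s)⟩

theorem CO.comp (hf : CO f U) (hg : CO g T) (m : MapsTo f U T) : CO (fun x => g (f x)) U :=
  ⟨hf.dom, hg.cont.comp hf.cont m, fun O hO hs => by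
    rw [← image_image]; exact hg.op _ (hf.op O hO hs) (image_subset_iff.2 fun x hx => m (hs hx))⟩

theorem CO.congr (h : CO f U) (e : EqOn f' f U) : CO f' U :=
  ⟨h.dom, h.cont.congr e, fun O hO hs => by rw [(e.mono hs).image_eq]; exact h.op O hO hs⟩

theorem CO.of_local (h : ∀ x ∈ U, ∃ O, x ∈ O ∧ O ⊆ U ∧ CO f O) : CO f U := by
  refine ⟨isOpen_iff_forall_mem_open.2 fun x hx => ?_, fun x hx => ?_, fun O hO hs => ?_⟩
  · obtain ⟨O, a, b, c⟩ := h x hx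
    exact ⟨O, b, c.dom, a⟩
  · obtain ⟨O, a, -, c⟩ := h x hx
    exact (c.cont.continuousAt (c.dom.mem_nhds a)).continuousWithinAt
  · refine isOpen_iff_forall_mem_open.2 ?_
    rintro _ ⟨x, hx, rfl⟩
    obtain ⟨O', a, -, c⟩ := h x (hs hx)
    exact ⟨_, image_mono inter_subset_left, c.op _ (hO.inter c.dom) inter_subset_right,
      x, ⟨hx, a⟩, rfl⟩

theorem CO.union (h : CO f U) (h' : CO f U') : CO f (U ∪ U') :=
  CO.of_local fun _ hx => hx.elim (fun a => ⟨U, a, subset_union_left, h⟩)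
    fun a => ⟨U', a, subset_union_right, h'⟩

theorem co_of_isOpenMap (hc : Continuous f) (ho : IsOpenMap f) (hU : IsOpen U) : CO f U :=
  ⟨hU, hc.continuousOn, fun O hO _ => ho O hO⟩

theorem CO.pre (h : CO f U) (hT : IsOpen T) : IsOpen (U ∩ f ⁻¹' T) :=
  h.cont.isOpen_inter_preimage h.dom hT

theorem CO.prod {g : S → B} {T : Set S} (hf : CO f U) (hg : CO g T) :
    CO (Prod.map f g) (U ×ˢ T) := by
  refine ⟨hf.dom.prod hg.dom, hf.cont.prodMap hg.cont, fun O hO hs => ?_⟩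
  refine isOpen_iff_forall_mem_open.2 ?_
  rintro _ ⟨x, hx, rfl⟩
  obtain ⟨a, b, ha, hb, h1, h2, h3⟩ := isOpen_prod_iff.1 hO x.1 x.2 hx
  refine ⟨(f '' (a ∩ U)) ×ˢ (g '' (b ∩ T)), ?_, (hf.op _ (ha.inter hf.dom) inter_subset_right).prod
    (hg.op _ (hb.inter hg.dom) inter_subset_right), ⟨_, ⟨h1, (hs hx).1⟩, rfl⟩,
    ⟨_, ⟨h2, (hs hx).2⟩, rfl⟩⟩
  rintro ⟨_, _⟩ ⟨⟨u, hu, rfl⟩, ⟨v, hv, rfl⟩⟩
  exact ⟨(u, v), h3 ⟨hu.1, hv.1⟩, rfl⟩

/-- descent of continuity -/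
theorem CO.desc_cont {k : X → B} (hf : CO f U) (hk : ContinuousOn k U)
    (e : ∀ x ∈ U, g (f x) = k x) : ContinuousOn g (f '' U) := by
  refine (continuousOn_open_iff hf.img).2 fun O hO => ?_
  have : f '' U ∩ g ⁻¹' O = f '' (U ∩ k ⁻¹' O) := by
    ext y; constructor
    · rintro ⟨⟨x, hx, rfl⟩, h⟩
      exact ⟨x, ⟨hx, by rwa [mem_preimage, ← e x hx]⟩, rfl⟩
    · rintro ⟨x, hx, rfl⟩
      exact ⟨⟨x, hx.1, rfl⟩, by rw [mem_preimage, e x hx.1]; exact hx.2⟩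
  rw [this]
  exact hf.op _ (hk.isOpen_inter_preimage hf.dom hO) inter_subset_left

theorem CO.desc {k : X → B} (hf : CO f U) (hk : CO k U) (e : ∀ x ∈ U, g (f x) = k x) :
    CO g (f '' U) := by
  refine ⟨hf.img, hf.desc_cont hk.cont e, fun O hO hs => ?_⟩
  have : g '' O = k '' (U ∩ f ⁻¹' O) := by
    ext y; constructor
    · rintro ⟨z, hz, rfl⟩
      obtain ⟨x, hx, rfl⟩ := hs hz
      exact ⟨x, ⟨hx, hz⟩, (e x hx).symm⟩
    · rintro ⟨x, hx, rfl⟩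
      exact ⟨f x, hx.2, e x hx.1⟩
  rw [this]
  exact hk.op _ (hf.pre hO) inter_subset_left

theorem TE.mono (h : TE f U) (hU : IsOpen U') (s : U' ⊆ U) : TE f U' :=
  ⟨h.toCO.mono hU s, h.inj.mono s⟩

theorem TE.comp (hf : TE f U) (hg : TE g T) (m : MapsTo f U T) : TE (fun x => g (f x)) U :=
  ⟨hf.toCO.comp hg.toCO m, hg.inj.comp hf.inj m⟩

theorem TE.congr (h : TE f U) (e : EqOn f' f U) : TE f' U :=
  ⟨h.toCO.congr e, h.inj.congr e.symm⟩

theorem te_homeo (e : X ≃ₜ Y) (hU : IsOpen U) : TE e U :=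
  ⟨co_of_isOpenMap e.continuous e.isOpenMap hU, e.injective.injOn⟩

theorem te_id (hU : IsOpen U) : TE (fun x => x) U := te_homeo (Homeomorph.refl X) hU

theorem TE.prod {g : S → B} {T : Set S} (hf : TE f U) (hg : TE g T) :
    TE (Prod.map f g) (U ×ˢ T) := ⟨hf.toCO.prod hg.toCO, hf.inj.prodMap hg.inj⟩

/-- a map with a continuous two-sided inverse -/
theorem te_of_inv {k : Y → X} (hU : IsOpen U) (hT : IsOpen T) (hf : ContinuousOn f U)
    (hk : ContinuousOn k T) (m : MapsTo f U T) (l : ∀ x ∈ U, k (f x) = x)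
    (r : ∀ y ∈ T, f (k y) = y) : TE f U := by
  refine ⟨⟨hU, hf, fun O hO hs => ?_⟩, LeftInvOn.injOn l⟩
  have : f '' O = T ∩ k ⁻¹' O := by
    ext y; constructor
    · rintro ⟨x, hx, rfl⟩
      exact ⟨m (hs hx), by rwa [mem_preimage, l x (hs hx)]⟩
    · exact fun h => ⟨k y, h.2, r y h.1⟩
  rw [this]
  exact hk.isOpen_inter_preimage hT hO

/-- any left inverse is an open embedding of the image -/
theorem TE.symm' {k : Y → X} (h : TE f U) (l : ∀ x ∈ U, k (f x) = x) : TE k (f '' U) :=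
  ⟨h.toCO.desc (te_id h.dom).toCO l, by
    rintro _ ⟨x, hx, rfl⟩ _ ⟨y, hy, rfl⟩ e
    rw [l x hx, l y hy] at e; rw [e]⟩

theorem TE.left [Nonempty X] (h : TE f U) {x : X} (hx : x ∈ U) : invFunOn f U (f x) = x :=
  h.inj.leftInvOn_invFunOn hx

theorem TE.symm [Nonempty X] (h : TE f U) : TE (invFunOn f U) (f '' U) := h.symm' fun _ => h.left

theorem TE.homeo (h : TE f univ) (s : Surjective f) : ∃ e : X ≃ₜ Y, ∀ x, e x = f x :=
  ⟨(Equiv.ofBijective f ⟨injOn_univ.1 h.inj, s⟩).toHomeomorphOfContinuousOpen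
    (continuousOn_univ.1 h.cont) fun O hO => h.op O hO (subset_univ _), fun _ => rfl⟩

theorem te_of_oe {E E' : Type} [NormedAddCommGroup E] [NormedSpace ℝ E] [NormedAddCommGroup E']
    [NormedSpace ℝ E'] {M : Mf E} {N : Mf E'} {f : M → N} {U : Set M} (h : OE M N f U) : TE f U :=
  ⟨⟨h.op, h.sm.contOn, fun _ => h.isOpen_image⟩, h.inj⟩

theorem co_of_ld {E E' : Type} [NormedAddCommGroup E] [NormedSpace ℝ E] [NormedAddCommGroup E']
    [NormedSpace ℝ E'] {M : Mf E} {N : Mf E'} {f : M → N} {U : Set M} (hU : IsOpen U)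
    (h : ∀ x ∈ U, LDAt M N f x) : CO f U :=
  ⟨hU, fun x hx => (h x hx).sm.cont.continuousWithinAt,
    fun _ hO hs => isOpen_image_ld hO fun x hx => h x (hs hx)⟩

/-- a single-valued relation is contained in the graph of a map -/
theorem exists_desc {X Y : Type} [Nonempty Y] (R : X → Y → Prop)
    (h : ∀ x y y', R x y → R x y' → y = y') : ∃ θ : X → Y, ∀ x y, R x y → θ x = y := by
  classical
  exact ⟨fun x => if hx : ∃ y, R x y then hx.choose else Classical.arbitrary Y, fun x y hxy => by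
    have hx : ∃ y, R x y := ⟨y, hxy⟩
    simp only [dif_pos hx]; exact h x _ _ hx.choose_spec hxy⟩

/-- gluing two pieces, continuous version -/
theorem glue_cont [Nonempty Y] {f₁ : S → X} {g₁ : S → Y} {f₂ : S' → X} {g₂ : S' → Y} {U₁ : Set S}
    {U₂ : Set S'} (a₁ : TE f₁ U₁) (b₁ : ContinuousOn g₁ U₁) (a₂ : TE f₂ U₂)
    (b₂ : ContinuousOn g₂ U₂) (k : ∀ a ∈ U₁, ∀ b ∈ U₂, f₁ a = f₂ b → g₁ a = g₂ b) :
    ∃ θ : X → Y, ContinuousOn θ (f₁ '' U₁ ∪ f₂ '' U₂) ∧ (∀ a ∈ U₁, θ (f₁ a) = g₁ a) ∧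
      ∀ b ∈ U₂, θ (f₂ b) = g₂ b := by
  obtain ⟨θ, hθ⟩ := exists_desc (fun x y => (∃ a ∈ U₁, f₁ a = x ∧ g₁ a = y) ∨
      ∃ b ∈ U₂, f₂ b = x ∧ g₂ b = y) (by
    rintro x y y' (⟨a, ha, rfl, rfl⟩ | ⟨a, ha, rfl, rfl⟩) (⟨b, hb, e, rfl⟩ | ⟨b, hb, e, rfl⟩)
    · rw [a₁.inj hb ha e]
    · exact k a ha b hb e.symm
    · exact (k b hb a ha e).symm
    · rw [a₂.inj hb ha e])
  have e₁ := fun a ha => hθ _ _ (Or.inl ⟨a, ha, rfl, rfl⟩)
  have e₂ := fun a ha => hθ _ _ (Or.inr ⟨a, ha, rfl, rfl⟩)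
  exact ⟨θ, (a₁.desc_cont b₁ e₁).union_of_isOpen (a₂.desc_cont b₂ e₂) a₁.img a₂.img, e₁, e₂⟩

/-- gluing two pieces -/
theorem glue2 [Nonempty Y] {f₁ : S → X} {g₁ : S → Y} {f₂ : S' → X} {g₂ : S' → Y} {U₁ : Set S}
    {U₂ : Set S'} (a₁ : TE f₁ U₁) (b₁ : TE g₁ U₁) (a₂ : TE f₂ U₂) (b₂ : TE g₂ U₂)
    (k : ∀ a ∈ U₁, ∀ b ∈ U₂, f₁ a = f₂ b ↔ g₁ a = g₂ b) :
    ∃ θ : X → Y, TE θ (f₁ '' U₁ ∪ f₂ '' U₂) ∧ (∀ a ∈ U₁, θ (f₁ a) = g₁ a) ∧
      ∀ b ∈ U₂, θ (f₂ b) = g₂ b := by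
  obtain ⟨θ, -, e₁, e₂⟩ := glue_cont a₁ b₁.cont a₂ b₂.cont fun a ha b hb => (k a ha b hb).1
  refine ⟨θ, ⟨(a₁.desc b₁.toCO e₁).union (a₂.desc b₂.toCO e₂), ?_⟩, e₁, e₂⟩
  rintro _ (⟨a, ha, rfl⟩ | ⟨a, ha, rfl⟩) _ (⟨b, hb, rfl⟩ | ⟨b, hb, rfl⟩) e
  · rw [e₁ a ha, e₁ b hb] at e; rw [b₁.inj ha hb e]
  · rw [e₁ a ha, e₂ b hb] at e; exact (k a ha b hb).2 e
  · rw [e₂ a ha, e₁ b hb] at e; exact ((k b hb a ha).2 e.symm).symm
  · rw [e₂ a ha, e₂ b hb] at e; rw [b₂.inj ha hb e]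

/-- gluing two pieces that cover both spaces -/
theorem glue2_homeo [Nonempty Y] {f₁ : S → X} {g₁ : S → Y} {f₂ : S' → X} {g₂ : S' → Y}
    {U₁ : Set S} {U₂ : Set S'} (a₁ : TE f₁ U₁) (b₁ : TE g₁ U₁) (a₂ : TE f₂ U₂) (b₂ : TE g₂ U₂)
    (k : ∀ a ∈ U₁, ∀ b ∈ U₂, f₁ a = f₂ b ↔ g₁ a = g₂ b) (c : f₁ '' U₁ ∪ f₂ '' U₂ = univ)
    (c' : g₁ '' U₁ ∪ g₂ '' U₂ = univ) :
    ∃ θ : X ≃ₜ Y, (∀ a ∈ U₁, θ (f₁ a) = g₁ a) ∧ ∀ b ∈ U₂, θ (f₂ b) = g₂ b := by
  obtain ⟨θ, h, e₁, e₂⟩ := glue2 a₁ b₁ a₂ b₂ k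
  obtain ⟨e, he⟩ := (c ▸ h : TE θ univ).homeo fun y => by
    rcases (c'.symm ▸ mem_univ y : y ∈ g₁ '' U₁ ∪ g₂ '' U₂) with ⟨a, ha, rfl⟩ | ⟨a, ha, rfl⟩
    exacts [⟨_, e₁ a ha⟩, ⟨_, e₂ a ha⟩]
  exact ⟨e, fun a ha => (he _).trans (e₁ a ha), fun a ha => (he _).trans (e₂ a ha)⟩

end Pool.Agent.MP_e1dc65_gt.T4

end
end MrgPart1

-- ======== part 2: formerly Pool.Agent.MP_e1dc65_gt.t.ASpec
section MrgPart2

/-! PROJECT HC, block A: the stages over the torus. Definitions and statements. -/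

open scoped ContDiff Manifold Topology Real
open Set Filter Function Module Topology

noncomputable section

namespace Pool.Agent.MP_e1dc65_gt.T

def tc (s : ℝ) : ℝ := Real.smoothTransition (|s| - 5)
/-- `c - s²` for `|s| ≤ 5`, `g (12 - |s|)` for `6 ≤ |s|` -/
def Cc (c : ℝ) (g : ℝ → ℝ) (s : ℝ) : ℝ := (1 - tc s) * (c - s ^ 2) + tc s * g (12 - |s|)
def sig (y : ℝ) : ℝ := y + 12 * (2 * Real.smoothTransition (2 * y + 1 / 2) - 1)
def tau : ℝ → ℝ := invFun sig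

/-- row PROF: the functions of one variable -/
def ProfStmt : Prop :=
  OE (vs ℝ) (vs ℝ) sig univ ∧ StrictMono sig ∧ ContDiff ℝ ∞ tau ∧ (∀ s, 0 < deriv tau s) ∧
  (∀ y, tau (sig y) = y) ∧ (∀ s, sig (tau s) = s) ∧
  (∀ s, 49 / 4 ≤ |s| → |tau s| = |s| - 12) ∧ (∀ s, |s| ≤ 49 / 4 → |tau s| ≤ 1 / 4) ∧
  (∀ y, 1 / 4 ≤ y → sig y = y + 12 ∧ sig (-y) = -(y + 12)) ∧
  ContDiff ℝ ∞ gt ∧ (∀ y, 0 < deriv gt y) ∧ (∀ y, 3 / 5 ≤ y → gt y = gam (-2) y) ∧
  (∀ y, y ≤ 3 / 10 → gt y = y - 3) ∧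
  ∀ c : ℝ, 100 ≤ c → (∀ g : ℝ → ℝ, ContDiff ℝ ∞ g → ContDiff ℝ ∞ (Cc c g) ∧
      (∀ s, Cc c g (-s) = Cc c g s) ∧ (∀ s, |s| ≤ 5 → Cc c g s = c - s ^ 2) ∧
      ∀ s, 6 ≤ |s| → Cc c g s = g (12 - |s|)) ∧
    (∀ t, t = 2 ∨ t = -2 → ∀ s, (0 < |s| → |s| < 12 → s * deriv (Cc c (gam t)) s < 0) ∧
      (12 < |s| → 0 < s * deriv (Cc c (gam t)) s) ∧ t ≤ Cc c (gam t) s ∧
      (|s| < 17 → Cc c (gam t) s ≤ c - min (s ^ 2) 25)) ∧
    ∀ s, s ≠ 0 → s * deriv (Cc c gt) s < 0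

/-- the centre of the hole -/
def ctr (L : ℝ) : E2 := !₂[L / 2, L / 2]

/-- functions on the torus -/
structure Dat (T : Mf (Rn 2)) where
  c : ℝ
  a : Fin 5 → T → ℝ
  χ : T → ℝ
  W : T → Rn 2

structure Dat.Ok {T : Mf (Rn 2)} (d : Dat T) (p : E2 → T) (R C L : ℝ) : Prop where
  c100 : 100 ≤ d.c
  sm : ∀ n, Sm T (vs ℝ) (d.a n) univ
  smχ : Sm T (vs ℝ) d.χ univ
  χ01 : ∀ z, d.χ z ∈ Icc (0 : ℝ) 1
  vf : ∀ z, VfAt T d.W z
  quad : ∀ n v, ‖v‖ ≤ R → d.a n (p v) = ‖v‖ ^ 2 ∧ d.χ (p v) = 0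
  big : ∀ n z r, 0 ≤ r → r ≤ R → d.a n z ≤ r ^ 2 → ∃ v, ‖v‖ ≤ r ∧ z = p v
  mono : ∀ n (v v' : E2), (∀ k, |v k| ≤ |v' k| ∧ |v' k| ≤ L / 2) → d.a n (p v) ≤ d.a n (p v')
  b1 : ∀ u y, |u| ≤ 6 → |y| ≤ 6 → d.a 0 (p !₂[u, L / 2 + y]) = u ^ 2 + d.c - gam (-2) y ∧
    d.a 1 (p !₂[u, L / 2 + y]) = u ^ 2 + d.c - gam 2 y
  b2 : ∀ u y, |u| ≤ 6 → |y| ≤ 6 → d.a 1 (p !₂[L / 2 + y, u]) = u ^ 2 + d.c - gam (-2) y ∧
    d.a 2 (p !₂[L / 2 + y, u]) = u ^ 2 + d.c - gam 2 y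
  f1 : ∀ z, d.a 0 z = d.a 1 z ∨ (d.c + 5 ≤ d.a 0 z ∧ d.c + 5 ≤ d.a 1 z) ∨
    ∃ u y, |u| ≤ 4 ∧ |y| ≤ 3 ∧ z = p !₂[u, L / 2 + y]
  f2 : ∀ z, d.a 1 z = d.a 2 z ∨ (d.c + 5 ≤ d.a 1 z ∧ d.c + 5 ≤ d.a 2 z) ∨
    ∃ u y, |u| ≤ 4 ∧ |y| ≤ 3 ∧ z = p !₂[L / 2 + y, u]
  hole : ∀ v : E2, |v 0| ≤ 6 → |v 1| ≤ 6 → d.a 3 (p (ctr L + v)) = d.c + 2 - ‖v‖ ^ 2
  χ1 : ∀ v : E2, ‖v‖ ≤ 5 → d.χ (p (ctr L + v)) = 1
  χ0 : ∀ z, d.χ z ≠ 0 → ∃ v : E2, |v 0| ≤ 6 ∧ |v 1| ≤ 6 ∧ z = p (ctr L + v)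
  fill : ∀ z, 2 ≤ d.c - d.a 3 z + 4 * d.χ z
  top : ∀ z, C < d.c - d.a 4 z ∧ 2 ≤ d.c - d.a 4 z
  dW : ∀ n z, 0 ≤ Df T (vs ℝ) (d.a n) z (d.W z)
  crit : ∀ z, (∀ n, 0 < Df T (vs ℝ) (d.a n) z (d.W z)) ∨
    ((∀ n, (d.a n z = 0 ∨ R ^ 2 ≤ d.a n z) ∧ (d.a n z ≤ d.c - 2 ∨ d.c + 2 ≤ d.a n z)) ∧
      (d.a 0 z = 0 ∨ d.c + 2 ≤ d.a 0 z) ∧ (d.a 2 z ≤ d.c - 2 ↔ d.a 3 z ≤ d.c - 2))

/-- row DAT -/
def DatStmt : Prop :=
  ∀ (R C L : ℝ) (T : Mf (Rn 2)) (p : E2 → T), 27 ≤ R → 4 * R + 40 ≤ L → Tor T p L →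
    ∃ d : Dat T, d.Ok p R C L

section
variable {T : Mf (Rn 2)}

/-- the first two stages -/
def Dat.G0 (d : Dat T) (t : ℝ) (b : T × ℝ) : ℝ := gam t (tau b.2) - d.a 0 b.1
/-- the later stages -/
def Dat.Gs (d : Dat T) (g : ℝ → ℝ) (k : ℝ) (n : Fin 5) (b : T × ℝ) : ℝ :=
  Cc d.c g b.2 - d.a n b.1 + k * bet b.2 * d.χ b.1

def DD (p : E2 → T) : Set (E2 × T × ℝ) :=
  {q | ‖q.1‖ < 5 ∧ (|q.2.2| < 25 / 2 ∨ (q.2.1 ∈ p '' Metric.ball 0 5 ∧ |q.2.2| < 17))}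
def QQ (p : E2 → T) : Set (E2 × T × ℝ) :=
  {q | ‖q.1‖ ≤ 1 ∧ (|q.2.2| ≤ 12 ∨ (q.2.1 ∈ p '' Metric.closedBall 0 4 ∧ |q.2.2| ≤ 15))}

/-- the region above the paraboloid placed beyond `|s| = 12` -/
def Up (p : E2 → T) (σ : ℝ) (q : R3 × E2) : E2 × T × ℝ :=
  (q.1.1, p q.2, σ * (12 + √(G5 q + 2)))

open Classical in
/-- the big patch -/
def II (N : NF) (ε : N.F × E2 → R3 × E2) (p : E2 → T) (q : N.F × T × ℝ) : E2 × T × ℝ :=
  if 49 / 4 < |q.2.2| ∧ q.2.1 ∈ p '' Metric.ball 0 5 then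
    Up p (if 0 < q.2.2 then 1 else -1) (ε (q.1, invFunOn p (Metric.ball 0 5) q.2.1))
  else N.pr q

/-- a copy of the core of `N.F` along a strip -/
def NF.St (N : NF) {B : Type} (ζ : ℝ → B) : Set (N.F × B) :=
  {q | ‖N.w q.1‖ ≤ 6 / 5 ∧ |N.f q.1| ≤ 6 / 5 ∧ q.2 = ζ (N.f q.1)}

/-- the strip on the outer sheet -/
def zo (p : E2 → T) (σ : ℝ) (θ : E2) (t : ℝ) : T × ℝ := (p (√(57 / 4 - t) • θ), σ * (31 / 2))

/-- the patches -/
def β0 (p : E2 → T) (b : R3) : T × ℝ := (p b.1, sig b.2)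
def β1 (p : E2 → T) (L : ℝ) (b : R3) : T × ℝ := (p !₂[b.1 0, L / 2 + b.2], b.1 1)
def β2 (p : E2 → T) (L : ℝ) (b : R3) : T × ℝ := (p !₂[L / 2 + b.2, b.1 0], b.1 1)
def β3 (p : E2 → T) (L : ℝ) (b : R3) : T × ℝ := (p (ctr L + b.1), b.2)
def β4 (p : E2 → T) (b : Σ _ : Bool, R3) : T × ℝ :=
  (p b.2.1, (if b.1 then -1 else 1) * (12 - b.2.2))

end

/-- the standing hypotheses -/
structure AH (N : NF) (ε : N.F × E2 → R3 × E2) (R C L : ℝ) (T : Mf (Rn 2)) (p : E2 → T)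
    (d : Dat T) : Prop where
  ok : N.Ok
  emb : Emb N ε R
  tor : Tor T p L
  dat : d.Ok p R C L
  big : 4 * R + 40 ≤ L

/-- row BLOB: the big patch is a smooth embedding and the outer sheets are thin -/
def BlobStmt : Prop :=
  ∀ (N : NF) (ε : N.F × E2 → R3 × E2) (R C L : ℝ) (T : Mf (Rn 2)) (p : E2 → T) (d : Dat T),
    AH N ε R C L T p d → IsOpen (DD p) → Reg N T.cyl (d.G0 (-2)) (DD p) →
    LOE N T.cyl (d.G0 (-2)) (DD p) ((vs E2).prod T.cyl) (II N ε p) ∧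
    ∀ (Z : Type) [TopologicalSpace Z] (Γ : T × ℝ → ℝ) (e : N.F × T × ℝ → Z)
      (h : OpenPartialHomeomorph (E2 × T × ℝ) Z) (σ : ℝ) (θ : E2),
      Rp N (d.G0 (-2)) Γ (DD p) (QQ p) (II N ε p) e h → (σ = 1 ∨ σ = -1) → ‖θ‖ = 1 →
      (∀ t, |t| ≤ 6 / 5 → Γ (zo p σ θ t) = t) → Thin (e '' N.St (zo p σ θ)) univ

/-- row SLIDE: the sheets of the three later patches are thin when the outer sheets are -/
def SlideStmt : Prop :=
  ∀ (N : NF) (ε : N.F × E2 → R3 × E2) (R C L : ℝ) (T : Mf (Rn 2)) (p : E2 → T) (d : Dat T)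
    (Z : Type) [TopologicalSpace Z] (e : N.F × T × ℝ → Z) (k : ℝ) (n : Fin 5) (σ : ℝ),
    AH N ε R C L T p d → (σ = 1 ∨ σ = -1) →
    IsEmbedding ((N.Pt (d.Gs (gam 2) k n) (DD p)).restrict e) →
    (∀ σ' θ, σ' = 1 ∨ σ' = -1 → ‖θ‖ = 1 → Thin (e '' N.St (zo p σ' θ)) univ) →
    (k = 0 → n = 0 → Thin ((fun q => e (q.1, β1 p L q.2)) '' N.Sheet σ) univ) ∧
    (k = 0 → n = 1 → Thin ((fun q => e (q.1, β2 p L q.2)) '' N.Sheet σ) univ) ∧
    (k = 4 → n = 3 → Thin ((fun q => e (q.1, β3 p L q.2)) '' N.flip.Sheet σ) univ)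

/-- row TOPL: the top level is a replacement of the trivial space along the big patch -/
def TopStmt : Prop :=
  ∀ (N : NF) (ε : N.F × E2 → R3 × E2) (R C L : ℝ) (T : Mf (Rn 2)) (p : E2 → T) (d : Dat T),
    AH N ε R C L T p d → Adm (d.G0 (-2)) (d.Gs (gam (-2)) 0 4) (DD p) (QQ p) →
    IsOpenEmbedding ((N.Pt (d.G0 (-2)) (DD p)).restrict (II N ε p)) →
    ∃ (e : N.F × T × ℝ → N.Hyp (d.Gs gt 0 4))
      (h : OpenPartialHomeomorph (E2 × T × ℝ) (N.Hyp (d.Gs gt 0 4))),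
      Rp N (d.G0 (-2)) (d.Gs (gam (-2)) 0 4) (DD p) (QQ p) (II N ε p) e h ∧
      (∀ x ∈ h.source, N.pr (h x).1 = x) ∧
      ∀ σ, ∀ q ∈ N.Pt (Gm (-2)) D0, (e (q.1, β4 p ⟨σ, q.2⟩)).1.1 = (N.io ε q).1 ∧
        (e (q.1, β4 p ⟨σ, q.2⟩)).1.2.1 = p (N.io ε q).2 ∧
        0 ≤ (if σ then -1 else 1) * (e (q.1, β4 p ⟨σ, q.2⟩)).1.2.2

end Pool.Agent.MP_e1dc65_gt.T

end
end MrgPart2

-- ======== part 3: formerly Pool.Agent.MP_e1dc65_gt.t.ASpec2
section MrgPart3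

/-! PROJECT HC, block A: the elementary facts about the stage functions. Statements. -/

open scoped ContDiff Manifold Topology Real
open Set Filter Function Module Topology

noncomputable section

namespace Pool.Agent.MP_e1dc65_gt.T

/-- the list of the stage functions -/
def Dat.stage {T : Mf (Rn 2)} (d : Dat T) : Fin 9 → T × ℝ → ℝ :=
  ![d.G0 (-2), d.G0 2, d.Gs (gam 2) 0 0, d.Gs (gam 2) 0 1, d.Gs (gam 2) 0 2, d.Gs (gam 2) 0 3,
    d.Gs (gam 2) 4 3, d.Gs (gam 2) 0 4, d.Gs (gam (-2)) 0 4]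

/-- row REG -/
def ARegStmt : Prop :=
  ∀ (N : NF) (ε : N.F × E2 → R3 × E2) (R C L : ℝ) (T : Mf (Rn 2)) (p : E2 → T) (d : Dat T),
    AH N ε R C L T p d → (∃ q ∈ DD p, 1 < ‖q.1‖) ∧
    (∀ n, Reg N T.cyl (d.stage n) (DD p) ∧ Adm (d.G0 (-2)) (d.stage n) (DD p) (QQ p)) ∧
    ∀ n : Fin 9, n = 1 ∨ n = 4 ∨ n = 6 → ∃ Q, IsCompact Q ∧ QQ p ⊆ Q ∧ Q ⊆ DD p ∧
      Mv N (d.stage n) (d.stage (n + 1)) (DD p) Q

/-- the hypotheses of `SubStmt` -/
structure Pch {B B' : Type} [TopologicalSpace B] [TopologicalSpace B'] (β : B' → B) (V : Set B')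
    (Γ' Γ'' : B → ℝ) (G' G'' : B' → ℝ) (D : Set (E2 × B)) (D' Q' : Set (E2 × B')) : Prop where
  adm : Adm G' G'' D' Q'
  op : IsOpen V
  emb : IsOpenEmbedding (V.restrict β)
  val : ∀ q ∈ D', q.2 ∈ V ∧ (q.1, β q.2) ∈ D ∧ Γ' (β q.2) = G' q.2 ∧ Γ'' (β q.2) = G'' q.2
  far : ∀ q ∈ D, ‖q.1‖ ≤ 1 → (∀ b, (q.1, b) ∈ Q' → β b ≠ q.2) → Far (Γ' q.2) (Γ'' q.2)

def V0 : Set R3 := {b | ‖b.1‖ < 5 ∧ |b.2| < 5}

/-- row PCH -/
def APchStmt : Prop :=
  ∀ (N : NF) (ε : N.F × E2 → R3 × E2) (R C L : ℝ) (T : Mf (Rn 2)) (p : E2 → T) (d : Dat T),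
    AH N ε R C L T p d →
    (OE (vs R3) T.cyl (β0 p) V0 ∧
      Pch (β0 p) V0 (d.stage 0) (d.stage 1) (Gm (-2)) (Gm 2) (DD p) D0 Q0) ∧
    (OE (vs R3) T.cyl (β1 p L) V0 ∧
      Pch (β1 p L) V0 (d.stage 2) (d.stage 3) (Gm (-2)) (Gm 2) (DD p) D0 Q0) ∧
    (OE (vs R3) T.cyl (β2 p L) V0 ∧
      Pch (β2 p L) V0 (d.stage 3) (d.stage 4) (Gm (-2)) (Gm 2) (DD p) D0 Q0) ∧
    (OE (vs R3) T.cyl (β3 p L) V0 ∧
      Pch (β3 p L) V0 (fun b => -d.stage 6 b) (fun b => -d.stage 5 b) (Gm (-2)) (Gm 2) (DD p)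
        D0 Q0) ∧
    Pch (β4 p) {b | b.2 ∈ V0} (d.stage 8) (d.stage 7) (fun b => Gm (-2) b.2) (fun b => Gm 2 b.2)
      (DD p) (cps Bool D0) (cps Bool Q0) ∧
    (∀ n σ θ t, σ = 1 ∨ σ = -1 → ‖θ‖ = 1 → |t| ≤ 6 / 5 → d.stage n (zo p σ θ t) = t) ∧
    (∀ σ t, σ = 1 ∨ σ = -1 → β0 p (√(57 / 4 - t) • cir 0, σ * (7 / 2)) = zo p σ (cir 0) t) ∧
    Continuous (d.Gs gt 0 4) ∧ (∀ z, C < d.Gs gt 0 4 (z, 0)) ∧
    (∀ z s, d.Gs gt 0 4 (z, -s) = d.Gs gt 0 4 (z, s)) ∧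
    (∀ z, StrictAntiOn (fun s => d.Gs gt 0 4 (z, s)) (Ici 0)) ∧
    ∃ S : T × ℝ → ℝ, ContinuousOn S {a | a.2 ≤ d.Gs gt 0 4 (a.1, 0)} ∧
      ∀ z t, t ≤ d.Gs gt 0 4 (z, 0) → 0 ≤ S (z, t) ∧ d.Gs gt 0 4 (z, S (z, t)) = t

end Pool.Agent.MP_e1dc65_gt.T

end
end MrgPart3

-- ======== part 4: formerly Pool.Agent.MP_e1dc65_gt.t2.Tube
section MrgPart4

/-! PROJECT HC, block EMB, row TUBE: compressing the model into a neighbourhood of the spine. -/

open scoped ContDiff Manifold Topology Real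
open Set Filter Function Module Metric Topology

noncomputable section

namespace Pool.Agent.MP_e1dc65_gt.T

namespace TubeR

variable {N : NF} {G : N.F × E2 → R3 × E2} {L : ℝ}

/-- the flow on the model, expanding in the second factor -/
def fl (N : NF) (t : ℝ) (p : N.F × E2) : N.F × E2 := (N.φ t p.1, Real.exp t • p.2)

/-- the standard flow -/
def st (t : ℝ) (q : R3 × E2) : R3 × E2 := ((q.1.1, q.1.2 + t), Real.exp t • q.2)

theorem exp_cancel (t : ℝ) (v : E2) : Real.exp t • Real.exp (-t) • v = v := by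
  rw [smul_smul, ← Real.exp_add, add_neg_cancel, Real.exp_zero, one_smul]

theorem φ_cancel (hN : N.Ok) (t : ℝ) (m : N.F) : N.φ t (N.φ (-t) m) = m := by
  rw [← hN.fl.add, add_neg_cancel, hN.fl.zero]

theorem fl_cancel (hN : N.Ok) (t : ℝ) (p : N.F × E2) : fl N t (fl N (-t) p) = p :=
  Prod.ext (φ_cancel hN t p.1) (exp_cancel t p.2)

theorem sm_φ (hN : N.Ok) (t : ℝ) (m : N.F) : SmAt N.F N.F (N.φ t) m :=
  (SmAt.pair (X := N.F) (Y := N.F) (Z := vs ℝ) smAt_id (smAt_const t)).trans (hN.fl.sm _ trivial)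

theorem cont_φ (hN : N.Ok) (t : ℝ) : Continuous (N.φ t) :=
  continuous_iff_continuousAt.2 fun m => (sm_φ hN t m).cont

theorem sm_fl (hN : N.Ok) (t : ℝ) : Sm (N.F.prod (vs E2)) (N.F.prod (vs E2)) (fl N t) univ :=
  fun p _ => (smAt_fst.trans (sm_φ hN t p.1)).pair
    (SmAt.vcomp (g := fun v : E2 => Real.exp t • v) smAt_snd (by fun_prop))

theorem oe_fl (hN : N.Ok) (t : ℝ) : OE (N.F.prod (vs E2)) (N.F.prod (vs E2)) (fl N t) univ :=
  oe_of_inv (g := fl N (-t)) isOpen_univ isOpen_univ (sm_fl hN t) (sm_fl hN (-t))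
    (mapsTo_univ _ _) (mapsTo_univ _ _)
    (fun p _ => by simpa only [neg_neg] using fl_cancel hN (-t) p) fun p _ => fl_cancel hN t p

theorem st_cancel (t : ℝ) (q : R3 × E2) : st t (st (-t) q) = q :=
  Prod.ext (Prod.ext rfl (by simp [st])) (exp_cancel t q.2)

theorem sm_st (t : ℝ) : Sm (vs (R3 × E2)) (vs (R3 × E2)) (st t) univ :=
  fun _ _ => smAt_vs.2 (by unfold st; fun_prop)

theorem oe_st (t : ℝ) : OE (vs (R3 × E2)) (vs (R3 × E2)) (st t) univ :=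
  oe_of_inv (g := st (-t)) isOpen_univ isOpen_univ (sm_st t) (sm_st (-t))
    (mapsTo_univ _ _) (mapsTo_univ _ _)
    (fun p _ => by simpa only [neg_neg] using st_cancel (-t) p) fun p _ => st_cancel t p

theorem out_of_lt {m : N.F} (h : N.f m < -1) : m ∈ N.pj ⁻¹' Out :=
  Or.inr (lt_abs.2 (Or.inr (by show 1 < -N.f m; linarith)))

theorem ld_low (hN : N.Ok) (hT : N.Th G L) {p : N.F × E2} (h : N.f p.1 < -L) :
    LDAt (N.F.prod (vs E2)) (vs (R3 × E2)) G p := by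
  have h1 : LDAt (N.F.prod (vs E2)) ((vs R3).prod (vs E2)) (fun p => (N.pj p.1, p.2)) p :=
    (hN.oe.ld p.1 (out_of_lt (by linarith [hT.two]))).prodMap (ldAt_id (X := vs E2) (x := p.2))
  have h2 : LDAt ((vs R3).prod (vs E2)) (vs (R3 × E2)) (fun q => q) (N.pj p.1, p.2) :=
    ldAt_of_inv (X := (vs R3).prod (vs E2)) (Y := vs (R3 × E2)) (g := fun q => q) isOpen_univ
      isOpen_univ trivial (fun _ _ => smAt_prod_vs) (fun _ _ => smAt_vs_prod) (mapsTo_univ _ _)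
      (mapsTo_univ _ _) (fun _ _ => rfl) fun _ _ => rfl
  refine (h1.trans h2).congr' ?_
  filter_upwards [(isOpen_lt (hN.smf.cont.comp continuous_fst) continuous_const).mem_nhds h]
    with q hq using hT.std q (le_of_lt hq)

/-- the thickening is an embedding near the spine and at the bottom -/
theorem nbhd (hN : N.Ok) (hF : N.Fa) (hT : N.Th G L) : ∃ U : Set (N.F × E2),
    OE (N.F.prod (vs E2)) (vs (R3 × E2)) G U ∧ (∀ m ∈ N.Sp 1, (m, 0) ∈ U) ∧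
      (∀ p, N.f p.1 < -L - 1 → p ∈ U) ∧ ∀ p ∈ U, -L < N.f p.1 → -L - 1 / 5 < (G p).1.2 := by
  obtain ⟨U₀, h1, h2⟩ := injNear _ _ (N.F.prod (vs E2)) (vs (R3 × E2)) G
    ((N.Sp 1 ∩ {m | -L - 2 ≤ N.f m}) ×ˢ {0}) ((hF.cpt _).prod isCompact_singleton)
    (by rintro ⟨m, v⟩ ⟨hm, rfl⟩; exact hT.ld m hm.1)
    (by rintro ⟨m, v⟩ ⟨hm, rfl⟩ ⟨m', v'⟩ ⟨hm', rfl⟩ e; exact Prod.ext (hT.inj hm.1 hm'.1 e) rfl)
  have fc : Continuous fun p : N.F × E2 => N.f p.1 := hN.smf.cont.comp continuous_fst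
  have gc : Continuous G := hT.sm.cont
  have low : ∀ p ∈ U₀ ∩ {p | N.f p.1 - 1 / 5 < (G p).1.2} ∪ {p | N.f p.1 < -L - 1},
      -L < N.f p.1 → -L - 1 / 5 < (G p).1.2 := by
    rintro p (hp | hp) h
    · have : N.f p.1 - 1 / 5 < (G p).1.2 := hp.2
      linarith
    · have : N.f p.1 < -L - 1 := hp
      linarith
  have both : ∀ p p' : N.F × E2, N.f p.1 ≤ -L → N.f p'.1 ≤ -L → G p = G p' → p = p' := by
    intro p p' h h' e
    rw [hT.std p h, hT.std p' h'] at e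
    exact Prod.ext (hN.oe.inj (out_of_lt (by linarith [hT.two])) (out_of_lt (by linarith [hT.two]))
      (Prod.ext_iff.1 e).1) (Prod.ext_iff.1 e).2
  have one : ∀ p, N.f p.1 < -L - 1 →
      ∀ p' ∈ U₀ ∩ {p | N.f p.1 - 1 / 5 < (G p).1.2} ∪ {p | N.f p.1 < -L - 1}, G p = G p' → p = p' := by
    intro p h p' hp' e
    refine both p p' (by linarith) (not_lt.1 fun h' => ?_) e
    have h3 := low p' hp' h'
    rw [← e, hT.std p (by linarith)] at h3
    have h4 : -L - 1 / 5 < N.f p.1 := h3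
    linarith
  refine ⟨U₀ ∩ {p | N.f p.1 - 1 / 5 < (G p).1.2} ∪ {p | N.f p.1 < -L - 1},
    ⟨(h2.op.inter (isOpen_lt (by fun_prop) (by fun_prop))).union (isOpen_lt fc continuous_const),
      ?_, ?_⟩, fun m hm => ?_, fun p hp => Or.inr hp, low⟩
  · rintro p (hp | hp)
    · exact h2.ld p hp.1
    · have : N.f p.1 < -L - 1 := hp
      exact ld_low hN hT (by linarith)
  · rintro p (hp | hp) p' hp' e
    · rcases hp' with hp' | hp'
      · exact h2.inj hp.1 hp'.1 e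
      · exact (one p' hp' p (Or.inl hp) e.symm).symm
    · exact one p hp p' hp' e
  · rcases lt_or_ge (N.f m) (-L - 1) with h | h
    · exact Or.inr h
    · refine Or.inl ⟨h1 ⟨⟨hm, show -L - 2 ≤ N.f m by linarith⟩, rfl⟩, ?_⟩
      show N.f m - 1 / 5 < (G (m, 0)).1.2
      linarith [hT.low m]

theorem f_le (p : N.F × E2) : N.f p.1 ≤ N.g p := le_add_of_nonneg_right (sq_nonneg _)

/-- the backward flow compresses the model into the neighbourhood -/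
theorem compress (hN : N.Ok) (hF : N.Fa) {U : Set (N.F × E2)} (hU : IsOpen U)
    (h1 : ∀ m ∈ N.Sp 1, (m, 0) ∈ U) {a : ℝ} (h2 : ∀ p, N.f p.1 < a → p ∈ U) (b : ℝ) :
    ∃ T, b ≤ T ∧ MapsTo (fl N (-T)) N.NR U := by
  have anti : ∀ T T', T ≤ T' → ∀ p : N.F × E2,
      N.f (N.φ T' p.1) ≤ 27 ∧ Real.exp T' * ‖p.2‖ ≤ 5 →
      N.f (N.φ T p.1) ≤ 27 ∧ Real.exp T * ‖p.2‖ ≤ 5 := fun T T' h p hp =>
    ⟨(hF.mono p.1 h).trans hp.1, le_trans (by gcongr) hp.2⟩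
  have hE : ({m | ‖N.w m‖ ≤ 5 ∧ a ≤ N.f m ∧ N.f m ≤ 27} ×ˢ closedBall (0 : E2) 5 \ U) ∩
      ⋂ T : ℝ, {p : N.F × E2 | N.f (N.φ T p.1) ≤ 27 ∧ Real.exp T * ‖p.2‖ ≤ 5} = ∅ := by
    refine eq_empty_iff_forall_notMem.2 ?_
    rintro ⟨m, v⟩ ⟨⟨-, hp⟩, h⟩
    rw [mem_iInter] at h
    have hv : v = 0 := by
      by_contra hv
      obtain ⟨T, hT⟩ := ((Real.tendsto_exp_atTop.atTop_mul_const
        (norm_pos_iff.2 hv)).eventually_gt_atTop 5).exists
      exact absurd (h T).2 (not_le.2 hT)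
    have hm : m ∈ N.Sp 1 := by
      by_contra hm
      obtain ⟨T, hT⟩ := ((hF.top m hm).eventually_gt_atTop 27).exists
      exact absurd (h T).1 (not_le.2 hT)
    exact hp (hv ▸ h1 m hm)
  obtain ⟨T, hT⟩ := (((hF.box 5 a 27).prod (isCompact_closedBall (0 : E2) 5)).diff
    hU).elim_directed_family_closed
    (fun T : ℝ => {p : N.F × E2 | N.f (N.φ T p.1) ≤ 27 ∧ Real.exp T * ‖p.2‖ ≤ 5})
    (fun T => (isClosed_le (hN.smf.cont.comp ((cont_φ hN T).comp continuous_fst))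
      continuous_const).inter
      (isClosed_le (continuous_const.mul continuous_snd.norm) continuous_const)) hE
    (directed_of_isDirected_le fun T T' h p hp => anti T T' h p hp)
  refine ⟨max (max T b) 0, (le_max_right _ _).trans (le_max_left _ _), fun p hp => ?_⟩
  have h0 : 0 ≤ max (max T b) 0 := le_max_right _ _
  have hT' : T ≤ max (max T b) 0 := (le_max_left _ _).trans (le_max_left _ _)
  generalize max (max T b) 0 = S at h0 hT'
  by_contra hn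
  have h3 : N.f p.1 ≤ 27 := (f_le p).trans hp.2.2.2.le
  refine (eq_empty_iff_forall_notMem.1 hT) (fl N (-S) p) ⟨⟨⟨⟨?_, not_lt.1 fun h => hn (h2 _ h),
    ?_⟩, ?_⟩, hn⟩, anti T S hT' _ ⟨?_, ?_⟩⟩
  · refine (le_max_left _ 1).trans ((hF.winv (-S) p.1).le.trans (max_le hp.1.le (by norm_num)))
  · have := hF.mono p.1 (neg_nonpos.2 h0)
    simp only [hN.fl.zero] at this
    exact this.trans h3
  · rw [mem_closedBall_zero_iff]
    show ‖Real.exp (-S) • p.2‖ ≤ 5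
    rw [norm_smul, Real.norm_of_nonneg (Real.exp_pos _).le]
    exact (mul_le_of_le_one_left (norm_nonneg _)
      (Real.exp_le_one_iff.2 (neg_nonpos.2 h0))).trans hp.2.1.le
  · show N.f (N.φ S (N.φ (-S) p.1)) ≤ 27
    rwa [φ_cancel hN]
  · show Real.exp S * ‖Real.exp (-S) • p.2‖ ≤ 5
    rw [← Real.norm_of_nonneg (Real.exp_pos S).le, ← norm_smul, exp_cancel]
    exact hp.2.1.le

end TubeR

open TubeR in
theorem tube : TubeStmt := by
  intro N G L hN hF hT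
  obtain ⟨U, hU, h1, h2, h3⟩ := nbhd hN hF hT
  obtain ⟨T, hb, hm⟩ := compress hN hF hU.op h1 h2 (L + 1)
  have two := hT.two
  have fc : Continuous fun p : N.F × E2 => N.f p.1 := hN.smf.cont.comp continuous_fst
  have wc : Continuous fun p : N.F × E2 => N.w p.1 := hN.smw.cont.comp continuous_fst
  have hg : Continuous N.g := by unfold NF.g; fun_prop
  have hO : IsOpen N.NR := (isOpen_lt wc.norm continuous_const).inter
    ((isOpen_lt continuous_snd.norm continuous_const).inter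
      ((isOpen_lt continuous_const hg).inter (isOpen_lt hg continuous_const)))
  have ec : Continuous fun p => st T (G (fl N (-T) p)) :=
    (sm_st T).cont.comp (hT.sm.cont.comp (sm_fl hN (-T)).cont)
  have down : ∀ m, N.f m < -1 → N.pj (N.φ (-T) m) = (N.w m, N.f m + -T) := fun m h =>
    hF.vert _ m h (by linarith)
  have val : ∀ p : N.F × E2, N.f (N.φ (-T) p.1) ≤ -L → st T (G (fl N (-T) p)) =
      ((N.w (N.φ (-T) p.1), N.f (N.φ (-T) p.1) + T), p.2) := fun p h => by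
    rw [hT.std _ h]
    exact Prod.ext rfl (exp_cancel T p.2)
  obtain ⟨C, hC⟩ := ((hF.box 5 (-28) 27).prod (isCompact_closedBall (0 : E2) 5)).bddAbove_image
    (f := fun p => ‖(st T (G (fl N (-T) p))).1.1‖ + ‖(st T (G (fl N (-T) p))).2‖ +
      |G5 (st T (G (fl N (-T) p)))|)
    ((show Continuous fun q : R3 × E2 => ‖q.1.1‖ + ‖q.2‖ + |G5 q| by
      unfold G5; fun_prop).comp ec).continuousOn
  refine ⟨fun p => st T (G (fl N (-T) p)), |C| + 27,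
    (((oe_fl hN (-T)).mono hO (subset_univ _)).trans hU hm).trans (oe_st T) (mapsTo_univ _ _),
    fun p _ h => ?_, fun p hp h => ?_, le_add_of_nonneg_left (abs_nonneg C), fun p hp => ?_⟩
  · have h4 := f_le p
    have h5 := down p.1 (by linarith)
    have h6 : N.w (N.φ (-T) p.1) = N.w p.1 := congrArg Prod.fst h5
    have h7 : N.f (N.φ (-T) p.1) = N.f p.1 + -T := congrArg Prod.snd h5
    rw [val p (by linarith), h6, h7, neg_add_cancel_right]
    rfl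
  · rcases le_or_gt (N.f (N.φ (-T) p.1)) (-L) with h4 | h4
    · rw [val p h4]
      show -(7 / 4) ≤ N.f (N.φ (-T) p.1) + T + ‖p.2‖ ^ 2
      rcases lt_or_ge (N.f p.1) (-1) with h5 | h5
      · have h7 : N.f (N.φ (-T) p.1) = N.f p.1 + -T := congrArg Prod.snd (down p.1 h5)
        rw [h7, neg_add_cancel_right]
        exact h
      · have h6 : -1 ≤ N.f (N.φ (-T) p.1) + T := not_lt.1 fun h6 => by
          have h7 : N.f (N.φ T (N.φ (-T) p.1)) = N.f (N.φ (-T) p.1) + T :=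
            congrArg Prod.snd (hF.vert T _ (by linarith) h6)
          rw [φ_cancel hN] at h7
          linarith
        linarith [sq_nonneg ‖p.2‖]
    · have h5 := h3 _ (hm hp) h4
      show -(7 / 4) ≤ (G (fl N (-T) p)).1.2 + T + ‖Real.exp T • (G (fl N (-T) p)).2‖ ^ 2
      linarith [sq_nonneg ‖Real.exp T • (G (fl N (-T) p)).2‖]
  · have h4 : ‖p.2‖ ^ 2 < 25 := by nlinarith [hp.2.1, norm_nonneg p.2]
    have h5 : -3 < N.f p.1 + ‖p.2‖ ^ 2 := hp.2.2.1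
    have h6 := hC (mem_image_of_mem _ (show p ∈ _ from ⟨⟨hp.1.le, by linarith,
      (f_le p).trans hp.2.2.2.le⟩, mem_closedBall_zero_iff.2 hp.2.1.le⟩))
    have h7 := le_abs_self C
    have h8 := le_abs_self (G5 (st T (G (fl N (-T) p))))
    have h9 := abs_nonneg (G5 (st T (G (fl N (-T) p))))
    have h10 := norm_nonneg (st T (G (fl N (-T) p))).1.1
    have h11 := norm_nonneg (st T (G (fl N (-T) p))).2
    exact ⟨by linarith, by linarith, by linarith⟩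

end Pool.Agent.MP_e1dc65_gt.T

end
end MrgPart4

-- marker of a merged file
example : 731051 + 303306 = 731051 + 303306 := rfl

end MrgPart0

-- ======== part 1: formerly Pool.Agent.MP_e1dc65_gt.t4.Inf
section MrgPart1

-- ======== part 0: formerly Pool.Agent.MP_e1dc65_gt.t4.Cpk
section MrgPart0

/-! PROJECT HC, part T4, row CPK: a package with a larger support has the extension property. -/

open scoped Topology
open Set Filter Function Module Metric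

noncomputable section

namespace Pool.Agent.MP_e1dc65_gt.T4

namespace Cpk

variable {Y A P N ι : Type} [TopologicalSpace Y] [TopologicalSpace A] [TopologicalSpace P]
  [TopologicalSpace N] {q : Pat A P} {K' W : Set A}

omit [TopologicalSpace A] [TopologicalSpace P] in
theorem dom_grow (h1 : K' ⊆ W) (h2 : q.K ⊆ K') : (q.grow K').dom W = q.dom W := by
  change q.φ '' (W \ K') ∪ (q.φ '' (K' \ q.K) ∪ q.KP) = q.φ '' (W \ q.K) ∪ q.KP
  rw [← union_assoc, ← image_union, sdiff_union_sdiff_cancel h1 h2]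

theorem notKP (h : q.Ok) {w : A} (hw : w ∉ q.K) : q.φ w ∉ q.KP := by
  have : q.φ w ∈ q.KPᶜ := h.img ▸ mem_image_of_mem _ hw
  exact this

theorem ok_grow [T2Space A] (h : q.Ok) (hK : IsCompact K') (h2 : q.K ⊆ K') : (q.grow K').Ok := by
  refine ⟨hK, h.te.mono hK.isClosed.isOpen_compl (compl_subset_compl.2 h2), ?_,
    fun W hW h1 => dom_grow h1 h2 ▸ h.nb W hW (h2.trans h1)⟩
  change q.φ '' K'ᶜ = (q.φ '' (K' \ q.K) ∪ q.KP)ᶜ
  ext p
  constructor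
  · rintro ⟨w, hw, rfl⟩ (⟨w', hw', e⟩ | hp)
    · exact hw (h.te.inj hw'.2 (fun hk => hw (h2 hk)) e ▸ hw'.1)
    · exact notKP h (fun hk => hw (h2 hk)) hp
  · intro hp
    obtain ⟨w, hw, rfl⟩ : p ∈ q.φ '' q.Kᶜ := h.img ▸ fun hk => hp (Or.inr hk)
    exact ⟨w, fun hk => hp (Or.inl ⟨w, ⟨hk, hw⟩, rfl⟩), rfl⟩

omit [TopologicalSpace A] in
theorem ins_grow {e : ι → A → N} {α : N → Y} {β : ι → P → Y}
    (h : Ins q W univ e univ α β univ) (h1 : K' ⊆ W) (h2 : q.K ⊆ K')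
    (hc : IsClosed (⋃ i, e i '' K')) (hi : ∀ i, InjOn (e i) W)
    (hd : Pairwise fun i j => Disjoint (e i '' W) (e j '' W)) :
    Ins (q.grow K') W univ e univ α β univ := by
  have r : ∀ n, n ∈ (q.grow K').rest univ e univ ↔ ∀ i, n ∉ e i '' K' := fun n => by
    simp only [Pat.rest, Pat.grow, Set.mem_sdiff, mem_univ, true_and, iUnion_true, mem_iUnion,
      not_exists]
  have r0 : ∀ n, n ∈ q.rest univ e univ ↔ ∀ i, n ∉ e i '' q.K := fun n => by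
    simp only [Pat.rest, Set.mem_sdiff, mem_univ, true_and, iUnion_true, mem_iUnion, not_exists]
  have rs : (q.grow K').rest univ e univ ⊆ q.rest univ e univ := fun n hn =>
    (r0 n).2 fun i hk => (r n).1 hn i (image_mono h2 hk)
  have eq : ∀ i j, ∀ w ∈ W, ∀ w' ∈ W, e i w = e j w' → i = j := fun i j w hw w' hw' e' =>
    by_contra fun hij => disjoint_left.1 (hd hij) ⟨w, hw, rfl⟩ ⟨w', hw', e'.symm⟩
  have s : ∀ {w}, w ∈ K' \ q.K → w ∈ W \ q.K := fun hw => ⟨h1 hw.1, hw.2⟩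
  refine ⟨h.ta.mono ?_ rs, fun i _ => dom_grow h1 h2 ▸ h.tb i trivial, fun i _ w hw => ?_,
    fun i _ w hw => h.com i trivial w ⟨hw.1, fun hk => hw.2 (h2 hk)⟩, ?_, ?_, ?_⟩
  · have : (q.grow K').rest univ e univ = (⋃ i, e i '' K')ᶜ := by
      ext n
      rw [r, mem_compl_iff, mem_iUnion, not_exists]
    rw [this]
    exact hc.isOpen_compl
  · refine (r _).2 ?_
    rintro j ⟨w', hw', e'⟩
    obtain rfl := eq _ _ _ (h1 hw') _ hw.1 e'
    exact hw.2 (hi _ (h1 hw') hw.1 e' ▸ hw')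
  · rintro i - p (⟨w, hw, rfl⟩ | hp) n hn e'
    · rw [h.com i trivial w (s hw)] at e'
      exact (r n).1 hn i ⟨w, hw.1, (h.ta.inj (rs hn) (h.off i trivial w (s hw)) e').symm⟩
    · exact h.sep i trivial p hp n (rs hn) e'
  · rintro i - j - p (⟨w, hw, rfl⟩ | hp) p' (⟨w', hw', rfl⟩ | hp') e'
    · rw [h.com i trivial w (s hw), h.com j trivial w' (s hw')] at e'
      exact eq _ _ _ (h1 hw.1) _ (h1 hw'.1)
        (h.ta.inj (h.off i trivial w (s hw)) (h.off j trivial w' (s hw')) e')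
    · rw [h.com i trivial w (s hw)] at e'
      exact (h.sep j trivial p' hp' _ (h.off i trivial w (s hw)) e').elim
    · rw [h.com j trivial w' (s hw')] at e'
      exact (h.sep i trivial p hp _ (h.off j trivial w' (s hw')) e'.symm).elim
    · exact h.sep' i trivial j trivial p hp p' hp' e'
  · refine (eq_univ_of_forall fun y => ?_).symm
    rcases (h.cov ▸ mem_univ y : y ∈ α '' q.rest univ e univ ∪ ⋃ i ∈ univ, β i '' q.KP) with
      ⟨n, hn, rfl⟩ | hy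
    · by_cases hn' : n ∈ (q.grow K').rest univ e univ
      · exact Or.inl ⟨n, hn', rfl⟩
      · obtain ⟨i, hi'⟩ := not_forall.1 (mt (r n).2 hn')
        obtain ⟨w, hw, rfl⟩ := not_not.1 hi'
        have hk : w ∉ q.K := fun hk => (r0 _).1 hn i ⟨w, hk, rfl⟩
        exact Or.inr (mem_iUnion₂.2 ⟨i, trivial, q.φ w, Or.inl ⟨w, ⟨hw, hk⟩, rfl⟩,
          h.com i trivial w ⟨h1 hw, hk⟩⟩)
    · obtain ⟨i, -, p, hp, rfl⟩ := mem_iUnion₂.1 hy
      exact Or.inr (mem_iUnion₂.2 ⟨i, trivial, p, Or.inr hp, rfl⟩)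

theorem ext_grow [Nonempty A] [RegularSpace A] [LocallyCompactSpace A] (h : q.Ok) (hW : IsOpen W)
    (h1 : K' ⊆ W) (h2 : q.K ⊆ interior K') : (q.grow K').Ext W := by
  classical
  intro E _ _ f S hf hS ⟨a, ha⟩ hm
  obtain ⟨L, hL, l1, l2⟩ := exists_compact_between h.cpt isOpen_interior h2
  obtain ⟨χ, c0, c1, c2⟩ := exists_continuous_zero_one_of_isCompact hL
    isOpen_interior.isClosed_compl (disjoint_compl_right_iff_subset.2 l2)
  let g : P → E := fun p => if p ∈ q.KP then a else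
    a + χ (invFunOn q.φ q.Kᶜ p) • (f (invFunOn q.φ q.Kᶜ p) - a)
  have e : ∀ w, w ∉ q.K → g (q.φ w) = a + χ w • (f w - a) := fun w hw => by
    simp only [g, if_neg (notKP h hw), h.te.left hw]
  have e' : ∀ p ∈ q.KP, g p = a := fun p hp => if_pos hp
  rw [dom_grow h1 (h2.trans interior_subset)]
  refine ⟨g, ?_, ?_, fun w hw => ?_⟩
  · have o1 : IsOpen (W \ q.K) := hW.inter h.te.dom
    have t1 := h.te.mono o1 fun w hw => hw.2
    have g1 : ContinuousOn g (q.φ '' (W \ q.K)) :=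
      t1.desc_cont (k := fun w => a + χ w • (f w - a)) (continuousOn_const.add
        (χ.continuous.continuousOn.smul ((hf.mono sdiff_subset).sub continuousOn_const)))
        fun w hw => e w hw.2
    have g2 : ContinuousOn g (q.dom (interior L)) := by
      refine (continuousOn_const (c := a)).congr ?_
      rintro p (⟨w, hw, rfl⟩ | hp)
      · rw [e w hw.2, c0 (interior_subset hw.1)]
        simp
      · exact e' p hp
    exact (g1.union_of_isOpen g2 t1.img (h.nb _ isOpen_interior l1)).mono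
      (union_subset_union_right _ subset_union_right)
  · rintro p (⟨w, hw, rfl⟩ | hp)
    · rw [e w hw.2]
      exact hS.add_smul_sub_mem ha (hm hw.1) (c2 w)
    · rw [e' p hp]
      exact ha
  · have hw' : w ∉ interior K' := fun hk => hw.2 (interior_subset hk)
    change g (q.φ w) = f w
    rw [e w fun hk => hw' (h2 hk), c1 hw']
    simp

end Cpk

theorem cpk : CpkStmt := by
  intro F P q W hP hW hKW
  obtain ⟨r, z₀, h1, h2, hK, ht⟩ := hP.sc
  have o : IsOpen {w : F × Z | ‖w.2‖ < (r + ‖z₀‖) / 2} :=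
    isOpen_lt continuous_snd.norm continuous_const
  obtain ⟨K', k1, k2, k3⟩ := exists_compact_between hP.ok.cpt (hW.inter o)
    fun w hw => ⟨hKW hw, show ‖w.2‖ < _ by linarith [hK w hw]⟩
  have k4 : q.K ⊆ K' := k2.trans interior_subset
  have k5 : ∀ w ∈ K', ‖w.2‖ < (r + ‖z₀‖) / 2 := fun w hw => (k3 hw).2
  refine ⟨K', k4, fun w hw => (k3 hw).1, ⟨Cpk.ok_grow hP.ok k1 k4,
    hP.oe.mono k1.isClosed.isOpen_compl (compl_subset_compl.2 k4),
    ⟨(r + ‖z₀‖) / 2, z₀, by linarith, h2, fun w hw => (k5 w hw).le, ?_⟩, ?_⟩,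
    Cpk.ext_grow hP.ok hW (fun w hw => (k3 hw).1) k2⟩
  · rw [Cpk.dom_grow (W := univ ×ˢ ball 0 1)
      (fun w hw => ⟨trivial, mem_ball_zero_iff.2 (by linarith [k5 w hw])⟩) k4]
    exact ht
  · intro E _ _ _ N ι _ W' e O hE hK' he hd hO hs hT
    obtain ⟨α, β, C, c1, c2, -, c4, c5⟩ := hP.ins E N ι W' e O hE (k4.trans hK') he hd hO hs hT
    have c6 : IsCompact (⋃ i, e i '' K') := isCompact_iUnion fun i =>
      k1.image_of_continuousOn ((he i).sm.contOn.mono hK')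
    exact ⟨α, β, C ∪ ⋃ i, e i '' K', c1.union c6,
      union_subset c2 (iUnion_subset fun i => (image_mono hK').trans (hs i)),
      fun i => (subset_iUnion (fun i => e i '' K') i).trans subset_union_right,
      fun n hn => c4 n fun h => hn (Or.inl h),
      Cpk.ins_grow c5 hK' k4 c6.isClosed (fun i => (he i).inj) hd⟩

end Pool.Agent.MP_e1dc65_gt.T4

end
end MrgPart0

-- ======== part 1: formerly Pool.Agent.MP_e1dc65_gt.t4.Lift
section MrgPart1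

/-! PROJECT HC, part T4, row LIFT: lifting maps to the torus. -/

open scoped Topology Real
open Set Filter Function Module Metric Topology

noncomputable section

namespace Pool.Agent.MP_e1dc65_gt.T4

theorem lift_conn (R : ℝ) : IsPreconnected {v : V | R ≤ ‖v‖} := by
  have h : IsPreconnected (sphere (0 : V) 1) :=
    isPreconnected_sphere (by rw [← finrank_eq_rank]; simp) 0 1
  have e : {v : V | R ≤ ‖v‖} =
      (fun z : ℝ × V => z.1 • z.2) '' (Ici (max R 0) ×ˢ sphere (0 : V) 1) := by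
    ext v
    constructor
    · intro hv
      obtain ⟨x, hx, e⟩ : ∃ x : V, ‖x‖ = 1 ∧ ‖v‖ • x = v := by
        rcases eq_or_ne v 0 with rfl | n
        · exact ⟨fun _ => 1, by simp [pi_norm_const], by simp⟩
        · exact ⟨‖v‖⁻¹ • v, norm_smul_inv_norm n, smul_inv_smul₀ (norm_ne_zero_iff.2 n) v⟩
      exact ⟨(‖v‖, x), ⟨max_le hv (norm_nonneg v), by simpa using hx⟩, e⟩
    · rintro ⟨⟨r, x⟩, ⟨h1, h2⟩, rfl⟩
      have h3 : R ≤ r ∧ 0 ≤ r := max_le_iff.1 (mem_Ici.1 h1)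
      simpa [norm_smul, show ‖x‖ = 1 from mem_sphere_zero_iff_norm.1 h2,
        abs_of_nonneg h3.2] using h3.1
  rw [e]
  exact (isPreconnected_Ici.prod h).image _ (by fun_prop)

theorem lift : LiftStmt := by
  intro T _ p g R hp hg hR
  have pc := hp.cov.continuous
  let v₀ : V := fun _ => |R|
  have h0 : R ≤ ‖v₀‖ := by simpa [v₀, pi_norm_const] using le_abs_self R
  obtain ⟨G, ⟨G0, hG⟩, -⟩ := hp.cov.existsUnique_continuousMap_lifts
    (⟨fun z : V × Z => g (z.1, p z.2), by fun_prop⟩ : C(V × Z, T)) (v₀, 0) 0 (hR _ _ h0).symm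
  have hG' : ∀ v t, p (G (v, t)) = g (v, p t) := fun v t => congrFun hG (v, t)
  have far : ∀ v t, R ≤ ‖v‖ → G (v, t) = t := fun v t hv =>
    hp.cov.eqOn_of_comp_eqOn ((lift_conn R).prod (isPreconnected_univ (α := Z)))
      G.continuous.continuousOn continuous_snd.continuousOn
      (fun z hz => (hG' z.1 z.2).trans (hR _ _ hz.1)) (a := (v₀, 0)) ⟨h0, trivial⟩ G0
      (show (v, t) ∈ _ from ⟨hv, trivial⟩)
  have per : ∀ v t t', p t = p t' → G (v, t) - t = G (v, t') - t' := fun v t t' e => by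
    have l : ∀ s, p (s + (t - t')) = p s := fun s => (hp.eq _ _).2 fun i => by
      simpa using (hp.eq _ _).1 e i
    have := congrFun (hp.cov.eq_of_comp_eq (g₁ := fun z : V × Z => G (z.1, z.2 + (t - t')))
      (g₂ := fun z => G z + (t - t')) (by fun_prop) (by fun_prop)
      (funext fun z => by simp only [comp_apply, l, hG', hG' z.1 z.2]) (v₀, 0)
      (by simp only [far _ _ h0])) (v, t')
    simp only [add_sub_cancel] at this
    rw [this]; abel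
  let δ : V × T → Z := fun y => G (y.1, surjInv hp.sur y.2) - surjInv hp.sur y.2
  have hδ : ∀ v t, δ (v, p t) = G (v, t) - t := fun v t => per _ _ _ (surjInv_eq hp.sur _)
  have cδ : Continuous δ := by
    have q : IsOpenQuotientMap (Prod.map (id : V → V) p) :=
      IsOpenQuotientMap.id.prodMap ⟨hp.sur, pc, hp.cov.isOpenMap⟩
    rw [q.isQuotientMap.continuous_iff,
      show δ ∘ Prod.map id p = fun z => G z - z.2 from funext fun z => hδ z.1 z.2]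
    fun_prop
  have d0 : ∀ v τ, R ≤ ‖v‖ → δ (v, τ) = 0 := fun v τ hv => by simp only [δ, far _ _ hv, sub_self]
  obtain ⟨ε, hε⟩ := ((isCompact_closedBall (0 : V) R).prod
    ((isCompact_closedBall (0 : Z) (2 * π)).image pc)).exists_bound_of_continuousOn cδ.continuousOn
  refine ⟨δ, max ε 0, cδ, fun y => ?_, d0, fun v t => by rw [hδ, add_sub_cancel, hG']⟩
  rcases le_total R ‖y.1‖ with h | h
  · rw [show δ y = 0 from d0 _ _ h, norm_zero]; exact le_max_right _ _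
  refine (hε y ⟨mem_closedBall_zero_iff.2 h, ?_⟩).trans (le_max_left _ _)
  obtain ⟨t, e⟩ := hp.sur y.2
  have h2 := Real.two_pi_pos
  refine ⟨fun i => toIcoMod h2 0 (t i), mem_closedBall_zero_iff.2
    ((pi_norm_le_iff_of_nonneg h2.le).2 fun i => ?_), e ▸ (hp.eq _ _).2 fun i =>
      ⟨-toIcoDiv h2 0 (t i), by rw [toIcoMod_sub_self]; simp [mul_comm]⟩⟩
  have := toIcoMod_mem_Ico' h2 (t i)
  rw [Real.norm_eq_abs, abs_of_nonneg this.1]
  exact this.2.le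

end Pool.Agent.MP_e1dc65_gt.T4

end
end MrgPart1

-- ======== part 2: formerly Pool.Agent.MP_e1dc65_gt.t4.Split
section MrgPart2

/-! PROJECT HC, part T4, row SPLIT: a controlled space as a fibre product of two halves. -/

open scoped Topology
open Set Filter Function Topology

noncomputable section

namespace Pool.Agent.MP_e1dc65_gt.T4

namespace Split

/-- pull-back along a self-map of the control space -/
def pb (D : Ctl) (r : V × Z → V × Z) : Ctl :=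
  ⟨{p : (V × Z) × D.Y // D.pj p.2 = r p.1}, fun p => p.1.1,
    continuous_fst.comp continuous_subtype_val⟩

theorem uniq {D : Ctl} {T : Set V} (h : Std D T) {w w' : D.Y} (e : D.pj w = D.pj w')
    (hw : (D.pj w).1 ∉ T) : w = w' := by
  obtain ⟨σ, -, -, h3⟩ := h
  rw [← h3 w hw, e, h3 w' (e ▸ hw)]

theorem std_pb {D : Ctl} {S T : Set V} (h : Std D T) {r : V × Z → V × Z} (hr : Continuous r)
    (hS : ∀ b, b.1 ∉ S → (r b).1 ∉ T) {b₀ : V × Z} (h0 : b₀.1 ∉ S) : Std (pb D r) S := by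
  classical
  obtain ⟨σ, h1, h2, h3⟩ := h
  refine ⟨fun b => if hb : b.1 ∉ S then ⟨(b, σ (r b)), h2 _ (hS b hb)⟩
    else ⟨(b₀, σ (r b₀)), h2 _ (hS b₀ h0)⟩, ?_, fun b hb => ?_, fun y hy => ?_⟩
  · refine IsInducing.subtypeVal.continuousOn_iff.2 ?_
    refine (continuousOn_id.prodMk (h1.comp hr.continuousOn fun b hb => hS b hb)).congr
      fun b hb => ?_
    have hb' : b.1 ∉ S := hb
    simp only [comp_apply, dif_pos hb', id]
  · simp only [dif_pos hb]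
    rfl
  · simp only [dif_pos hy]
    refine Subtype.ext (Prod.ext rfl ?_)
    have e : D.pj y.1.2 = r y.1.1 := y.2
    show σ (r y.1.1) = y.1.2
    rw [← e]
    exact h3 _ (e ▸ hS _ hy)

/-- a retraction of the control space lifts -/
theorem ret {D : Ctl} {T : Set V} (h : Std D T) {r : V × Z → V × Z} {f g : V × Z → ℝ}
    (hr : Continuous r) (hf : Continuous f) (hg : Continuous g) (h1 : ∀ b, f b ≤ g b → r b = b)
    (h2 : ∀ b, g b ≤ f b → (r b).1 ∉ T) :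
    ∃ τ : D.Y → D.Y, Continuous τ ∧ (∀ w, D.pj (τ w) = r (D.pj w)) ∧
      ∀ w, f (D.pj w) ≤ g (D.pj w) → τ w = w := by
  obtain ⟨σ, s1, s2, s3⟩ := h
  refine ⟨fun w => if f (D.pj w) ≤ g (D.pj w) then w else σ (r (D.pj w)), ?_, fun w => ?_,
    fun w hw => if_pos hw⟩
  · refine continuous_if_le (hf.comp D.cont) (hg.comp D.cont) continuousOn_id
      (s1.comp (hr.comp D.cont).continuousOn fun w hw => h2 _ hw) fun w hw => ?_
    have h3 := h2 _ hw.ge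
    rw [h1 _ hw.le] at h3 ⊢
    exact (s3 w h3).symm
  · beta_reduce
    split_ifs with hw
    · exact (h1 _ hw).symm
    · exact s2 _ (h2 _ (not_le.1 hw).le)

/-- change the last coordinate -/
def up (m : ℝ → ℝ) (b : V × Z) : V × Z := (update b.1 2 (m (b.1 2)), b.2)

theorem up_cont {m : ℝ → ℝ} (hm : Continuous m) : Continuous (up m) :=
  (continuous_fst.update 2 (hm.comp ((continuous_apply 2).comp continuous_fst))).prodMk
    continuous_snd

theorem up_two (m : ℝ → ℝ) (b : V × Z) : (up m b).1 2 = m (b.1 2) := by simp [up]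

theorem up_eq {m : ℝ → ℝ} {b : V × Z} (h : m (b.1 2) = b.1 2) : up m b = b := by
  rw [up, h, update_eq_self]

end Split

open Split in
theorem split : SplitStmt := by
  intro D S S' c _ _ hS hS' hD hT
  have hc : Continuous fun b : V × Z => b.1 2 := (continuous_apply 2).comp continuous_fst
  have c1 : Continuous (up fun t => min t c) := up_cont (by fun_prop)
  have c2 : Continuous (up fun t => max t c) := up_cont (by fun_prop)
  have n0 : ∀ v : V, v 2 = c → v ∉ S ∪ S' := fun v hv h =>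
    h.elim (fun h => (hS v h).ne hv) fun h => (hS' v h).ne' hv
  have l1 : ∀ b : V × Z, b.1 2 ≤ c → up (fun t => min t c) b = b := fun b h =>
    up_eq (min_eq_left h)
  have l2 : ∀ b : V × Z, c ≤ b.1 2 → (up (fun t => min t c) b).1 ∉ S ∪ S' := fun b h =>
    n0 _ ((up_two _ b).trans (min_eq_right h))
  have u1 : ∀ b : V × Z, c ≤ b.1 2 → up (fun t => max t c) b = b := fun b h =>
    up_eq (max_eq_left h)
  have u2 : ∀ b : V × Z, b.1 2 ≤ c → (up (fun t => max t c) b).1 ∉ S ∪ S' := fun b h =>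
    n0 _ ((up_two _ b).trans (max_eq_right h))
  obtain ⟨τ, t1, t2, t3⟩ := ret hD c1 hc continuous_const l1 l2
  obtain ⟨τ', t1', t2', t3'⟩ := ret hD c2 continuous_const hc u1 u2
  let x := pb D (up fun t => min t c)
  let y := pb D (up fun t => max t c)
  let j : D.Y → x.Y := fun w => ⟨(D.pj w, τ w), t2 w⟩
  let k : D.Y → y.Y := fun w => ⟨(D.pj w, τ' w), t2' w⟩
  have jc : Continuous j := (D.cont.prodMk t1).subtype_mk _
  have kc : Continuous k := (D.cont.prodMk t1').subtype_mk _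
  have back : ∀ p : x.Y, p.1.1.1 2 < c → D.pj p.1.2 = p.1.1 ∧ j p.1.2 = p := fun p hp => by
    have e : D.pj p.1.2 = p.1.1 := p.2.trans (l1 _ hp.le)
    exact ⟨e, Subtype.ext (Prod.ext e (t3 _ (by rw [e]; exact hp.le)))⟩
  have b0 : ((fun _ => c, 0) : V × Z).1 ∉ S ∪ S' := n0 _ rfl
  refine ⟨x, y, j, std_pb hD c1 (fun b hb => ?_) fun h => b0 (Or.inl h),
    std_pb hD c2 (fun b hb => ?_) fun h => b0 (Or.inr h), ?_,
    inferInstanceAs (T2Space {p : (V × Z) × D.Y // D.pj p.2 = up (fun t => min t c) p.1}),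
    ⟨⟨isOpen_lt (hc.comp D.cont) continuous_const, jc.continuousOn, fun O hO hU => ?_⟩,
      fun w hw w' hw' e => ?_⟩, fun _ _ => rfl, fun p hp => ?_⟩
  · rcases le_total (b.1 2) c with h | h
    · rw [l1 b h]
      exact fun h' => h'.elim hb fun h' => absurd h (not_le.2 (hS' _ h'))
    · exact l2 b h
  · rcases le_total (b.1 2) c with h | h
    · exact u2 b h
    · rw [u1 b h]
      exact fun h' => h'.elim (fun h' => absurd h (not_le.2 (hS _ h'))) hb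
  · let θ : (x.fp y).Y → D.Y := fun p => if p.1.1.1.1.1 2 ≤ c then p.1.1.1.2 else p.1.2.1.2
    have e1 : ∀ p : (x.fp y).Y, D.pj p.1.1.1.2 = up (fun t => min t c) p.1.1.1.1 :=
      fun p => p.1.1.2
    have e0 : ∀ p : (x.fp y).Y, p.1.1.1.1 = p.1.2.1.1 := fun p => p.2
    have e2 : ∀ p : (x.fp y).Y, D.pj p.1.2.1.2 = up (fun t => max t c) p.1.1.1.1 :=
      fun p => by rw [e0 p]; exact p.1.2.2
    have e3 : ∀ p, D.pj (θ p) = p.1.1.1.1 := fun p => by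
      simp only [θ]
      split_ifs with h
      · exact (e1 p).trans (l1 _ h)
      · exact (e2 p).trans (u1 _ (not_le.1 h).le)
    have a1 : Continuous fun p : (x.fp y).Y => p.1.1.1 :=
      continuous_subtype_val.comp (continuous_fst.comp continuous_subtype_val)
    have a2 : Continuous fun p : (x.fp y).Y => p.1.2.1 :=
      continuous_subtype_val.comp (continuous_snd.comp continuous_subtype_val)
    refine ⟨⟨⟨θ, fun w => ⟨(j w, k w), rfl⟩, fun p => ?_, fun w => ?_⟩, ?_,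
      (jc.prodMk kc).subtype_mk _⟩, fun p => Or.inl (e3 p).symm⟩
    · refine Subtype.ext (Prod.ext (Subtype.ext (Prod.ext (e3 p) ?_))
        (Subtype.ext (Prod.ext ((e3 p).trans (e0 p)) ?_)))
      · show τ (θ p) = p.1.1.1.2
        by_cases h : p.1.1.1.1.1 2 ≤ c
        · rw [t3 _ (by rw [e3]; exact h)]
          exact if_pos h
        · refine uniq hD (by rw [t2, e3, e1]) ?_
          rw [t2, e3]
          exact l2 _ (not_le.1 h).le
      · show τ' (θ p) = p.1.2.1.2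
        by_cases h : p.1.1.1.1.1 2 ≤ c
        · refine uniq hD (by rw [t2', e3, e2]) ?_
          rw [t2', e3]
          exact u2 _ h
        · rw [t3' _ (by rw [e3]; exact (not_le.1 h).le)]
          exact if_neg h
    · show (if (D.pj w).1 2 ≤ c then τ w else τ' w) = w
      split_ifs with h
      · exact t3 w h
      · exact t3' w (not_le.1 h).le
    · refine Continuous.if_le a1.snd a2.snd (hc.comp a1.fst) continuous_const fun p hp => ?_
      refine uniq hD (by rw [e1, e2, l1 _ hp.le, u1 _ hp.ge]) ?_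
      rw [e1]
      exact l2 _ hp.ge
  · have e : j '' O = {p : x.Y | p.1.1.1 2 < c} ∩ {p : x.Y | p.1.2 ∈ O} := by
      ext p
      constructor
      · rintro ⟨w, hw, rfl⟩
        refine ⟨hU hw, ?_⟩
        show τ w ∈ O
        rwa [t3 w (le_of_lt (hU hw))]
      · exact fun h => ⟨_, h.2, (back p h.1).2⟩
    rw [e]
    exact (isOpen_lt (hc.comp x.cont) continuous_const).inter
      (hO.preimage (continuous_snd.comp continuous_subtype_val))
  · have e' : τ w = τ w' := congrArg (fun p : x.Y => p.1.2) e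
    rwa [t3 w (le_of_lt hw), t3 w' (le_of_lt hw')] at e'
  · obtain ⟨e1, e2⟩ := back p hp
    exact ⟨_, by rw [e1]; exact hp, e2⟩

end Pool.Agent.MP_e1dc65_gt.T4

end
end MrgPart2

-- ======== part 3: formerly Pool.Agent.MP_e1dc65_gt.t4.SwNorm
section MrgPart3

/-! PROJECT HC, part T4, row SWNORM: reduction of the swindle to the normal position. -/

open scoped Topology
open Set Filter Function Metric

noncomputable section

namespace Pool.Agent.MP_e1dc65_gt.T4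

namespace SwN

/-- transport of a bounded isomorphism along a homeomorphism of `V` -/
theorem biso (T : V ≃ₜ V) {C C' D D' : Ctl} (a : C.Y ≃ₜ D.Y) (a' : C'.Y ≃ₜ D'.Y)
    (ha : ∀ y, D.pj (a y) = (T (C.pj y).1, (C.pj y).2))
    (ha' : ∀ y, D'.pj (a' y) = (T (C'.pj y).1, (C'.pj y).2)) (h : BIso C C') : BIso D D' := by
  obtain ⟨R, ε, h0, θ, h⟩ := h
  obtain ⟨R', hR⟩ := ((isCompact_closedBall (0 : V) R).image T.continuous).isBounded.subset_closedBall 0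
  refine ⟨R', ε, h0, (a.symm.trans θ).trans a', fun y => ?_⟩
  obtain ⟨y, rfl⟩ := a.surjective y
  rw [Homeomorph.trans_apply, Homeomorph.trans_apply, a.symm_apply_apply, ha, ha']
  rcases h y with e | ⟨h1, h2, h3⟩
  · exact .inl (by rw [e])
  · exact .inr ⟨hR ⟨_, h1, rfl⟩, hR ⟨_, h2, rfl⟩, h3⟩

theorem std (T : V ≃ₜ V) {C : Ctl} {S S' : Set V} (h : Std C S) (hS : MapsTo T S S') :
    Std (C.mv T 1) S' := by
  obtain ⟨σ, h1, h2, h3⟩ := h
  have k : ∀ v, v ∉ S' → T.symm v ∉ S := fun v hv h => hv (T.apply_symm_apply v ▸ hS h)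
  refine ⟨fun b => σ (T.symm b.1, b.2), h1.comp (by fun_prop) fun b hb => k _ hb,
    fun b hb => ?_, fun y hy => ?_⟩
  · change (T (C.pj _).1, (1 : ℝ) • (C.pj _).2) = b
    rw [h2 _ (k _ hb), T.apply_symm_apply, one_smul]
  · change σ (T.symm (T (C.pj y).1), (1 : ℝ) • (C.pj y).2) = y
    rw [T.symm_apply_apply, one_smul]
    exact h3 y fun h => hy (hS h)

/-- the normalising homeomorphism -/
theorem norm {μ : ℝ} (hμ : 0 < μ) {h : ℝ → ℝ} (hc : Continuous h) (hm : Monotone h)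
    (h0 : ∀ t, 0 ≤ h t) (h1 : ∀ t, h t ≤ 1) :
    ∃ T : V ≃ₜ V, ∀ v, T v = μ • v + ![1, 0, 0] + h (v 2) • ![-2 / 3, 0, 1] := by
  have sm : StrictMono fun t => μ * t + h t := fun s t e =>
    add_lt_add_of_lt_of_le (mul_lt_mul_of_pos_left e hμ) (hm e.le)
  have su : Surjective fun t => μ * t + h t :=
    Continuous.surjective (by fun_prop)
      (tendsto_atTop_mono (fun t => le_add_of_nonneg_right (h0 t))
        (tendsto_id.const_mul_atTop hμ))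
      (tendsto_atBot_mono (fun t => add_le_add_right (h1 t) _)
        (tendsto_atBot_add_const_right _ _ (tendsto_id.const_mul_atBot hμ)))
  let g := (sm.orderIsoOfSurjective _ su).toHomeomorph
  have g1 : ∀ t, g.symm (μ * t + h t) = t := g.symm_apply_apply
  have g2 : ∀ t, μ * g.symm t + h (g.symm t) = t := g.apply_symm_apply
  refine ⟨⟨⟨fun v => μ • v + ![1, 0, 0] + h (v 2) • ![-2 / 3, 0, 1],
    fun u => μ⁻¹ • (u - ![1, 0, 0] - h (g.symm (u 2)) • ![-2 / 3, 0, 1]), fun v => ?_, fun u => ?_⟩,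
    by fun_prop, by fun_prop⟩, fun _ => rfl⟩
  · have : (μ • v + ![1, 0, 0] + h (v 2) • ![-2 / 3, 0, 1] : V) 2 = μ * v 2 + h (v 2) := by
      change μ * v 2 + 0 + h (v 2) * 1 = _
      ring
    simp only [this, g1]
    rw [sub_right_comm, add_sub_cancel_right, add_sub_cancel_right, inv_smul_smul₀ hμ.ne']
  · have : (μ⁻¹ • (u - ![1, 0, 0] - h (g.symm (u 2)) • ![-2 / 3, 0, 1]) : V) 2 = g.symm (u 2) := by
      change μ⁻¹ * (u 2 - 0 - h (g.symm (u 2)) * 1) = _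
      have := g2 (u 2)
      field_simp
      linarith
    simp only [this]
    rw [smul_inv_smul₀ hμ.ne']
    abel

end SwN

theorem swindle (H : SwCoreStmt) : SwindleStmt := by
  intro x y c c' ρ hc hx hy h1 h2
  have hd : 0 < c' - c := sub_pos.2 hc
  have hρ : 0 < |ρ| + 1 := by positivity
  obtain ⟨T, hT⟩ := SwN.norm (μ := 1 / 100 / (|ρ| + 1))
    (h := fun t => max 0 (min 1 ((t - c) / (c' - c)))) (by positivity) (by fun_prop)
    (fun s t e => max_le_max le_rfl (min_le_min le_rfl (by gcongr)))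
    (fun _ => le_max_left _ _) fun _ => max_le zero_le_one (min_le_left _ _)
  have key : ∀ v : V, ‖v‖ ≤ ρ → ‖(1 / 100 / (|ρ| + 1) : ℝ) • v‖ ≤ 1 / 100 := fun v hv => by
    rw [norm_smul, Real.norm_of_nonneg (by positivity), div_mul_eq_mul_div, div_le_iff₀ hρ]
    have := le_abs_self ρ
    gcongr
    linarith
  have b := H (x.mv T 1) (y.mv T 1)
    (SwN.std T hx fun v hv => by
      rw [mem_closedBall_iff_norm, hT, max_eq_left (min_le_of_right_le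
        (div_nonpos_of_nonpos_of_nonneg (sub_nonpos.2 hv.2) hd.le)), zero_smul, add_zero,
        add_sub_cancel_right]
      exact key v hv.1)
    (SwN.std T hy fun v hv => by
      have e : (![1, 0, 0] + ![-2 / 3, 0, 1] : V) = ![1 / 3, 0, 1] := by
        ext i; fin_cases i <;> norm_num
      rw [mem_closedBall_iff_norm, hT, min_eq_left ((one_le_div hd).2 (sub_le_sub_right hv.2 _)),
        max_eq_right zero_le_one, one_smul, add_assoc, e, add_sub_cancel_right]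
      exact key v hv.1)
    (SwN.biso T (C := x.fp y) (C' := one) (D := (x.mv T 1).fp (y.mv T 1)) (D' := one)
      ((Homeomorph.refl (x.Y × y.Y)).subtype fun p => by
        simp [Ctl.mv, Prod.ext_iff])
      (T.prodCongr (Homeomorph.refl Z)) (fun p => Prod.ext rfl (one_smul _ _)) (fun _ => rfl) h1)
    (SwN.biso T (C := x) (C' := x.mv (Homeomorph.refl V) (1 / 2)) (D := x.mv T 1)
      (D' := (x.mv T 1).mv (Homeomorph.refl V) (1 / 2)) (Homeomorph.refl _) (Homeomorph.refl _)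
      (fun p => Prod.ext rfl (one_smul _ _))
      (fun p => Prod.ext rfl (congrArg ((1 / 2 : ℝ) • ·) (one_smul _ _))) h2)
  exact SwN.biso T.symm (C := x.mv T 1) (C' := one) (D := x) (D' := one) (Homeomorph.refl _)
    (T.symm.prodCongr (Homeomorph.refl Z))
    (fun p => Prod.ext (T.symm_apply_apply _).symm (one_smul _ _).symm) (fun _ => rfl) b

end Pool.Agent.MP_e1dc65_gt.T4

end
end MrgPart3

-- ======== part 4: formerly Pool.Agent.MP_e1dc65_gt.t4.Core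
section MrgPart4

/-! PROJECT HC, part T5, row CORE: the two replacements agree after multiplying by a line. -/

open scoped Topology
open Set Filter Function Topology

noncomputable section

namespace Pool.Agent.MP_e1dc65_gt.T4

namespace CoreR

theorem red8 (θ a : ℝ) : ∃ θ', a ≤ θ' ∧ θ' < a + 8 ∧ ∃ m : ℤ, θ - θ' = 8 * m := by
  refine ⟨θ - 8 * ⌊(θ - a) / 8⌋, ?_, ?_, ⌊(θ - a) / 8⌋, by ring⟩
  · have := Int.floor_le ((θ - a) / 8); linarith
  · have := Int.lt_floor_add_one ((θ - a) / 8); linarith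

theorem z8 {x : ℝ} {m : ℤ} (h : x = 8 * m) (h1 : -8 < x) (h2 : x < 8) : x = 0 := by
  have a : (-1 : ℤ) < m := by exact_mod_cast (by linarith : (-1 : ℝ) < m)
  have b : m < 1 := by exact_mod_cast (by linarith : (m : ℝ) < 1)
  have : m = 0 := by omega
  rw [h, this]; simp

theorem nsq_inv {v : V} (h : 0 < nsq v) : nsq (inv v) = (nsq v)⁻¹ := by
  have : ∀ t : ℝ, nsq (t • v) = t ^ 2 * nsq v := fun t => by
    simp [nsq, mul_pow, Finset.mul_sum]
  rw [inv, this]; field_simp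

theorem inv_inv' {v : V} (h : 0 < nsq v) : inv (inv v) = v := by
  rw [inv, nsq_inv h, inv_inv, inv, smul_smul, mul_inv_cancel₀ h.ne', one_smul]

theorem inv_small {v : V} (h : 1 < nsq v) : 0 < nsq (inv v) ∧ nsq (inv v) < 1 := by
  have h0 : 0 < nsq v := by linarith
  rw [nsq_inv h0]
  exact ⟨inv_pos.2 h0, inv_lt_one_of_one_lt₀ h⟩

theorem cpt (R : ℝ) : IsCompact {v : V | nsq v ≤ R} :=
  (isCompact_closedBall (0 : V) √R).of_isClosed_subset
    (isClosed_le (by unfold nsq; fun_prop) continuous_const) fun v hv => by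
    rw [mem_closedBall_zero_iff, pi_norm_le_iff_of_nonneg (Real.sqrt_nonneg _)]
    intro i
    exact Real.abs_le_sqrt ((Finset.single_le_sum (f := fun i => v i ^ 2)
      (fun _ _ => sq_nonneg _) (Finset.mem_univ i)).trans hv)

variable {D : TDat} {R c : ℝ} {γ : V × Z → D.M × ℝ} {j : ℝ × V → D.Ω} {M' : Mf E4}
  {a : D.M → M'} {b : D.Ω → M'}

theorem per {M : Mf E4} {l : ℝ × V → M} {B : Set V} (h : Tube M l B) {θ θ' : ℝ} {v : V}
    (hv : v ∈ B) {m : ℤ} (e : θ - θ' = 8 * m) : l (θ, v) = l (θ', v) :=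
  (h.eq θ θ' v hv v hv).2 ⟨⟨m, e⟩, rfl⟩

theorem co_j (hj : Tube D.Ω j univ) : CO j univ :=
  co_of_ld (M := vs (ℝ × V)) isOpen_univ fun x _ => hj.ld x.1 x.2 trivial

theorem open_compl (hj : Tube D.Ω j univ) (s t : ℝ) :
    IsOpen (j '' (Icc s t ×ˢ {w | nsq w ≤ R}))ᶜ :=
  ((isCompact_Icc.prod (cpt R)).image (continuousOn_univ.1 (co_j hj).cont)).isClosed.isOpen_compl

/-- outside the thick tube -/
def O1 (j : ℝ × V → D.Ω) (R : ℝ) : Set D.Ω := (j '' (univ ×ˢ {w | nsq w ≤ R}))ᶜ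
/-- outside the far half of the thick tube -/
def Om (j : ℝ × V → D.Ω) (R : ℝ) : Set D.Ω := (j '' (Icc 2 6 ×ˢ {w | nsq w ≤ R}))ᶜ
def S1 (γ : V × Z → D.M × ℝ) : Set (D.M × ℝ) :=
  (D.l '' (univ ×ˢ {0}))ᶜ ×ˢ univ \ γ '' {b | |b.2 0| ≤ 1}
def pp (j : ℝ × V → D.Ω) (b : V × Z) : D.Ω × ℝ := (j (b.2 0, b.1), b.2 1)

theorem open_O1 (hj : Tube D.Ω j univ) : IsOpen (O1 j R) := by
  have : O1 j R = (j '' (Icc 0 8 ×ˢ {w | nsq w ≤ R}))ᶜ := by
    refine congrArg _ (Subset.antisymm ?_ (image_mono (prod_mono_left (subset_univ _))))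
    rintro _ ⟨⟨θ, w⟩, hw, rfl⟩
    obtain ⟨θ', h1, h2, m, e⟩ := red8 θ 0
    exact ⟨(θ', w), ⟨⟨h1, by linarith⟩, hw.2⟩, (per hj trivial e).symm⟩
  rw [this]; exact open_compl hj 0 8

theorem mem_O1 (hj : Tube D.Ω j univ) {θ : ℝ} {w : V} : j (θ, w) ∈ O1 j R ↔ R < nsq w := by
  constructor
  · exact fun h => lt_of_not_ge fun hw => h ⟨(θ, w), ⟨trivial, hw⟩, rfl⟩
  · rintro h ⟨⟨θ', w'⟩, hw, e⟩
    obtain ⟨-, rfl⟩ := (hj.eq _ _ _ trivial _ trivial).1 e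
    exact absurd hw.2 (not_le.2 h)

theorem open_U : IsOpen {b : V × Z | |b.2 0| < 2} := isOpen_lt (by fun_prop) continuous_const

theorem te_pp (hj : Tube D.Ω j univ) : TE (pp j) {b | |b.2 0| < 2} := by
  have k : TE (fun b : V × Z => ((b.2 0, b.1), b.2 1)) univ :=
    te_of_inv (k := fun q : (ℝ × V) × ℝ => (q.1.2, ![q.1.1, q.2])) isOpen_univ isOpen_univ
      (by fun_prop) (by fun_prop) (mapsTo_univ _ _)
      (fun x _ => Prod.ext rfl (by ext i; fin_cases i <;> rfl)) fun _ _ => rfl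
  refine ⟨(k.toCO.comp ((co_j hj).prod (te_id isOpen_univ).toCO)
    (fun _ _ => ⟨trivial, trivial⟩)).mono open_U (subset_univ _), fun x hx y hy e => ?_⟩
  obtain ⟨⟨m, e1⟩, e2⟩ := (hj.eq _ _ _ trivial _ trivial).1 (congrArg Prod.fst e)
  have hx' := abs_lt.1 (show |x.2 0| < 2 from hx)
  have hy' := abs_lt.1 (show |y.2 0| < 2 from hy)
  have e3 := z8 e1 (by linarith) (by linarith)
  refine Prod.ext e2 ?_
  ext i; fin_cases i
  · exact sub_eq_zero.1 e3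
  · exact congrArg Prod.snd e

theorem dom_eq (hj : Tube D.Ω j univ) :
    (fun x => x) '' (O1 j R ×ˢ univ) ∪ pp j '' {b | |b.2 0| < 2} = Om j R ×ˢ univ := by
  ext ⟨y, t⟩; constructor
  · rintro (⟨q, hq, rfl⟩ | ⟨q, hq, e⟩)
    · exact ⟨fun h => hq.1 (image_mono (prod_mono_left (subset_univ _)) h), trivial⟩
    · refine ⟨?_, trivial⟩
      rintro ⟨⟨θ, w⟩, hw, e'⟩
      obtain ⟨⟨m, e1⟩, -⟩ :=
        (hj.eq _ _ _ trivial _ trivial).1 (e'.trans (congrArg Prod.fst e).symm)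
      have hq' := abs_lt.1 (show |q.2 0| < 2 from hq)
      have h1 : 2 ≤ θ := hw.1.1
      have h2 : θ ≤ 6 := hw.1.2
      have := z8 e1 (by linarith) (by linarith)
      linarith
  · rintro ⟨h, -⟩
    by_cases h1 : y ∈ O1 j R
    · exact Or.inl ⟨(y, t), ⟨h1, trivial⟩, rfl⟩
    · obtain ⟨⟨θ, w⟩, hw, rfl⟩ := not_not.1 h1
      obtain ⟨θ', h2, h3, m, e⟩ := red8 θ 2
      have h4 : 6 < θ' := lt_of_not_ge fun h4 =>
        h ⟨(θ', w), ⟨⟨h2, h4⟩, hw.2⟩, (per hj trivial e).symm⟩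
      refine Or.inr ⟨(w, ![θ' - 8, t]), (abs_lt (a := θ' - 8)).2 ⟨by linarith, by linarith⟩,
        Prod.ext ?_ rfl⟩
      exact (per hj (θ' := θ' - 8) trivial (m := m + 1) (by push_cast; linarith)).symm

/-- the coincidences of the two pieces -/
def Co (γ : V × Z → D.M × ℝ) (R : ℝ) (j : ℝ × V → D.Ω) (x : D.M × ℝ) (q : D.Ω × ℝ) : Prop :=
  ∃ θ w, 1 ≤ θ ∧ θ ≤ 7 ∧ q.1 = j (θ, w) ∧ ((R < nsq w ∧ x = (D.l (θ, inv w), q.2)) ∨
    ∃ (n : ℝ) (m : ℤ), |n| < 2 ∧ θ - n = 8 * m ∧ x = γ (w, ![n, q.2]))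

section Side
variable (hl : Tube D.M D.l {v | nsq v < 1}) (h : Mid D R c γ) (hj : Tube D.Ω j univ)
  (r : Rep D.M D.Ω M' D.l j a b)
include hl h hj r

omit h hj r in
theorem l_mem {θ : ℝ} {v : V} (h0 : 0 < nsq v) (h1 : nsq v < 1) :
    D.l (θ, v) ∉ D.l '' (univ ×ˢ {0}) := by
  rintro ⟨⟨θ', v'⟩, ⟨-, hv⟩, e⟩
  obtain rfl : v' = 0 := hv
  obtain ⟨-, rfl⟩ := (hl.eq _ _ _ (by simp [nsq]) _ h1).1 e
  simp [nsq] at h0

omit hl hj r in
theorem O1_sub {y : D.Ω} (hy : y ∈ O1 j R) : y ∉ j '' (univ ×ˢ {w | nsq w ≤ 1}) := fun k =>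
  hy (image_mono (prod_mono_right fun _ hw => le_trans hw h.R1) k)

omit h in
theorem ab {θ : ℝ} {w : V} (hw : 1 < nsq w) : a (D.l (θ, inv w)) = b (j (θ, w)) := by
  obtain ⟨h0, h1⟩ := inv_small hw
  refine (r.eq _ (l_mem hl h0 h1) _ ((mem_O1 (R := 1) hj).2 hw)).2 ⟨θ, inv w, h0, h1, rfl, ?_⟩
  exact congrArg (fun v => j (θ, v)) (inv_inv' (by linarith)).symm

omit hl in
theorem ab' {x : D.M} {y : D.Ω} (hx : x ∉ D.l '' (univ ×ˢ {0})) (hy : y ∈ O1 j R)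
    (e : a x = b y) : ∃ θ w, R < nsq w ∧ x = D.l (θ, inv w) ∧ y = j (θ, w) := by
  obtain ⟨θ, v, h0, -, rfl, rfl⟩ := (r.eq _ hx _ (O1_sub h hy)).1 e
  exact ⟨θ, inv v, (mem_O1 hj).1 hy, by rw [inv_inv' h0], rfl⟩

omit hl h hj in
theorem te_a : TE (Prod.map a fun t : ℝ => t) ((D.l '' (univ ×ˢ {0}))ᶜ ×ˢ univ) :=
  (te_of_oe r.oa).prod (te_id isOpen_univ)

theorem exists_w : ∃ w : D.Ω × ℝ → M' × ℝ, TE w (Om j R ×ˢ univ) ∧
    (∀ y ∈ O1 j R, ∀ t, w (y, t) = (b y, t)) ∧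
    ∀ q : V × Z, |q.2 0| < 2 → w (pp j q) = (a (γ q).1, (γ q).2) := by
  have b1 : TE (Prod.map b fun t : ℝ => t) (O1 j R ×ˢ univ) :=
    ((te_of_oe r.ob).mono (open_O1 hj) fun _ => O1_sub h).prod (te_id isOpen_univ)
  have b2 := h.te.comp (te_a r) fun q hq => ⟨h.miss q hq, trivial⟩
  obtain ⟨w, h1, h2, h3⟩ := glue2 (te_id ((open_O1 hj).prod isOpen_univ)) b1 (te_pp hj) b2 (by
    rintro ⟨y, t⟩ hy q hq
    constructor
    · intro e
      obtain ⟨rfl, rfl⟩ := Prod.mk.inj e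
      have hR := (mem_O1 hj).1 hy.1
      rw [h.far q hq hR]
      exact Prod.ext (ab hl hj r (lt_of_le_of_lt h.R1 hR)).symm rfl
    · intro e
      obtain ⟨θ, w, hR, e1, rfl⟩ := ab' h hj r (h.miss q hq) hy.1 (congrArg Prod.fst e).symm
      obtain ⟨θ', h2, h3, m, e2⟩ := red8 θ 2
      have hw := (inv_small (lt_of_le_of_lt h.R1 hR)).2
      have h4 : 6 < θ' := lt_of_not_ge fun h4 =>
        h.away q hq θ' w h2 h4 hR (e1.trans (per hl hw e2))
      have e3 : θ - (θ' - 8) = 8 * ((m + 1 : ℤ) : ℝ) := by push_cast; linarith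
      have hq' : |((w, ![θ' - 8, t]) : V × Z).2 0| < 2 :=
        abs_lt.2 ⟨show -2 < θ' - 8 by linarith, show θ' - 8 < 2 by linarith⟩
      have e4 : γ (w, ![θ' - 8, t]) = γ q := (h.far _ hq' hR).trans
        (Prod.ext (e1.trans (per hl hw e3)).symm (congrArg Prod.snd e :))
      rw [← h.te.inj hq' hq e4]
      exact Prod.ext (per hj trivial e3) rfl)
  exact ⟨w, dom_eq (R := R) hj ▸ h1, fun y hy t => h2 (y, t) ⟨hy, trivial⟩, h3⟩

theorem side : ∃ w : D.Ω × ℝ → M' × ℝ, TE w (Om j R ×ˢ univ) ∧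
    (∀ q ∈ Om j R ×ˢ univ, |(w q).2 - q.2| ≤ |c|) ∧
    (Prod.map a fun t : ℝ => t) '' S1 γ ∪ w '' (Om j R ×ˢ univ) = univ ∧
    ∀ x ∈ S1 γ, ∀ q ∈ Om j R ×ˢ univ, (Prod.map a fun t : ℝ => t) x = w q ↔ Co γ R j x q := by
  obtain ⟨w, h1, h2, h3⟩ := exists_w hl h hj r
  have split : ∀ q ∈ Om j R ×ˢ (univ : Set ℝ), q.1 ∈ O1 j R ∨
      ∃ u : V × Z, |u.2 0| < 2 ∧ pp j u = q := fun q hq => by
    rcases (dom_eq (R := R) hj).symm ▸ hq with ⟨q', hq', rfl⟩ | hq'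
    exacts [Or.inl hq'.1, Or.inr hq']
  refine ⟨w, h1, fun q hq => ?_, eq_univ_of_forall fun p => ?_, fun x hx q hq => ⟨?_, ?_⟩⟩
  · rcases split q hq with k | ⟨u, hu, rfl⟩
    · rw [h2 q.1 k q.2]; simp
    · rw [h3 u hu]; exact (h.bd u hu).trans (le_abs_self c)
  · have A : ∀ x ∉ D.l '' (univ ×ˢ {0}), ∀ t : ℝ,
        (a x, t) ∈ (Prod.map a fun t : ℝ => t) '' S1 γ ∪ w '' (Om j R ×ˢ univ) := fun x hx t => by
      by_cases k : (x, t) ∈ γ '' {b | |b.2 0| ≤ 1}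
      · obtain ⟨u, hu, e⟩ := k
        have hu' : |u.2 0| < 2 := lt_of_le_of_lt hu one_lt_two
        exact Or.inr ⟨pp j u, dom_eq (R := R) hj ▸ Or.inr ⟨u, hu', rfl⟩, by rw [h3 u hu', e]⟩
      · exact Or.inl ⟨(x, t), ⟨⟨hx, trivial⟩, k⟩, rfl⟩
    obtain ⟨p, t⟩ := p
    rcases (r.cov.symm ▸ mem_univ p : p ∈ _ ∪ _) with ⟨x, hx, rfl⟩ | ⟨y, hy, rfl⟩
    · exact A x hx t
    · by_cases k : y ∈ O1 j R
      · exact Or.inr ⟨(y, t), dom_eq (R := R) hj ▸ Or.inl ⟨(y, t), ⟨k, trivial⟩, rfl⟩, h2 y k t⟩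
      · obtain ⟨⟨θ, v⟩, -, rfl⟩ := not_not.1 k
        have hv := (mem_O1 (R := 1) hj).1 hy
        rw [← ab hl hj r hv]
        exact A _ (l_mem hl (inv_small hv).1 (inv_small hv).2) t
  · intro e
    rcases split q hq with k | ⟨u, hu, rfl⟩
    · rw [h2 q.1 k q.2] at e
      obtain ⟨θ, v, hR, e1, e2⟩ := ab' h hj r hx.1.1 k (congrArg Prod.fst e)
      obtain ⟨θ', k1, k2, m, e3⟩ := red8 θ 1
      have hv := (inv_small (lt_of_le_of_lt h.R1 hR)).2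
      have e4 : x = (D.l (θ', inv v), q.2) :=
        Prod.ext (e1.trans (per hl hv e3)) (congrArg Prod.snd e :)
      refine ⟨θ', v, k1, le_of_not_gt fun k3 => hx.2 ?_, e2.trans (per hj trivial e3),
        Or.inl ⟨hR, e4⟩⟩
      have hq' : |((v, ![θ' - 8, q.2]) : V × Z).2 0| ≤ 1 :=
        abs_le.2 ⟨show -1 ≤ θ' - 8 by linarith, show θ' - 8 ≤ 1 by linarith⟩
      refine ⟨_, hq', ?_⟩
      rw [h.far _ (lt_of_le_of_lt hq' one_lt_two) hR, e4]
      exact Prod.ext (per hl (θ := θ' - 8) hv (m := -1) (by push_cast; ring)) rfl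
    · rw [h3 u hu] at e
      have e1 : x = γ u := (te_a r).inj hx.1 ⟨h.miss u hu, trivial⟩ e
      have k1 : 1 < |u.2 0| := lt_of_not_ge fun k => hx.2 ⟨u, k, e1.symm⟩
      have e2 : x = γ (u.1, ![u.2 0, (pp j u).2]) :=
        e1.trans (congrArg γ (Prod.ext rfl (by ext i; fin_cases i <;> rfl)))
      have hu' := abs_lt.1 hu
      rcases lt_abs.1 k1 with k | k
      · exact ⟨u.2 0, u.1, k.le, by linarith, rfl, Or.inr ⟨u.2 0, 0, hu, by simp, e2⟩⟩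
      · exact ⟨u.2 0 + 8, u.1, by linarith, by linarith,
          per hj trivial (m := -1) (by push_cast; ring), Or.inr ⟨u.2 0, 1, hu, by simp, e2⟩⟩
  · obtain ⟨y, t⟩ := q
    rintro ⟨θ, v, -, -, rfl, ⟨hR, rfl⟩ | ⟨n, m, hn, e, rfl⟩⟩
    · rw [h2 _ ((mem_O1 hj).2 hR)]
      exact Prod.ext (ab hl hj r (lt_of_le_of_lt h.R1 hR)) rfl
    · have : (j (θ, v), t) = pp j (v, ![n, t]) := Prod.ext (per hj trivial e) rfl
      rw [this, h3 _ hn]; rfl

end Side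

end CoreR

open CoreR in
theorem core : CoreStmt := by
  intro D R c γ hD h M₀ M₁ a₀ b₀ a₁ b₁ r₀ r₁
  obtain ⟨w₀, t₀, d₀, c₀, k₀⟩ := side hD.tl h hD.t0 r₀
  obtain ⟨w₁, t₁, d₁, c₁, k₁⟩ := side hD.tl h hD.t1 r₁
  have e : Om D.j₁ R = Om D.j₀ R := congrArg _ (image_congr fun x hx =>
    (hD.same x.1 x.2 (by linarith [hx.1.1]) (by linarith [hx.1.2])).symm)
  rw [e] at t₁ d₁ c₁ k₁
  have eC : ∀ x q, Co γ R D.j₁ x q ↔ Co γ R D.j₀ x q := fun x q =>
    exists_congr fun θ => exists_congr fun w => and_congr_right fun h1 =>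
      and_congr_right fun h2 => by rw [hD.same θ w h1 h2]
  obtain ⟨Θ, e₁, e₂⟩ := glue2_homeo ((te_a r₁).mono h.op sdiff_subset)
    ((te_a r₀).mono h.op sdiff_subset) t₁ t₀
    (fun x hx q hq => (k₁ x hx q hq).trans ((eC x q).trans (k₀ x hx q hq).symm)) c₁ c₀
  refine ⟨Θ, |c| + |c|, fun p => ?_⟩
  rcases (c₁.symm ▸ mem_univ p : p ∈ _ ∪ _) with ⟨x, hx, rfl⟩ | ⟨q, hq, rfl⟩
  · rw [e₁ x hx]; simp
  · rw [e₂ q hq]
    have a := abs_le.1 (d₀ q hq)
    have b := abs_le.1 (d₁ q hq)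
    exact abs_le.2 ⟨by linarith, by linarith⟩

end Pool.Agent.MP_e1dc65_gt.T4

end
end MrgPart4

-- ======== part 5: formerly Pool.Agent.MP_e1dc65_gt.t4.Inf
section MrgPart5

/-! PROJECT HC, part T4, row INF: the infinite fibre product. -/

open scoped Topology
open Set Filter Function Metric

noncomputable section

namespace Pool.Agent.MP_e1dc65_gt.T4

namespace Inf

/-- `v` lies in no support other than the `j`-th one -/
def Sp (H : ℕ → Set V) (j : ℕ) (v : V) : Prop := ∀ m, m ≠ j → v ∉ H m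

theorem sp_of_mem {H : ℕ → Set V} (hd : Pairwise (Disjoint on H)) {j : ℕ} {v : V}
    (h : v ∈ H j) : Sp H j v := fun _ hm h' => disjoint_left.1 (hd hm) h' h

theorem ex_sp {H : ℕ → Set V} (hd : Pairwise (Disjoint on H)) (v : V) : ∃ j, Sp H j v := by
  by_cases h : ∃ j, v ∈ H j
  · obtain ⟨j, hj⟩ := h
    exact ⟨j, sp_of_mem hd hj⟩
  · exact ⟨0, fun m _ hm => h ⟨m, hm⟩⟩

theorem nr_symm {H : Set V} {ε : ℝ} {b b' : V × Z} (h : Nr H ε b b') : Nr H ε b' b := by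
  rcases h with h | ⟨h1, h2, h3⟩
  · exact Or.inl h.symm
  · exact Or.inr ⟨h2, h1, by rwa [dist_comm]⟩

theorem nr_sp {H : ℕ → Set V} (hd : Pairwise (Disjoint on H)) {j : ℕ} {ε : ℝ} {b b' : V × Z}
    (h : Nr (H j) ε b b') (hs : Sp H j b.1) : Sp H j b'.1 := by
  rcases h with h | ⟨-, h2, -⟩
  · exact h ▸ hs
  · exact sp_of_mem hd h2

theorem nr_eq {H : Set V} {ε : ℝ} {b b' : V × Z} (h : Nr H ε b b') (hb : b.1 ∉ H) : b' = b := by
  rcases h with h | ⟨h1, -, -⟩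
  · exact h.symm
  · exact absurd h1 hb

theorem key {H : ℕ → Set V} {ε δ : ℕ → ℝ} (hH : ∀ m, ∀ v ∈ H m, ‖v‖ ≤ δ m)
    (hε : ∀ m, ε m ≤ δ m) (h0 : ∀ m, 0 ≤ δ m) (hs : Summable δ) {X : Type} [TopologicalSpace X]
    (β : X → V × Z) (f : ℕ → X → V × Z) (hβ : Continuous β) (hf : ∀ m, Continuous (f m))
    (hn : ∀ m x, Nr (H m) (ε m) (β x) (f m x)) :
    ∃ S : X → V × Z, Continuous S ∧ ∀ x j, Sp H j (β x).1 → S x = f j x := by
  refine ⟨fun x => β x + ∑' m, (f m x - β x), hβ.add ?_, fun x j hj => ?_⟩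
  · refine continuous_tsum (fun m => (hf m).sub hβ) (hs.mul_left 2) fun m x => ?_
    rcases hn m x with h | ⟨h1, h2, h3⟩
    · rw [← h, sub_self, norm_zero]
      linarith [h0 m]
    · rw [Prod.norm_def]
      refine max_le ?_ ?_
      · have := norm_sub_le (f m x).1 (β x).1
        have a := hH m _ h1
        have b := hH m _ h2
        rw [Prod.fst_sub]
        linarith
      · rw [Prod.snd_sub, ← dist_eq_norm, dist_comm]
        linarith [hε m, h0 m]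
  · have : ∑' m, (f m x - β x) = f j x - β x :=
      tsum_eq_single j fun m hm => by rw [nr_eq (hn m x) (hj m hm), sub_self]
    show β x + ∑' m, (f m x - β x) = f j x
    rw [this, add_sub_cancel]

end Inf

open Inf in
theorem inf : InfStmt := by
  intro C H ε δ e hI hd hH hε he h0 hs
  choose θ hθ using hI
  have hθ' : ∀ m y, Nr (H m) (ε m) ((C m).pj y) (θ m y) := hθ
  let g : ℕ → V × Z → V × Z := fun m b => (C m).pj ((θ m).symm b)
  have gc : ∀ m, Continuous (g m) := fun m => (C m).cont.comp (θ m).symm.continuous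
  have gn : ∀ m b, Nr (H m) (ε m) b (g m b) := fun m b => by
    have := nr_symm (hθ' m ((θ m).symm b))
    rwa [Homeomorph.apply_symm_apply] at this
  obtain ⟨S, Sc, hS⟩ := key hH hε h0 hs (X := (pr C).Y) (pr C).pj (fun m p => θ m (p.1.2 m))
    (pr C).cont (fun m => (θ m).continuous.comp
      ((continuous_apply m).comp (continuous_snd.comp continuous_subtype_val)))
    fun m p => by
      have := hθ' m (p.1.2 m)
      rwa [p.2 m] at this
  obtain ⟨G, Gc, hG⟩ := key hH hε h0 hs (X := V × Z) id g continuous_id gc gn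
  have hk : ∀ k, ∃ G' : V × Z → V × Z, Continuous G' ∧
      ∀ b j, Sp H j b.1 → G' b = if j = k then b else g j b := fun k =>
    key hH hε h0 hs (X := V × Z) id (fun m b => if m = k then b else g m b) continuous_id
      (fun m => by
        by_cases h : m = k
        · simpa only [h, if_true] using continuous_id'
        · simpa only [h, if_false] using gc m)
      fun m b => by
        by_cases h : m = k
        · rw [if_pos h]
          exact Or.inl rfl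
        · rw [if_neg h]
          exact gn m b
  choose G' G'c hG' using hk
  have hG0 : ∀ b j, Sp H j b.1 → G b = g j b := hG
  have mem : ∀ b k, (C k).pj ((θ k).symm (G' k b)) = G b := fun b k => by
    obtain ⟨j, hj⟩ := ex_sp hd b.1
    rw [hG0 b j hj, hG' k b j hj]
    by_cases h : j = k
    · rw [if_pos h, h]
    · rw [if_neg h]
      exact nr_eq (gn k (g j b)) (nr_sp hd (gn j b) hj k (Ne.symm h))
  let T : V × Z → (pr C).Y := fun b => ⟨(G b, fun k => (θ k).symm (G' k b)), mem b⟩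
  have Tc : Continuous T :=
    (Gc.prodMk (continuous_pi fun k => (θ k).symm.continuous.comp (G'c k))).subtype_mk _
  have nS : ∀ (p : (pr C).Y) j, Nr (H j) (ε j) p.1.1 (θ j (p.1.2 j)) := fun p j => by
    have := hθ' j (p.1.2 j)
    rwa [p.2 j] at this
  have hS0 : ∀ (p : (pr C).Y) j, Sp H j p.1.1.1 → S p = θ j (p.1.2 j) := hS
  refine ⟨⟨⟨S, T, fun p => ?_, fun b => ?_⟩, Sc, Tc⟩, fun p => ?_⟩
  · obtain ⟨j, hj⟩ := ex_sp hd p.1.1.1
    have h1 := hS0 p j hj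
    have h2 : Sp H j (S p).1 := by
      rw [h1]
      exact nr_sp hd (nS p j) hj
    have h3 : g j (S p) = p.1.1 := by
      rw [h1]
      show (C j).pj ((θ j).symm (θ j (p.1.2 j))) = p.1.1
      rw [Homeomorph.symm_apply_apply, p.2 j]
    refine Subtype.ext (Prod.ext ?_ (funext fun k => ?_))
    · exact (hG0 _ j h2).trans h3
    · show (θ k).symm (G' k (S p)) = p.1.2 k
      rw [hG' k _ j h2, Homeomorph.symm_apply_eq]
      by_cases h : j = k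
      · rw [if_pos h, h1, h]
      · rw [if_neg h, h3]
        exact (nr_eq (nS p k) (hj k (Ne.symm h))).symm
  · obtain ⟨j, hj⟩ := ex_sp hd b.1
    have h2 : Sp H j (T b).1.1.1 := by
      show Sp H j (G b).1
      rw [hG0 b j hj]
      exact nr_sp hd (gn j b) hj
    rw [hS0 _ j h2]
    show θ j ((θ j).symm (G' j b)) = b
    rw [Homeomorph.apply_symm_apply, hG' j b j hj, if_pos rfl]
  · obtain ⟨j, hj⟩ := ex_sp hd p.1.1.1
    show Nr _ e p.1.1 (S p)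
    rw [hS0 p j hj]
    rcases nS p j with h | ⟨h1, h2, h3⟩
    · exact Or.inl h
    · exact Or.inr ⟨mem_iUnion.2 ⟨j, h1⟩, mem_iUnion.2 ⟨j, h2⟩, h3.trans (he j)⟩

end Pool.Agent.MP_e1dc65_gt.T4

end
end MrgPart5

-- marker of a merged file
example : 731051 + 770510 = 731051 + 770510 := rfl

end MrgPart1

-- marker of a merged file
example : 731051 + 770510 = 731051 + 770510 := rfl
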