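import Pool.Agent.MP_e1dc65_gt.fm.Hza
import Pool.Agent.MP_e1dc65_gt.t2.Disc
import Pool.Agent.MP_e1dc65_gt.k.Hol
import Pool.Agent.MP_e1dc65_gt.k.CechA
import Pool.Agent.MP_e1dc65_gt.o.Flat
import Pool.Agent.MP_e1dc65_gt.k.Etale
import Pool.Agent.MP_e1dc65_gt.t4.Inf
import Mathlib.Topology.Order.MonotoneContinuity
import Mathlib.Topology.Algebra.ConstMulAction
import Mathlib.Analysis.Normed.Module.Connected
import Mathlib.Analysis.Real.Pi.Bounds
import Mathlib.Data.Pi.Interval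
import Mathlib.Data.Int.Interval
import Pool.Agent.MP_e1dc65_gt.t.T23

-- ======== part 0: formerly Pool.Agent.MP_e1dc65_gt.fm.Ori
section MrgPart0

/-! PROJECT HC, row ORI: calculus of orientations. -/

open scoped ContDiff Manifold Topology
open Set Filter Function Module ExteriorAlgebra Pool.Agent.MP_c8d41b_gt.GF

set_option linter.unusedSectionVars false

noncomputable section

namespace Pool.Agent.MP_e1dc65_gt

variable {E E' V : Type} [NormedAddCommGroup E] [NormedSpace ℝ E] [FiniteDimensional ℝ E]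
  [NormedAddCommGroup E'] [NormedSpace ℝ E'] [FiniteDimensional ℝ E']
  [NormedAddCommGroup V] [NormedSpace ℝ V] {N : ℕ}

/-! ### The coefficient of a top form -/

section Alg
variable {a b c : Lam E}

theorem ev_fin_ne (hd : finrank ℝ E = N) (ha : a ∈ dg E N) (h0 : a ≠ 0) :
    ev (List.ofFn (finBasis ℝ E)) a ≠ 0 := by
  subst hd; exact ev_basis_ne _ ha h0

theorem cf_self (hd : finrank ℝ E = N) (ha : a ∈ dg E N) (h0 : a ≠ 0) : cf a a = 1 :=
  div_self (ev_fin_ne hd ha h0)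

theorem cf_trans (hd : finrank ℝ E = N) (hb : b ∈ dg E N) (h0 : b ≠ 0) (a c : Lam E) :
    cf a b * cf b c = cf a c := by
  rw [cf, cf, cf, mul_comm, div_mul_div_cancel₀ (ev_fin_ne hd hb h0)]

theorem cf_ne (hd : finrank ℝ E = N) (ha : a ∈ dg E N) (h0 : a ≠ 0) (hb : b ∈ dg E N)
    (h1 : b ≠ 0) : cf a b ≠ 0 := div_ne_zero (ev_fin_ne hd hb h1) (ev_fin_ne hd ha h0)

theorem cf_inv (a b : Lam E) : (cf a b)⁻¹ = cf b a := inv_div _ _
theorem cf_pos_symm (h : 0 < cf a b) : 0 < cf b a := cf_inv a b ▸ inv_pos.2 h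
theorem cf_pos_trans (h : 0 < cf a b) (h' : 0 < cf b c) : 0 < cf a c := by
  have := mul_pos h' h
  rwa [cf, cf, div_mul_div_cancel₀ (div_ne_zero_iff.1 h.ne').1] at this

theorem cf_zero (a : Lam E) : cf a 0 = 0 := by rw [cf, ev_zero, zero_div]
theorem ne_of_cf_pos (h : 0 < cf a b) : b ≠ 0 := fun e => h.ne' (e ▸ cf_zero a)
theorem cf_add (a b c : Lam E) : cf a (b + c) = cf a b + cf a c := by rw [cf, ev_add, add_div]; rfl
theorem cf_sub (a b c : Lam E) : cf a (b - c) = cf a b - cf a c := by rw [cf, ev_sub, sub_div]; rfl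
theorem cf_neg (a b : Lam E) : cf a (-b) = -cf a b := by rw [cf, ev_neg, neg_div]; rfl
theorem cf_neg_left (a b : Lam E) : cf (-a) b = -cf a b := by rw [cf, ev_neg, div_neg]; rfl
theorem cf_smul (r : ℝ) (a b : Lam E) : cf a (r • b) = r * cf a b := by
  rw [cf, ev_smul, mul_div_assoc]; rfl
theorem cf_smul_left (r : ℝ) (a b : Lam E) : cf (r • a) b = r⁻¹ * cf a b := by
  rw [← cf_inv, cf_smul, mul_inv, cf_inv]
theorem cf_sum {I : Type} (s : Finset I) (a : Lam E) (f : I → Lam E) :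
    cf a (∑ i ∈ s, f i) = ∑ i ∈ s, cf a (f i) := by
  simp only [cf, ev_eq, map_sum, Finset.sum_div]

/-- top forms are proportional -/
theorem eq_cf_smul (hd : finrank ℝ E = N) (ha : a ∈ dg E N) (h0 : a ≠ 0) (hb : b ∈ dg E N) :
    b = cf a b • a := sub_eq_zero.1 (by_contra fun h =>
  ev_fin_ne hd (sub_mem hb (Submodule.smul_mem _ _ ha)) h (by
    rw [ev_sub, ev_smul, cf, div_mul_cancel₀ _ (ev_fin_ne hd ha h0), sub_self]))

/-- the coefficient can be computed in any basis -/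
theorem cf_basis (e : Basis (Fin N) ℝ E) (a b : Lam E) :
    cf a b = ev (List.ofFn e) b / ev (List.ofFn e) a := by
  obtain rfl : N = finrank ℝ E := by simpa using (finrank_eq_card_basis e).symm
  let L := ((finBasis ℝ E).equiv e (Equiv.refl _)).toContinuousLinearEquiv
  have k : ∀ a, ev (List.ofFn e) a = (L : E →L[ℝ] E).det * ev (List.ofFn (finBasis ℝ E)) a :=
    fun a => by
      rw [← ev_mp_det, ev_mp, List.map_ofFn]
      congr 2
      funext i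
      simp [L]
  rw [k, k]
  exact (mul_div_mul_left _ _ (LinearEquiv.isUnit_det' L.toLinearEquiv).ne_zero).symm

theorem cf_mp {L : E' →L[ℝ] E} (hL : L.IsInvertible) (a b : Lam E) :
    cf (mp L a) (mp L b) = cf a b := by
  obtain ⟨L, rfl⟩ := hL
  rw [cf_basis ((finBasis ℝ E').map L.toLinearEquiv) a b, cf, ev_mp, ev_mp, List.map_ofFn]
  rfl

theorem PosB.of_cf {e : Fin N → V} {Θ : E →L[ℝ] V} {n : ℕ} (h : PosB e a Θ)
    (hd : finrank ℝ E = n) (ha : a ∈ dg E n) (hb : b ∈ dg E n) (hc : 0 < cf a b) : PosB e b Θ := by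
  rw [eq_cf_smul hd ha (ne_of_cf_pos (cf_pos_symm hc)) hb]
  exact (posB_smul hc).2 h

theorem exists_top (hd : finrank ℝ E = N) : ∃ a ∈ dg E N, a ≠ 0 := by
  subst hd
  refine ⟨_, dg_prod fun i => LinearMap.toContinuousLinearMap ((finBasis ℝ E).coord i), fun h => ?_⟩
  have := ev_prod (fun i => LinearMap.toContinuousLinearMap ((finBasis ℝ E).coord i)) (finBasis ℝ E)
    (fun i j => by simp [Finsupp.single_apply, eq_comm]) (a := 1) (fun _ => ctr_one _) []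
  simp [h, ev] at this

/-- the inverse of `oc` on top forms -/
def unOc (w : Lam (E × ℝ)) : Lam E := inv (mp (ContinuousLinearMap.inl ℝ E ℝ) (ctr (0, 1) w))

theorem unOc_oc (a : Lam E) : unOc (oc a) = a := by
  rw [unOc, oc, ctr_mul, ctr_mp, ctr_ι, inv_mp]
  simp [ctr_zero_left, ← mp_comp, inv_mp, mp_id]

theorem unOc_smul (r : ℝ) (w : Lam (E × ℝ)) : unOc (r • w) = r • unOc w := by
  simp only [unOc, map_smul]
theorem oc_smul (r : ℝ) (a : Lam E) : oc (r • a) = r • oc a := by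
  simp only [oc, map_smul, smul_mul_assoc]
theorem oc_zero : oc (0 : Lam E) = 0 := by simp only [oc, map_zero, zero_mul]
theorem oc_neg (a : Lam E) : oc (-a) = -oc a := by simp only [oc, map_neg, neg_mul]
theorem oc_ne (h : a ≠ 0) : oc a ≠ 0 := fun e => h (by
  rw [← unOc_oc a, e, unOc, map_zero, map_zero, map_zero])
theorem oc_dg (h : a ∈ dg E N) : oc a ∈ dg (E × ℝ) (N + 1) := dg_mul (dg_mp _ h) (dg_ι _)
theorem finrank_cyl : finrank ℝ (E × ℝ) = finrank ℝ E + 1 := by simp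

theorem oc_unOc (hd : finrank ℝ E = N) {w : Lam (E × ℝ)} (hw : w ∈ dg (E × ℝ) (N + 1)) :
    oc (unOc w) = w := by
  obtain ⟨a, ha, h0⟩ := exists_top hd
  rw [eq_cf_smul (hd ▸ finrank_cyl) (oc_dg ha) (oc_ne h0) hw, unOc_smul, unOc_oc, oc_smul]

theorem cf_oc (hd : finrank ℝ E = N) (ha : a ∈ dg E N) (h0 : a ≠ 0) (hb : b ∈ dg E N) :
    cf (oc a) (oc b) = cf a b := by
  conv_lhs => rw [eq_cf_smul hd ha h0 hb, oc_smul, cf_smul,
    cf_self (hd ▸ finrank_cyl) (oc_dg ha) (oc_ne h0), mul_one]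

end Alg

/-! ### Orientations of manifolds -/

variable {X : Mf E} {Y : Mf E'} {x : X} {o o' α : X → Lam E} {U : Set X}

theorem cf_pbM {f : X → Y} (hf : LDAt X Y f x) (a b : Y → Lam E') :
    cf (pbM X Y f a x) (pbM X Y f b x) = cf (a (f x)) (b (f x)) := cf_mp hf.inv _ _

theorem Ori.cf_self (h : Ori X N o U) (hx : x ∈ U) : cf (o x) (o x) = 1 :=
  MP_e1dc65_gt.cf_self h.dim (h.fm x hx).2 (h.ne x hx)

theorem Ori.cf_ne {U' : Set X} (h : Ori X N o U) (h' : Ori X N o' U') (hx : x ∈ U) (hx' : x ∈ U') :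
    cf (o x) (o' x) ≠ 0 :=
  MP_e1dc65_gt.cf_ne h.dim (h.fm x hx).2 (h.ne x hx) (h'.fm x hx').2 (h'.ne x hx')

theorem Ori.cf_trans (h : Ori X N o U) (hx : x ∈ U) (a c : Lam E) :
    cf a (o x) * cf (o x) c = cf a c := MP_e1dc65_gt.cf_trans h.dim (h.fm x hx).2 (h.ne x hx) a c

theorem Ori.smAt_cf (h : Ori X N o U) (hx : x ∈ U) (hα : FmAt X α x) :
    SmAt X (vs ℝ) (fun y => cf (o y) (α y)) x := by
  refine smAt_iff_loc.2 (((cda_lin (evL (List.ofFn (finBasis ℝ E))) hα).div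
    (cda_lin (evL (List.ofFn (finBasis ℝ E))) (h.fm x hx).1) ?_).congr_of_eventuallyEq ?_)
  · rw [← ev_eq, show pbM (vs E) X (ch X x).symm o (ch X x x) = o x from loc_self o]
    exact ev_fin_ne h.dim (h.fm x hx).2 (h.ne x hx)
  · filter_upwards [(ch X x).open_target.mem_nhds (mem_chart_target E x)] with y hy
    rw [← cf_pbM (ldAt_ch_symm hy), cf, ev_eq, ev_eq]
    rfl

/-- contraction with a smooth vector field -/
theorem FmAt.ctr {v : X → E} (h : FmAt X α x) (hv : VfAt X v x) :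
    FmAt X (fun y => ctr (v y) (α y)) x := by
  refine (cda_ctr hv h).congr_of_eventuallyEq ?_
  filter_upwards [(ch X x).open_target.mem_nhds (mem_chart_target E x)] with y hy
  have h1 := (ch X x).map_target hy
  have h2 := Df_comp (X := X) (Y := vs E) (Z := X) (smAt_ch h1)
    (smAt_ch_symm ((ch X x).map_source h1))
  rw [Df_congr (f' := fun x => x) ((ch X x).eventually_left_inverse h1), Df_id,
    (ch X x).right_inv hy] at h2
  rw [pbM, pbM, ctr_mp, ← ContinuousLinearMap.comp_apply, ← h2]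
  rfl

theorem oc_eq (o : X → Lam E) (p : X.cyl) :
    oc (o p.1) = pbM X.cyl X Prod.fst o p * dF X.cyl Prod.snd p := by
  rw [pbM, dF, Df_fst, Df_snd (X := X) (Y := vs ℝ), oc]

theorem Ori.cyl (h : Ori X N o U) : Ori X.cyl (N + 1) (fun p => oc (o p.1)) (U ×ˢ univ) :=
  ⟨h.dim ▸ finrank_cyl, funext (oc_eq o) ▸ (h.fm.pb (fun _ _ => smAt_fst) fun _ hp => hp.1).mul
    (cl_dF fun _ _ => smAt_snd (X := X) (Y := vs ℝ)).1, fun _ hp => oc_ne (h.ne _ hp.1)⟩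

theorem smAt_slice (t : ℝ) : SmAt X X.cyl (fun x => (x, t)) x :=
  SmAt.pair (Y := X) (Z := vs ℝ) smAt_id (smAt_const (Y := vs ℝ) t)

theorem Df_slice (t : ℝ) : Df X X.cyl (fun x => (x, t)) x = ContinuousLinearMap.inl ℝ E ℝ := by
  have := Df_pair (X := X) (Y := X) (Z := vs ℝ) (x := x) smAt_id (smAt_const (Y := vs ℝ) t)
  rw [Df_id, Df_const] at this
  exact this

theorem Ori.slice {o : X.cyl → Lam (E × ℝ)} {O : Set X.cyl} (h : Ori X.cyl (N + 1) o O) (t : ℝ)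
    (hU : ∀ x ∈ U, (x, t) ∈ O) : Ori X N (fun x => unOc (o (x, t))) U ∧
      ∀ x ∈ U, oc (unOc (o (x, t))) = o (x, t) := by
  have hd : finrank ℝ E = N := Nat.succ_injective (finrank_cyl.symm.trans h.dim)
  have k : ∀ x ∈ U, oc (unOc (o (x, t))) = o (x, t) := fun x hx =>
    oc_unOc hd (h.fm _ (hU x hx)).2
  refine ⟨⟨hd, fun x hx => ⟨?_, ?_⟩, fun x hx e => h.ne _ (hU x hx) (by rw [← k x hx, e, oc_zero])⟩, k⟩
  · have k1 : FmAt X.cyl (fun p => ctr ((0, 1) : E × ℝ) (o p)) (x, t) :=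
      FmAt.ctr (v := fun _ => (0, 1)) (h.fm _ (hU x hx)).1 vfAt_dt
    refine (FmAt.pb (X := X) (Y := X.cyl) (f := fun x => (x, t)) k1 (smAt_slice t)).inv.congr'
      (Eventually.of_forall fun y => ?_)
    simp only [pbM, Df_slice, unOc]
  · have := dg_mp (ContinuousLinearMap.inl ℝ E ℝ) (dg_ctr (0, 1) (h.fm _ (hU x hx)).2).1
    rw [unOc, inv_dg this]
    exact Submodule.smul_mem _ _ this

theorem Ori.sign (h : Ori X N o U) (h' : Ori X N o' U) (hU : IsPreconnected U) :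
    (∀ x ∈ U, 0 < cf (o x) (o' x)) ∨ ∀ x ∈ U, 0 < cf (o x) (-o' x) := by
  by_contra c
  simp only [not_or, not_forall, not_lt, cf_neg, neg_nonpos] at c
  obtain ⟨⟨x, hx, h1⟩, y, hy, h2⟩ := c
  obtain ⟨z, hz, e⟩ := hU.intermediate_value hx hy (f := fun y => cf (o y) (o' y))
    (fun z hz => (h.smAt_cf hz (h'.fm z hz).1).cont.continuousWithinAt) ⟨h1, h2⟩
  exact h.cf_ne h' hz hz e

theorem ori_glue {ι : Type} {U : ι → Set X} {o : ι → X → Lam E} (hd : finrank ℝ E = N)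
    (hU : ∀ i, IsOpen (U i)) (h : ∀ i, Ori X N (o i) (U i))
    (hp : ∀ i j, ∀ x ∈ U i ∩ U j, 0 < cf (o i x) (o j x)) :
    ∃ o', Ori X N o' (⋃ i, U i) ∧ ∀ i, ∀ x ∈ U i, 0 < cf (o i x) (o' x) := by
  obtain ⟨ρ, r1, r2, r3, r4, r5⟩ := (bumpM E X).2 ι U _ (isOpen_iUnion hU) hU fun x => mem_iUnion.1
  have k : ∀ x ∈ ⋃ i, U i, ∃ s : Finset ι, ∑ i ∈ s, ρ i x = 1 ∧
      ∀ᶠ y in 𝓝 x, ∑ᶠ i, ρ i y • o i y = ∑ i ∈ s, ρ i y • o i y := fun x hx => by
    obtain ⟨O, s, hO, h0⟩ := r4 x hx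
    refine ⟨s, ?_, mem_of_superset hO fun y hy => finsum_eq_sum_of_support_subset _ fun i hi =>
      by_contra fun c => hi (by simp only [h0 i c y hy, zero_smul])⟩
    rw [← r5 x hx]
    exact (finsum_eq_sum_of_support_subset _ fun i hi =>
      by_contra fun c => hi (h0 i c x (mem_of_mem_nhds hO))).symm
  have k2 : ∀ j, ∀ x ∈ U j, 0 < cf (o j x) (∑ᶠ i, ρ i x • o i x) := fun j x hx => by
    have hx' := mem_iUnion.2 ⟨j, hx⟩
    obtain ⟨s, h1, h2⟩ := k x hx'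
    obtain ⟨i, hi, h3⟩ := Finset.exists_ne_zero_of_sum_ne_zero (h1.trans_ne one_ne_zero)
    have m : ∀ i, ρ i x ≠ 0 → 0 < ρ i x * cf (o j x) (o i x) := fun i hi =>
      mul_pos ((r2 i x).lt_of_ne' hi)
        (hp j i x ⟨hx, by_contra fun c => hi (r3 i x hx' c).eq_of_nhds⟩)
    simp only [h2.self_of_nhds, cf_sum, cf_smul]
    refine Finset.sum_pos' (fun i _ => ?_) ⟨i, hi, m i h3⟩
    by_cases c : ρ i x = 0
    · rw [c, zero_mul]
    · exact (m i c).le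
  refine ⟨fun x => ∑ᶠ i, ρ i x • o i x, ⟨hd, fun x hx => ?_, fun x hx =>
    let ⟨j, hj⟩ := mem_iUnion.1 hx; ne_of_cf_pos (k2 j x hj)⟩, k2⟩
  obtain ⟨s, -, h2⟩ := k x hx
  refine ⟨(fmAt_sum fun i _ => ?_).congr' h2, ?_⟩
  · by_cases c : x ∈ U i
    · exact ((h i).fm x c).1.fsmul (r1 i x hx)
    · exact fmAt_of_ev ((r3 i x hx c).mono fun y hy => by rw [hy, Pi.zero_apply, zero_smul])
  · simp only [h2.self_of_nhds]
    refine sum_mem fun i _ => ?_
    by_cases c : x ∈ U i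
    · exact Submodule.smul_mem _ _ ((h i).fm x c).2
    · rw [(r3 i x hx c).eq_of_nhds, Pi.zero_apply, zero_smul]; exact zero_mem _

/-- every point has an oriented neighbourhood -/
theorem exists_ori_ch (hd : finrank ℝ E = N) (x : X) : ∃ o, Ori X N o (ch X x).source := by
  obtain ⟨a, ha, h0⟩ := exists_top hd
  exact ⟨_, Ori.pb (Y := vs E) (o := fun _ => a) (W := univ)
    ⟨hd, fun _ _ => ⟨fmAt_vs.2 contDiffAt_const, ha⟩, fun _ _ => h0⟩ hd (fun _ => ldAt_ch)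
    (mapsTo_univ _ _)⟩

namespace OriP

/-- the sign of a real number -/
def sg (r : ℝ) : ℤˣ := if 0 < r then 1 else -1

theorem sg_pos {r : ℝ} (h : 0 < r) : sg r = 1 := if_pos h
theorem sg_neg {r : ℝ} (h : r < 0) : sg r = -1 := if_neg h.not_gt

theorem sg_mul {r s : ℝ} (h : r ≠ 0) (h' : s ≠ 0) : sg r * sg s = sg (r * s) := by
  rcases h.lt_or_gt with h | h <;> rcases h'.lt_or_gt with h' | h'
  · rw [sg_neg h, sg_neg h', sg_pos (mul_pos_of_neg_of_neg h h')]; rfl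
  · rw [sg_neg h, sg_pos h', sg_neg (mul_neg_of_neg_of_pos h h')]; rfl
  · rw [sg_pos h, sg_neg h', sg_neg (mul_neg_of_pos_of_neg h h')]; rfl
  · rw [sg_pos h, sg_pos h', sg_pos (mul_pos h h')]; rfl

theorem sg_ev {T : Type} [TopologicalSpace T] {f : T → ℝ} {x : T} (hf : ContinuousAt f x)
    (h : f x ≠ 0) : ∀ᶠ y in 𝓝 x, sg (f y) = sg (f x) := by
  rcases h.lt_or_gt with h | h
  · exact (hf.eventually (gt_mem_nhds h)).mono fun y hy => by rw [sg_neg h, sg_neg hy]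
  · exact (hf.eventually (lt_mem_nhds h)).mono fun y hy => by rw [sg_pos h, sg_pos hy]

theorem sg_fix {r : ℝ} (h : r ≠ 0) (u : ℤˣ) :
    0 < (((sg r * u : ℤˣ) : ℤ) : ℝ)⁻¹ * ((((u : ℤ) : ℝ)) * r) := by
  rcases h.lt_or_gt with h | h <;> rcases Int.units_eq_one_or u with rfl | rfl
  all_goals simp [sg, h, h.not_gt]

end OriP

open OriP in
/-- a manifold is oriented as soon as the sign holonomy of an oriented cover is trivial -/
theorem ori_of_triv {ι : Type} {U : ι → Set X} {o : ι → X → Lam E} (hd : finrank ℝ E = N)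
    (hU : ∀ i, IsOpen (U i)) (hc : ∀ x, ∃ i, x ∈ U i) (h : ∀ i, Ori X N (o i) (U i))
    (ht : ∀ τ : ∀ x y : X, Path x y → ℤˣ, Hol univ τ → (∀ i, Triv τ (U i)) → Triv τ univ) :
    ∃ o', Ori X N o' univ := by
  obtain ⟨τ, s, h1, h2, h3⟩ := cech X ℤˣ ι univ U (fun i j x => sg (cf (o i x) (o j x))) hU
    (fun x _ => hc x) (fun i j x hx => mem_nhdsWithin_of_mem_nhds (sg_ev
      ((h i).smAt_cf hx.1.2 ((h j).fm x hx.2).1).cont ((h i).cf_ne (h j) hx.1.2 hx.2)))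
    fun i j k x hx => by
      rw [sg_mul ((h i).cf_ne (h j) hx.1.1.2 hx.1.2) ((h j).cf_ne (h k) hx.1.2 hx.2),
        (h j).cf_trans hx.1.2]
  simp only [univ_inter] at h2 h3
  obtain ⟨σ, hσ⟩ := ht τ h1 fun i => (h2 i).triv
  have k : ∀ i, ∀ x ∈ U i, ∀ᶠ y in 𝓝 x, s i y * (σ y)⁻¹ = s i x * (σ x)⁻¹ := fun i x hx =>
    (hU i).nhdsWithin_eq hx ▸ (hσ.mono (subset_univ _)).lc_diff (h2 i) (hU i) x hx
  obtain ⟨o', h4, -⟩ := ori_glue (o := fun i x => (((s i x * (σ x)⁻¹ : ℤˣ) : ℤ) : ℝ) • o i x) hd hU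
    (fun i => ⟨hd, fun x hx => ⟨(((h i).fm x hx).1.smul (((s i x * (σ x)⁻¹ : ℤˣ) : ℤ) : ℝ)).congr'
      ((k i x hx).mono fun y hy => by simp only [hy]),
      Submodule.smul_mem _ _ ((h i).fm x hx).2⟩, fun x hx =>
      smul_ne_zero (Int.cast_ne_zero.2 (Units.ne_zero _)) ((h i).ne x hx)⟩) fun i j x hx => by
        rw [cf_smul_left, cf_smul, h3 i j x hx, mul_assoc]
        exact sg_fix ((h i).cf_ne (h j) hx.1 hx.2) _
  exact ⟨o', h4.mono fun x _ => mem_iUnion.2 (hc x)⟩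

theorem ori_of_deform {S : Set X} {H : X × ℝ → X} (hS : IsOpen S) (h : Ori X N o S)
    (hH : Continuous H) (h0 : ∀ x, H (x, 0) = x) (h1 : ∀ x, H (x, 1) ∈ S) :
    ∃ o', Ori X N o' univ := by
  choose q hq using exists_ori_ch (X := X) h.dim
  refine ori_of_triv (U := fun i : Option X => i.elim S fun x => (ch X x).source)
    (o := fun i => i.elim o q) h.dim (fun i => ?_) (fun x => ⟨some x, mem_chart_source E x⟩)
    (fun i => ?_) fun τ hτ ht => hτ.deform (H := fun p => H (p.2, p.1)) (S' := S)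
      (hH.comp continuous_swap).continuousOn (mapsTo_univ _ _) (fun x _ => h0 x) (fun x _ => h1 x)
      (ht none)
  · cases i
    exacts [hS, (ch X _).open_source]
  · cases i
    exacts [h, hq _]

theorem oriCalc : OriCalcStmt := fun _ _ _ _ _ _ =>
  ⟨fun _ _ h => h.cyl, fun _ _ _ h hU => ⟨_, (h.slice 0 hU).1, fun x hx => by
      rw [(h.slice 0 hU).2 x hx, h.cf_self (hU x hx)]; exact one_pos⟩,
    fun _ _ _ h h' hU => h.sign h' hU, fun _ _ _ hd hU h hp => ori_glue hd hU h hp,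
    fun _ _ _ hS h hH h0 h1 => ori_of_deform hS h hH h0 h1⟩

end Pool.Agent.MP_e1dc65_gt

end
end MrgPart0

-- ======== part 1: formerly Pool.Agent.MP_e1dc65_gt.o.Glue
section MrgPart1

/-! PROJECT HC, part O, row GLUE: attaching caps along necks. -/

open scoped ContDiff Manifold Topology
open Set Filter Function Module Pool.Agent.MP_c8d41b_gt.GF

noncomputable section

namespace Pool.Agent.MP_e1dc65_gt.O

namespace GlueC

/-- the graph of a neck is closed -/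
theorem cap_cl {W : Mf E5} {S : W → ℝ} {C : Mf E4} {A : Set C} {σ : C → ℝ} {n : C.cyl → W}
    (hS : Continuous S) (h : Cap W S C A σ n) (y : W) (q : C.cyl) (hq : ¬(q.1 ∈ A ∧ y = n q)) :
    ∀ᶠ p in 𝓝 (y, q), ¬(p.2.1 ∈ A ∧ p.1 = n p.2) := by
  by_cases hA : q.1 ∈ A
  · have c : ContinuousAt (fun p : W × C.cyl => n p.2) (y, q) :=
      ContinuousAt.comp (g := n) (f := fun p : W × C.cyl => p.2)
        (h.oe.ld q ⟨hA, trivial⟩).sm.cont continuousAt_snd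
    have := (ContinuousAt.ne_iff_eventually_ne (f := fun p : W × C.cyl => p.1) continuousAt_fst
      c).1 fun e => hq ⟨hA, e⟩
    exact this.mono fun p hp hp' => hp hp'.2
  · have c1 : ∀ᶠ p : W × C.cyl in 𝓝 (y, q), p.2.1 ∈ {x | x ∈ A ∧ σ x ≤ S y + 1}ᶜ :=
      (continuous_fst.comp continuous_snd).continuousAt.preimage_mem_nhds
        ((h.cl _).isOpen_compl.mem_nhds fun h' => hA h'.1)
    have c2 : ∀ᶠ p : W × C.cyl in 𝓝 (y, q), S p.1 < S y + 1 :=
      (hS.comp continuous_fst).continuousAt.eventually_lt continuousAt_const (lt_add_one _)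
    filter_upwards [c1, c2] with p h1 h2 h3
    refine h1 ⟨h3.1, ?_⟩
    rw [← h.val _ h3.1 p.2.2]
    exact (h3.2 ▸ h2.le : S (n p.2) ≤ S y + 1)

variable {κ : Type} (Y : Mf E5) (C : κ → Mf E4)

/-- the pieces -/
abbrev pc : Option κ → Mf E5
  | none => Y
  | some k => (C k).cyl

/-- the gluing relation -/
def rel (A : ∀ k, Set (C k)) (n : ∀ k, (C k).cyl → Y) : ∀ i j, pc Y C i → pc Y C j → Prop
  | none, none => fun x y => x = y
  | none, some k => fun y q => q.1 ∈ A k ∧ y = n k q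
  | some k, none => fun q y => q.1 ∈ A k ∧ y = n k q
  | some k, some l => fun q q' => (⟨k, q⟩ : Σ k, (C k).cyl) = ⟨l, q'⟩

/-- attaching a countable family of caps with disjoint necks -/
theorem family [Countable κ] (S : Y → ℝ) (A : ∀ k, Set (C k)) (σ : ∀ k, C k → ℝ)
    (n : ∀ k, (C k).cyl → Y) (hS : Continuous S) (h : ∀ k, Cap Y S (C k) (A k) (σ k) (n k))
    (dis : ∀ k l, ∀ q : (C k).cyl, ∀ q' : (C l).cyl, q.1 ∈ A k → q'.1 ∈ A l → n k q = n l q' →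
      k = l) :
    ∃ (Z : Mf E5) (j : Y → Z) (e : ∀ k, (C k).cyl → Z), OE Y Z j univ ∧
      (∀ k, OE (C k).cyl Z (e k) univ) ∧ (∀ z, z ∈ range j ∨ ∃ k, z ∈ range (e k)) ∧
      (∀ k y q, j y = e k q ↔ q.1 ∈ A k ∧ y = n k q) ∧
      ∀ k l q q', e k q = e l q' → k = l := by
  have ne : ∀ {X : Type} [TopologicalSpace X] [T2Space X] (x x' : X), x ≠ x' →
      ∀ᶠ p in 𝓝 (x, x'), p.1 ≠ p.2 := fun x x' h => isClosed_diagonal.isOpen_compl.mem_nhds h
  have si : ∀ k (q q' : (C k).cyl), (⟨k, q⟩ : Σ k, (C k).cyl) = ⟨k, q'⟩ → q = q' :=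
    fun k q q' h => sigma_mk_injective (β := fun k => (C k).cyl) h
  obtain ⟨Z, e, a1, a2, a3⟩ := etale E5 E5 (Option κ) (pc Y C) (fun _ => univ) (rel Y C A n) rfl
    (fun _ => isOpen_univ) ⟨none, univ_nonempty⟩
    (by rintro (_ | k) x - <;> rfl)
    (by rintro (_ | k) (_ | l) x - y - h; exacts [Eq.symm h, h, h, Eq.symm h])
    (by
      rintro (_ | k) (_ | l) (_ | m) x - y - z - h1 h2
      · exact Eq.trans h1 h2
      · cases h1; exact h2
      · exact h1.2.trans h2.2.symm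
      · cases h2; exact h1
      · cases h2; exact h1
      · have e := h1.2.symm.trans h2.2
        obtain rfl := dis _ _ _ _ h1.1 h2.1 e
        exact congrArg _ ((h k).oe.inj ⟨h1.1, trivial⟩ ⟨h2.1, trivial⟩ e)
      · cases h1; exact h2
      · exact Eq.trans h1 h2)
    (by
      rintro (_ | k) (_ | l) x - y - h1
      · cases h1; exact ⟨_, ldAt_id, rfl, .of_forall fun _ => rfl⟩
      · obtain ⟨h1, rfl⟩ := h1
        have hy : y ∈ A l ×ˢ (univ : Set ℝ) := ⟨h1, trivial⟩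
        refine ⟨invFunOn (n l) (A l ×ˢ univ), (h l).oe.symm.ld _ ⟨y, hy, rfl⟩, (h l).oe.left hy,
          ((h l).oe.ld y hy).ev_img ?_⟩
        filter_upwards [(h l).oe.op.mem_nhds hy] with z hz
        rw [(h l).oe.left hz]
        exact ⟨hz.1, rfl⟩
      · obtain ⟨h1, rfl⟩ := h1
        have hx : x ∈ A k ×ˢ (univ : Set ℝ) := ⟨h1, trivial⟩
        refine ⟨n k, (h k).oe.ld x hx, rfl, ?_⟩
        filter_upwards [(h k).oe.op.mem_nhds hx] with z hz
        exact ⟨hz.1, rfl⟩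
      · cases h1; exact ⟨_, ldAt_id, rfl, .of_forall fun _ => rfl⟩)
    (by
      rintro (_ | k) x -
      · exact .of_forall fun p hp => hp
      · exact .of_forall fun p hp => si k _ _ hp)
    (by
      rintro (_ | k) (_ | l) x - y - h1
      · exact ne _ _ h1
      · exact cap_cl hS (h l) x y h1
      · exact (continuous_swap.tendsto (x, y)).eventually (cap_cl hS (h k) y x h1)
      · by_cases hkl : k = l
        · subst hkl
          exact (ne x y fun e => h1 (congrArg _ e)).mono fun p hp e => hp (si k _ _ e)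
        · exact .of_forall fun p e => hkl (congrArg Sigma.fst e))
  refine ⟨Z, e none, fun k => e (some k),
    ⟨isOpen_univ, a1 none, fun x hx y hy h => (a3 none none x hx y hy).1 h⟩,
    fun k => ⟨isOpen_univ, a1 (some k),
      fun x hx y hy h => si k _ _ ((a3 (some k) (some k) x hx y hy).1 h)⟩,
    fun z => ?_, fun k y q => a3 none (some k) y trivial q trivial,
    fun k l q q' h => congrArg Sigma.fst ((a3 (some k) (some l) q trivial q' trivial).1 h)⟩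
  obtain ⟨_ | k, x, -, rfl⟩ := a2 z
  exacts [.inl ⟨x, rfl⟩, .inr ⟨k, x, rfl⟩]

/-- the family of caps -/
abbrev cs (Q B : Mf E4) {ι : Type} : Option ι → Mf E4
  | none => Q
  | some _ => B

end GlueC

open GlueC in
theorem capGlue : CapGlueStmt := by
  intro Y S Q B ι _ AQ AB σQ σB nQ nB hS hQ hB d1 d2
  obtain ⟨Z, j, e, h1, h2, h3, h4, h5⟩ := family (κ := Option ι) Y (cs Q B) S
    (fun k => match k with | none => AQ | some _ => AB)
    (fun k => match k with | none => σQ | some _ => σB)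
    (fun k => match k with | none => nQ | some i => nB i) hS
    (by rintro (_ | i); exacts [hQ, hB i])
    (by
      rintro (_ | i) (_ | i') q q' hq hq' e
      · rfl
      · exact absurd e (d1 i' q ⟨hq, trivial⟩ q' ⟨hq', trivial⟩)
      · exact absurd e.symm (d1 i q' ⟨hq', trivial⟩ q ⟨hq, trivial⟩)
      · exact congrArg _ (d2 i i' q ⟨hq, trivial⟩ q' ⟨hq', trivial⟩ e))
  refine ⟨Z, j, e none, fun i => e (some i), h1, h2 none, fun i => h2 (some i), fun z => ?_,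
    h4 none, fun i => h4 (some i), fun i q q' h => ?_,
    fun i i' q q' h => Option.some.inj (h5 _ _ q q' h)⟩
  · rcases h3 z with h | ⟨_ | i, h⟩
    exacts [.inl h, .inr (.inl h), .inr (.inr ⟨i, h⟩)]
  · cases h5 none (some i) q q' h

end Pool.Agent.MP_e1dc65_gt.O

end
end MrgPart1

-- ======== part 2: formerly Pool.Agent.MP_e1dc65_gt.o.Plus
section MrgPart2

/-! PROJECT HC, part O, row PLUS: the capped manifolds. -/

open scoped ContDiff Manifold Topology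
open Set Filter Function Module Pool.Agent.MP_c8d41b_gt.GF

noncomputable section

namespace Pool.Agent.MP_e1dc65_gt.O

namespace PlusC

section Ori
variable {E E' : Type} [NormedAddCommGroup E] [NormedSpace ℝ E] [FiniteDimensional ℝ E]
  [NormedAddCommGroup E'] [NormedSpace ℝ E'] [FiniteDimensional ℝ E'] {N : ℕ}

theorem ori_range {X : Mf E} {Y : Mf E'} {f : X → Y} (hf : OE X Y f univ) (hd : finrank ℝ E' = N)
    {o : X → Lam E} (ho : Ori X N o univ) : ∃ o', Ori Y N o' (range f) :=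
  ⟨_, image_univ (f := f) ▸ ho.pb hd hf.symm.ld (mapsTo_univ _ _)⟩

theorem ori_union {X : Mf E} {U V : Set X} (h : ∃ o, Ori X N o U) (h' : ∃ o, Ori X N o V)
    (hU : IsOpen U) (hV : IsOpen V) (hc : IsPreconnected (U ∩ V)) : ∃ o, Ori X N o (U ∪ V) := by
  obtain ⟨o, h⟩ := h
  obtain ⟨o', h', hp⟩ : ∃ o', Ori X N o' V ∧ ∀ x ∈ U ∩ V, 0 < cf (o x) (o' x) := by
    obtain ⟨o', h'⟩ := h'
    rcases (h.mono inter_subset_left).sign (h'.mono inter_subset_right) hc with h1 | h1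
    exacts [⟨_, h', h1⟩, ⟨_, h'.neg, h1⟩]
  obtain ⟨o'', h1, -⟩ := ori_glue (U := fun b : Bool => cond b U V) (o := fun b => cond b o o')
    h.dim (fun b => by cases b; exacts [hV, hU]) (fun b => by cases b; exacts [h', h])
    fun b b' x hx => by
      cases b <;> cases b'
      · exact (h'.cf_self hx.1).symm ▸ one_pos
      · exact cf_pos_symm (hp x ⟨hx.2, hx.1⟩)
      · exact hp x hx
      · exact (h.cf_self hx.1).symm ▸ one_pos
  exact ⟨o'', h1.mono (union_eq_iUnion (s₁ := U) (s₂ := V)).le⟩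

end Ori

theorem rk5 : finrank ℝ E5 = 5 := by simp

theorem ori_cap {C : Mf E4} {Z : Mf E5} {k : C.cyl → Z} (hk : OE C.cyl Z k univ)
    (ho : ∃ o, Ori C 4 o univ) : ∃ o, Ori Z 5 o (range k) := by
  obtain ⟨o, ho⟩ := ho
  exact ori_range hk rk5 (ho.cyl.mono fun _ _ => ⟨trivial, trivial⟩)

theorem op_range {E : Type} [NormedAddCommGroup E] [NormedSpace ℝ E] {X : Mf E} {Z : Mf E5}
    {k : X → Z} (hk : OE X Z k univ) : IsOpen (range k) := image_univ (f := k) ▸ hk.symm.op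

theorem conn_cap {C : Mf E4} {Z : Mf E5} {k : C.cyl → Z} (hk : OE C.cyl Z k univ) {A : Set C}
    (hA : IsPreconnected A) : IsPreconnected (k '' (A ×ˢ univ)) :=
  (hA.prod isPreconnected_univ).image _ hk.sm.cont.continuousOn

/-- the lift of a neck is a neck -/
theorem cap_lift {W Y : Mf E5} {S : W → ℝ} {C : Mf E4} {A : Set C} {σ : C → ℝ} {n : C.cyl → W}
    (h : Cap W S C A σ n) {p : Y → W} (hp : ∀ y, LDAt Y W p y) {l : C.cyl → Y}
    (hl : ContinuousOn l (A ×ˢ univ)) (e : ∀ q ∈ A ×ˢ (univ : Set ℝ), p (l q) = n q) :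
    Cap Y (fun y => S (p y)) C A σ l where
  oe := ⟨h.oe.op, fun q hq => (hp (l q)).ld_of_lift (hl.continuousAt (h.oe.op.mem_nhds hq))
      ((h.oe.ld q hq).congr' (mem_of_superset (h.oe.op.mem_nhds hq) e)),
    fun q hq q' hq' h1 => h.oe.inj hq hq' (by rw [← e q hq, ← e q' hq', h1])⟩
  val x hx t := by rw [e _ ⟨hx, trivial⟩, h.val x hx t]
  cl := h.cl

variable {Y : Mf E5} {Q B : Mf E4} {ι : Type} {AQ : Set Q} {AB : Set B} {nQ : Q.cyl → Y}
  {nB : ι → B.cyl → Y} {Z : Mf E5} {j : Y → Z} {kQ : Q.cyl → Z} {kB : ι → B.cyl → Z}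

/-- maps out of the glued manifold -/
theorem desc (h : Glued Y Q B AQ AB nQ nB Z j kQ kB) {T : Type} (f : Y → T) (fQ : Q.cyl → T)
    (fB : ι → B.cyl → T) (hQ : ∀ q ∈ AQ ×ˢ (univ : Set ℝ), f (nQ q) = fQ q)
    (hB : ∀ i, ∀ q ∈ AB ×ˢ (univ : Set ℝ), f (nB i q) = fB i q) :
    ∃ g : Z → T, (∀ y, g (j y) = f y) ∧ (∀ q, g (kQ q) = fQ q) ∧ ∀ i q, g (kB i q) = fB i q := by
  have a1 : ∀ y q, j y = kQ q → f y = fQ q := fun y q e => by
    obtain ⟨h1, rfl⟩ := (h.jQ y q).1 e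
    exact hQ q ⟨h1, trivial⟩
  have a2 : ∀ y i q, j y = kB i q → f y = fB i q := fun y i q e => by
    obtain ⟨h1, rfl⟩ := (h.jB i y q).1 e
    exact hB i q ⟨h1, trivial⟩
  have key : ∀ z, ∃ w, (∀ y, j y = z → w = f y) ∧ (∀ q, kQ q = z → w = fQ q) ∧
      ∀ i q, kB i q = z → w = fB i q := fun z => by
    rcases h.cov z with ⟨y, rfl⟩ | ⟨q, rfl⟩ | ⟨i, q, rfl⟩
    · exact ⟨f y, fun y' e => by rw [h.oj.inj trivial trivial e], fun q e => a1 y q e.symm,
        fun i q e => a2 y i q e.symm⟩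
    · exact ⟨fQ q, fun y e => (a1 y q e).symm, fun q' e => by rw [h.oQ.inj trivial trivial e],
        fun i q' e => (h.QB i q q' e.symm).elim⟩
    · refine ⟨fB i q, fun y e => (a2 y i q e).symm, fun q' e => (h.QB i q' q e).elim,
        fun i' q' e => ?_⟩
      obtain rfl := h.BB i' i q' q e
      rw [(h.oB i').inj trivial trivial e]
  choose g h1 h2 h3 using key
  exact ⟨g, fun y => h1 _ y rfl, fun q => h2 _ q rfl, fun i q => h3 _ i q rfl⟩

theorem ori_glued [Unique ι] (h : Glued Y Q B AQ AB nQ nB Z j kQ kB) {o : Y → Lam E5}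
    (ho : Ori Y 5 o univ) {σQ : Q → ℝ} {σB : B → ℝ} (hQ : CapI Q AQ σQ) (hB : CapI B AB σB) :
    ∃ o, Ori Z 5 o univ := by
  have h1 : range j ∩ range kQ = kQ '' (AQ ×ˢ univ) := by
    ext z
    constructor
    · rintro ⟨⟨y, e⟩, q, rfl⟩
      exact ⟨q, ⟨((h.jQ y q).1 e).1, trivial⟩, rfl⟩
    · rintro ⟨q, hq, rfl⟩
      exact ⟨⟨nQ q, (h.jQ _ q).2 ⟨hq.1, rfl⟩⟩, q, rfl⟩
  have h2 : (range j ∪ range kQ) ∩ range (kB default) = kB default '' (AB ×ˢ univ) := by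
    ext z
    constructor
    · rintro ⟨⟨y, e⟩ | ⟨y, e⟩, q, rfl⟩
      · exact ⟨q, ⟨((h.jB _ y q).1 e).1, trivial⟩, rfl⟩
      · exact (h.QB _ _ _ e).elim
    · rintro ⟨q, hq, rfl⟩
      exact ⟨Or.inl ⟨nB default q, (h.jB _ _ q).2 ⟨hq.1, rfl⟩⟩, q, rfl⟩
  obtain ⟨o', h3⟩ := ori_union (ori_union (ori_range h.oj rk5 ho) (ori_cap h.oQ hQ.ori)
    (op_range h.oj) (op_range h.oQ) (h1 ▸ conn_cap h.oQ hQ.conn)) (ori_cap (h.oB default) hB.ori)
    ((op_range h.oj).union (op_range h.oQ)) (op_range (h.oB _)) (h2 ▸ conn_cap (h.oB _) hB.conn)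
  refine ⟨o', h3.mono fun z _ => ?_⟩
  rcases h.cov z with h4 | h4 | ⟨i, h4⟩
  exacts [Or.inl (Or.inl h4), Or.inl (Or.inr h4), Or.inr (Unique.eq_default i ▸ h4)]

theorem sm_bt {C : Mf E4} (a b : ℝ) (q : C.cyl) :
    SmAt C.cyl (vs ℝ) (fun q => a + b * bt q.2) q :=
  (smAt_snd (X := C) (Y := vs ℝ) (p := q)).vcomp (g := fun t => a + b * bt t)
    (contDiff_const.add (contDiff_const.mul bt_sm)).contDiffAt

end PlusC

open PlusC in
theorem plus (hG : CapGlueStmt) : PlusStmt := by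
  intro C D h hD hc U hU
  have hS := h.Ssm.cont
  have hp : Continuous U.p := hU.cov.continuous
  have dis : ∀ q q', nQ h q ≠ nB h q' := fun q q' => h.disj _ _
  obtain ⟨Z, j, kQ, kB, gl⟩ := hG h.W h.S D.Q (vs E4) Unit (AQ D) AB (sQ D) sB (nQ h)
    (fun _ => nB h) hS hc.cQ (fun _ => hc.cB) (fun _ q _ q' _ => dis q q') fun _ _ _ _ _ _ _ => rfl
  have cQ := cap_lift hc.cQ hU.ld hU.cQ hU.pQ
  have cB := fun i => cap_lift hc.cB hU.ld (hU.cB i) (hU.pB i)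
  obtain ⟨Zt, jt, kQt, kBt, glt⟩ := hG U.Wt (fun y => h.S (U.p y)) D.Q (vs E4) U.ι (AQ D) AB
    (sQ D) sB U.lQ U.lB (hS.comp hp) cQ cB
    (fun i q hq q' hq' e => dis q q' (by rw [← hU.pQ q hq, ← hU.pB i q' hq', e]))
    fun i i' q hq q' hq' e => by
      obtain rfl := hc.cB.oe.inj hq hq' (by rw [← hU.pB i q hq, ← hU.pB i' q' hq', e])
      exact hU.dis i i' q hq e
  obtain ⟨pp, p1, p2, p3⟩ := desc glt (fun y => j (U.p y)) kQ (fun _ => kB ())
    (fun q hq => (gl.jQ _ q).2 ⟨hq.1, hU.pQ q hq⟩) fun i q hq => (gl.jB () _ q).2 ⟨hq.1, hU.pB i q hq⟩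
  obtain ⟨up, u1, u2, u3⟩ := desc glt U.u (fun q => bt q.2)
    (fun i q => U.e₀ i + (U.e₁ i - U.e₀ i) * bt q.2) hU.uQ hU.uB
  obtain ⟨oW, hoW⟩ : ∃ o, Ori h.W 5 o univ := by
    obtain ⟨o, ho⟩ := ori_cap h.oeM hD.oriM
    exact ori_of_deform (op_range h.oeM) ho h.sdr.Hc h.sdr.zero fun x => ⟨_, (h.sdr.one x).symm⟩
  obtain ⟨o, ho⟩ := ori_glued gl hoW hc.iQ hc.iB
  refine ⟨⟨Z, j, kQ, kB, Zt, jt, kQt, kBt, pp, up, o, jt '' U.Kc ∪
    kQt '' ({x | x ∈ AQ D → 4 ≤ sQ D x} ×ˢ Icc (-1) 1) ∪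
    ⋃ i, kBt i '' ({x | x ∈ AB → 4 ≤ sB x} ×ˢ Icc (-1) 1)⟩,
    gl, glt, fun z => ?_, p1, p2, p3, fun z _ => ?_, u1, u2, u3, ?_, fun z hz => ?_, ho⟩
  · rcases glt.cov z with ⟨y, rfl⟩ | ⟨q, rfl⟩ | ⟨i, q, rfl⟩
    · exact (glt.oj.ld y trivial).ld_of_comp
        (((hU.ld y).trans (gl.oj.ld _ trivial)).congr' (.of_forall p1))
    · exact (glt.oQ.ld q trivial).ld_of_comp ((gl.oQ.ld q trivial).congr' (.of_forall p2))
    · exact ((glt.oB i).ld q trivial).ld_of_comp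
        (((gl.oB ()).ld q trivial).congr' (.of_forall (p3 i)))
  · rcases glt.cov z with ⟨y, rfl⟩ | ⟨q, rfl⟩ | ⟨i, q, rfl⟩
    · exact (glt.oj.ld y trivial).sm_of_comp ((hU.sm y trivial).congr' (.of_forall u1))
    · exact (glt.oQ.ld q trivial).sm_of_comp
        ((sm_bt 0 1 q).congr' (.of_forall fun q => by simp [u2]))
    · exact ((glt.oB i).ld q trivial).sm_of_comp ((sm_bt _ _ q).congr' (.of_forall (u3 i)))
  · exact ((hU.cpt.image glt.oj.sm.cont).union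
      (((hc.iQ.cpt 4 (by norm_num)).prod isCompact_Icc).image glt.oQ.sm.cont)).union
      (isCompact_iUnion fun i =>
        ((hc.iB.cpt 4 (by norm_num)).prod isCompact_Icc).image (glt.oB i).sm.cont)
  · simp only [mem_union, not_or, mem_iUnion, not_exists] at hz
    obtain ⟨⟨z1, z2⟩, z3⟩ := hz
    show Bit (up z)
    have key : ∀ y, jt y = z → Bit (up z) := by
      rintro y rfl
      rw [u1]
      rcases le_or_gt (h.S (U.p y)) 4 with h4 | h4
      · exact hU.valK y (fun hy => z1 ⟨y, hy, rfl⟩) h4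
      · refine hU.val3 y (by linarith) ?_ fun i => ?_
        · rintro ⟨q, hq, rfl⟩
          exact z2 ⟨q, ⟨fun _ => (cQ.val q.1 hq.1 q.2 ▸ h4.le :), hq.2⟩,
            ((glt.jQ _ q).2 ⟨hq.1, rfl⟩).symm⟩
        · rintro ⟨q, hq, rfl⟩
          exact z3 i ⟨q, ⟨fun _ => ((cB i).val q.1 hq.1 q.2 ▸ h4.le :), hq.2⟩,
            ((glt.jB i _ q).2 ⟨hq.1, rfl⟩).symm⟩
    rcases glt.cov z with ⟨y, e⟩ | ⟨q, rfl⟩ | ⟨i, q, rfl⟩
    · exact key y e
    · by_cases hq : q.1 ∈ AQ D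
      · exact key _ ((glt.jQ _ q).2 ⟨hq, rfl⟩)
      · rw [u2]
        exact bit_bt fun ht => z2 ⟨q, ⟨fun h1 => (hq h1).elim, ht⟩, rfl⟩
    · by_cases hq : q.1 ∈ AB
      · exact key _ ((glt.jB i _ q).2 ⟨hq, rfl⟩)
      · rw [u3]
        rcases bit_bt fun ht => z3 i ⟨q, ⟨fun h1 => (hq h1).elim, ht⟩, rfl⟩ with h1 | h1
        · rw [h1, mul_zero, add_zero]; exact (hU.bit i).1
        · rw [h1, mul_one, add_sub_cancel]; exact (hU.bit i).2

theorem plus' : PlusStmt := plus capGlue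

end Pool.Agent.MP_e1dc65_gt.O

end
end MrgPart2

-- ======== part 3: formerly Pool.Agent.MP_e1dc65_gt.t4.MidA
section MrgPart3

-- ======== part 0: formerly Pool.Agent.MP_e1dc65_gt.t4.Ctl
section MrgPart0

/-! PROJECT HC, part T4, row CTL: the calculus of controlled spaces. -/

open scoped Topology Real
open Set Filter Function Metric Topology

noncomputable section

namespace Pool.Agent.MP_e1dc65_gt.T4

variable {H H' S S' U : Set V} {e e' t : ℝ} {b b' b'' : V × Z} {A C C' C'' : Ctl}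

/-! ### Nr, Iso, BIso -/

theorem Nr.refl (H : Set V) (e : ℝ) (b : V × Z) : Nr H e b b := Or.inl rfl

theorem Nr.symm (h : Nr H e b b') : Nr H e b' b :=
  h.imp Eq.symm fun h => ⟨h.2.1, h.1, dist_comm b.2 b'.2 ▸ h.2.2⟩

theorem Nr.mono (h : Nr H e b b') (hH : H ⊆ H') (he : e ≤ e') : Nr H' e' b b' :=
  h.imp id fun h => ⟨hH h.1, hH h.2.1, h.2.2.trans he⟩

theorem Nr.trans (h : Nr H e b b') (h' : Nr H e' b' b'') (he : 0 ≤ e) (he' : 0 ≤ e') :
    Nr H (e + e') b b'' := by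
  rcases h with rfl | h
  · exact h'.mono subset_rfl (by linarith)
  rcases h' with rfl | h'
  · exact Or.inr ⟨h.1, h.2.1, by linarith [h.2.2]⟩
  exact Or.inr ⟨h.1, h'.2.1, (dist_triangle _ _ _).trans (add_le_add h.2.2 h'.2.2)⟩

theorem nr_empty : Nr ∅ e b b' ↔ b = b' := by simp [Nr]

theorem Nr.eq_of_left (h : Nr H e b b') (hb : b.1 ∉ H) : b = b' := h.resolve_right fun h => hb h.1

theorem Nr.eq_of_right (h : Nr H e b b') (hb : b'.1 ∉ H) : b = b' :=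
  h.resolve_right fun h => hb h.2.1

theorem Iso.refl (C : Ctl) (H : Set V) (e : ℝ) : Iso C C H e :=
  ⟨Homeomorph.refl _, fun _ => Nr.refl _ _ _⟩

theorem Iso.symm (h : Iso C C' H e) : Iso C' C H e := by
  obtain ⟨θ, h⟩ := h
  exact ⟨θ.symm, fun y => by simpa using (h (θ.symm y)).symm⟩

theorem Iso.mono (h : Iso C C' H e) (hH : H ⊆ H') (he : e ≤ e') : Iso C C' H' e' :=
  h.imp fun _ h y => (h y).mono hH he

theorem Iso.trans (h : Iso C C' H e) (h' : Iso C' C'' H e') (he : 0 ≤ e) (he' : 0 ≤ e') :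
    Iso C C'' H (e + e') := by
  obtain ⟨θ, h⟩ := h
  obtain ⟨θ', h'⟩ := h'
  exact ⟨θ.trans θ', fun y => (h y).trans (h' (θ y)) he he'⟩

theorem iso0_iff : Iso C C' ∅ 0 ↔ ∃ θ : C.Y ≃ₜ C'.Y, ∀ y, C'.pj (θ y) = C.pj y := by
  simp only [Iso, nr_empty, eq_comm]

/-- an exact isomorphism on the left -/
theorem Iso.trans_left (h : Iso C C' ∅ 0) (h' : Iso C' C'' H e) : Iso C C'' H e := by
  obtain ⟨θ, h⟩ := iso0_iff.1 h
  obtain ⟨θ', h'⟩ := h'
  exact ⟨θ.trans θ', fun y => h y ▸ h' (θ y)⟩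

/-- an exact isomorphism on the right -/
theorem Iso.trans_right (h : Iso C C' H e) (h' : Iso C' C'' ∅ 0) : Iso C C'' H e :=
  (h'.symm.trans_left h.symm).symm

theorem Iso.biso (h : Iso C C' H e) (hH : Bornology.IsBounded H) : BIso C C' := by
  obtain ⟨R, hR⟩ := hH.subset_closedBall 0
  exact ⟨R, max e 0, le_max_right _ _, h.mono hR (le_max_left _ _)⟩

theorem Iso.biso0 (h : Iso C C' ∅ 0) : BIso C C' := h.biso Bornology.isBounded_empty

theorem BIso.refl (C : Ctl) : BIso C C := (Iso.refl C ∅ 0).biso0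

theorem BIso.symm (h : BIso C C') : BIso C' C := by
  obtain ⟨R, e, he, h⟩ := h
  exact ⟨R, e, he, h.symm⟩

theorem BIso.trans (h : BIso C C') (h' : BIso C' C'') : BIso C C'' := by
  obtain ⟨R, e, he, h⟩ := h
  obtain ⟨R', e', he', h'⟩ := h'
  exact ⟨max R R', e + e', add_nonneg he he',
    (h.mono (closedBall_subset_closedBall (le_max_left _ _)) le_rfl).trans
      (h'.mono (closedBall_subset_closedBall (le_max_right _ _)) le_rfl) he he'⟩

/-! ### Std -/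

theorem Std.mono (h : Std C S) (hS : S ⊆ S') : Std C S' := by
  obtain ⟨σ, h1, h2, h3⟩ := h
  exact ⟨σ, h1.mono fun _ hb e => hb (hS e), fun b hb => h2 b fun e => hb (hS e),
    fun y hy => h3 y fun e => hy (hS e)⟩

theorem std_one (S : Set V) : Std one S :=
  ⟨id, continuousOn_id, fun _ _ => rfl, fun _ _ => rfl⟩

theorem Std.iso (h : Std C S) (hi : Iso C C' H e) : Std C' (S ∪ H) := by
  obtain ⟨σ, h1, h2, h3⟩ := h
  obtain ⟨θ, hθ⟩ := hi
  refine ⟨fun b => θ (σ b), θ.continuous.comp_continuousOn (h1.mono fun _ hb e => hb (Or.inl e)),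
    fun b hb => ?_, fun y hy => ?_⟩
  · have e1 := h2 b fun e => hb (Or.inl e)
    rw [← (hθ (σ b)).eq_of_left (by rw [e1]; exact fun e => hb (Or.inr e)), e1]
  · obtain ⟨y, rfl⟩ := θ.surjective y
    have e1 := (hθ y).eq_of_right fun e => hy (Or.inr e)
    rw [← e1] at hy ⊢
    exact congrArg θ (h3 y fun e => hy (Or.inl e))

theorem Std.iso0 (h : Std C S) (hi : Iso C C' ∅ 0) : Std C' S := by simpa using h.iso hi

theorem Std.mv (h : Std C S) (E : V ≃ₜ V) (ht : t ≠ 0) : Std (C.mv E t) (E '' S) := by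
  obtain ⟨σ, h1, h2, h3⟩ := h
  have k : ∀ v, v ∉ E '' S → E.symm v ∉ S := fun v hv e => hv ⟨_, e, E.apply_symm_apply v⟩
  refine ⟨fun b => σ (E.symm b.1, t⁻¹ • b.2), h1.comp (by fun_prop) fun b hb => k _ hb,
    fun b hb => ?_, fun y hy => ?_⟩
  · simp [Ctl.mv, h2 (E.symm b.1, t⁻¹ • b.2) (k _ hb), smul_smul, ht]
  · have := h3 y fun e => hy ⟨_, e, rfl⟩
    simpa [Ctl.mv, smul_smul, ht] using this

theorem exists_notMem (h : Bornology.IsBounded S) : ∃ v, v ∉ S := by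
  by_contra hc
  rw [not_exists] at hc
  exact NormedSpace.unbounded_univ ℝ V (h.subset fun v _ => not_not.1 (hc v))

theorem std_of_sub (hv : ∃ v, v ∉ S) (σ : {b : V × Z // b.1 ∉ S} → C.Y) (h1 : Continuous σ)
    (h2 : ∀ b, C.pj (σ b) = b) (h3 : ∀ y hy, σ ⟨C.pj y, hy⟩ = y) : Std C S := by
  classical
  obtain ⟨v, hv⟩ := hv
  refine ⟨fun b => if h : b.1 ∉ S then σ ⟨b, h⟩ else σ ⟨(v, 0), hv⟩,
    continuousOn_iff_continuous_domRestrict.2 (h1.congr fun b =>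
      (dif_pos (t := fun h => σ ⟨b.1, h⟩) b.2).symm),
    fun b hb => ?_, fun y hy => ?_⟩
  · simp only [dif_pos hb, h2]
  · simp only [dif_pos hy, h3]

theorem Std.fp (h : Std C S) (h' : Std C' S') (hv : ∃ v, v ∉ S ∪ S') :
    Std (C.fp C') (S ∪ S') := by
  obtain ⟨σ, h1, h2, h3⟩ := h
  obtain ⟨σ', h1', h2', h3'⟩ := h'
  have c1 : Continuous fun b : {b : V × Z // b.1 ∉ S ∪ S'} => σ b :=
    h1.comp_continuous continuous_subtype_val fun b e => b.2 (Or.inl e)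
  have c2 : Continuous fun b : {b : V × Z // b.1 ∉ S ∪ S'} => σ' b :=
    h1'.comp_continuous continuous_subtype_val fun b e => b.2 (Or.inr e)
  refine std_of_sub hv (fun b => ⟨(σ b, σ' b), (h2 _ fun e => b.2 (Or.inl e)).trans
    (h2' _ fun e => b.2 (Or.inr e)).symm⟩) (Continuous.subtype_mk (c1.prodMk c2) _)
    (fun b => h2 _ fun e => b.2 (Or.inl e)) fun y hy => Subtype.ext (Prod.ext
      (h3 _ fun e => hy (Or.inl e)) ?_)
  have e1 : (C.fp C').pj y = C'.pj y.1.2 := y.2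
  have := h3' y.1.2 fun e => hy (Or.inr (e1 ▸ e))
  rwa [← e1] at this

theorem Std.pr {C : ℕ → Ctl} (h : ∀ m, Std (C m) S) (hv : ∃ v, v ∉ S) : Std (pr C) S := by
  choose σ h1 h2 h3 using h
  refine std_of_sub hv (fun b => ⟨(b, fun m => σ m b), fun m => h2 m _ b.2⟩)
    (Continuous.subtype_mk (continuous_subtype_val.prodMk (continuous_pi fun m =>
      (h1 m).comp_continuous continuous_subtype_val fun b => b.2)) _) (fun _ => rfl)
    fun y hy => Subtype.ext (Prod.ext rfl (funext fun m => ?_))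
  have e1 : (C m).pj (y.1.2 m) = (T4.pr C).pj y := y.2 m
  have := h3 m (y.1.2 m) (e1 ▸ hy)
  rwa [e1] at this

/-! ### Change of control and fibre products -/

theorem Iso.mv (h : Iso C C' H e) (E : V ≃ₜ V) (t : ℝ) :
    Iso (C.mv E t) (C'.mv E t) (E '' H) (|t| * e) := by
  obtain ⟨θ, h⟩ := h
  refine ⟨θ, fun y => (h y).imp (congrArg fun b : V × Z => (E b.1, t • b.2)) fun e =>
    ⟨⟨_, e.1, rfl⟩, ⟨_, e.2.1, rfl⟩, ?_⟩⟩
  simp only [Ctl.mv, dist_smul₀, Real.norm_eq_abs]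
  exact mul_le_mul_of_nonneg_left e.2.2 (abs_nonneg t)

theorem Iso.mv0 (h : Iso C C' ∅ 0) (E : V ≃ₜ V) (t : ℝ) : Iso (C.mv E t) (C'.mv E t) ∅ 0 := by
  simpa using h.mv E t

theorem BIso.mv (h : BIso C C') (E : V ≃ₜ V) (t : ℝ) : BIso (C.mv E t) (C'.mv E t) := by
  obtain ⟨R, e, -, h⟩ := h
  exact (h.mv E t).biso ((isCompact_closedBall 0 R).image E.continuous).isBounded

theorem one_mv (E : V ≃ₜ V) (ht : t ≠ 0) : Iso (one.mv E t) one ∅ 0 :=
  iso0_iff.2 ⟨E.prodCongr (Homeomorph.smulOfNeZero t ht), fun _ => rfl⟩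

theorem mv_refl (C : Ctl) : Iso (C.mv (Homeomorph.refl V) 1) C ∅ 0 :=
  iso0_iff.2 ⟨Homeomorph.refl _, fun _ => Prod.ext rfl (one_smul _ _).symm⟩

theorem mv_mv (C : Ctl) (E E' : V ≃ₜ V) (t t' : ℝ) :
    Iso ((C.mv E t).mv E' t') (C.mv (E.trans E') (t' * t)) ∅ 0 :=
  iso0_iff.2 ⟨Homeomorph.refl _, fun _ => Prod.ext rfl (mul_smul _ _ _)⟩

theorem mv_congr (C : Ctl) {E E' : V ≃ₜ V} {t t' : ℝ} (h : ∀ v, E v = E' v) (ht : t = t') :
    Iso (C.mv E t) (C.mv E' t') ∅ 0 :=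
  ht ▸ iso0_iff.2 ⟨Homeomorph.refl _, fun _ => Prod.ext (h _).symm rfl⟩

theorem fp_comm (C C' : Ctl) : Iso (C.fp C') (C'.fp C) ∅ 0 :=
  iso0_iff.2 ⟨(Homeomorph.prodComm _ _).subtype fun _ => eq_comm, fun y => y.2.symm⟩

theorem fp_assoc (A C C' : Ctl) : Iso ((A.fp C).fp C') (A.fp (C.fp C')) ∅ 0 :=
  iso0_iff.2 ⟨⟨⟨fun p => ⟨(p.1.1.1.1, ⟨(p.1.1.1.2, p.1.2), p.1.1.2.symm.trans p.2⟩), p.1.1.2⟩,
    fun p => ⟨(⟨(p.1.1, p.1.2.1.1), p.2⟩, p.1.2.1.2), p.2.trans p.1.2.2⟩, fun _ => rfl,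
    fun _ => rfl⟩, by unfold Ctl.fp; fun_prop, by unfold Ctl.fp; fun_prop⟩, fun _ => rfl⟩

theorem fp_one (C : Ctl) : Iso (C.fp one) C ∅ 0 :=
  iso0_iff.2 ⟨⟨⟨fun p => p.1.1, fun y => ⟨(y, C.pj y), rfl⟩,
    fun p => Subtype.ext (Prod.ext rfl p.2), fun _ => rfl⟩,
    continuous_fst.comp continuous_subtype_val,
    (continuous_id.prodMk C.cont).subtype_mk _⟩, fun _ => rfl⟩

theorem one_fp (C : Ctl) : Iso (one.fp C) C ∅ 0 := (fp_comm _ _).trans_left (fp_one C)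

theorem mv_fp (C C' : Ctl) (E : V ≃ₜ V) (ht : t ≠ 0) :
    Iso ((C.fp C').mv E t) ((C.mv E t).fp (C'.mv E t)) ∅ 0 :=
  iso0_iff.2 ⟨(Homeomorph.refl (C.Y × C'.Y)).subtype fun p => by
    simp [Ctl.mv, Prod.ext_iff, smul_right_inj ht], fun _ => rfl⟩

theorem Iso.fp0 {A' : Ctl} (h : Iso A A' ∅ 0) (h' : Iso C C' ∅ 0) :
    Iso (A.fp C) (A'.fp C') ∅ 0 := by
  obtain ⟨θ, h⟩ := iso0_iff.1 h
  obtain ⟨θ', h'⟩ := iso0_iff.1 h'
  exact iso0_iff.2 ⟨(θ.prodCongr θ').subtype fun p => by simp [h, h'], fun y => h y.1.1⟩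

theorem Iso.pr0 {C C' : ℕ → Ctl} (h : ∀ m, Iso (C m) (C' m) ∅ 0) : Iso (pr C) (pr C') ∅ 0 := by
  choose θ h using fun m => iso0_iff.1 (h m)
  exact iso0_iff.2 ⟨((Homeomorph.refl (V × Z)).prodCongr (Homeomorph.piCongrRight θ)).subtype
    fun p => by simp [h], fun _ => rfl⟩

/-! ### MOVE, COMPRESS, FPC -/

/-- a map that is given by continuous maps on two open sets -/
theorem cont_two {X Y : Type} [TopologicalSpace X] [TopologicalSpace Y] {f g g' : X → Y}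
    {O O' : Set X} (hO : IsOpen O) (hO' : IsOpen O') (hc : ∀ x, x ∉ O → x ∈ O')
    (hg : ContinuousOn g O) (hg' : ContinuousOn g' O') (e : EqOn f g O) (e' : EqOn f g' O') :
    Continuous f := continuous_iff_continuousAt.2 fun x => by
  by_cases hx : x ∈ O
  · exact (hg.congr e).continuousAt (hO.mem_nhds hx)
  · exact (hg'.congr e').continuousAt (hO'.mem_nhds (hc x hx))

/-- a homeomorphism that is the identity near the support lifts -/
theorem Std.lift (h : Std C S) (hS : IsClosed S) (hU : IsOpen U) (hSU : S ⊆ U) (ψ : V ≃ₜ V)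
    (hψ : ∀ v ∈ U, ψ v = v) :
    ∃ θ : C.Y ≃ₜ C.Y, ∀ y, C.pj (θ y) = (ψ (C.pj y).1, (C.pj y).2) := by
  classical
  obtain ⟨σ, h1, h2, h3⟩ := h
  obtain ⟨L, hL⟩ : ∃ L : (V ≃ₜ V) → C.Y → C.Y, L = fun ψ y =>
    if (C.pj y).1 ∈ U then y else σ (ψ (C.pj y).1, (C.pj y).2) := ⟨_, rfl⟩
  have k0 : ∀ ψ : V ≃ₜ V, (∀ v ∈ U, ψ v = v) → ∀ v, v ∉ S → ψ v ∉ S := fun ψ hψ v hv e =>
    hv (ψ.injective (hψ _ (hSU e)) ▸ e)
  have k1 : ∀ ψ y, (C.pj y).1 ∈ U → L ψ y = y := fun ψ y hy => by simp only [hL, if_pos hy]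
  have k2 : ∀ ψ : V ≃ₜ V, (∀ v ∈ U, ψ v = v) → ∀ y, (C.pj y).1 ∉ S →
      L ψ y = σ (ψ (C.pj y).1, (C.pj y).2) := fun ψ hψ y hy => by
    by_cases e : (C.pj y).1 ∈ U
    · rw [k1 ψ y e, hψ _ e, h3 y hy]
    · simp only [hL, if_neg e]
  have k3 : ∀ ψ : V ≃ₜ V, (∀ v ∈ U, ψ v = v) → ∀ y,
      C.pj (L ψ y) = (ψ (C.pj y).1, (C.pj y).2) := fun ψ hψ y => by
    by_cases e : (C.pj y).1 ∈ U
    · rw [k1 ψ y e, hψ _ e]
    · have e' : (C.pj y).1 ∉ S := fun e' => e (hSU e')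
      rw [k2 ψ hψ y e', h2 _ (k0 ψ hψ _ e')]
  have k4 : ∀ ψ : V ≃ₜ V, (∀ v ∈ U, ψ v = v) → Continuous (L ψ) := fun ψ hψ =>
    cont_two (hU.preimage C.cont.fst) (hS.isOpen_compl.preimage C.cont.fst)
      (fun y hy e => hy (hSU e)) continuousOn_id
      (h1.comp ((ψ.continuous.comp C.cont.fst).prodMk C.cont.snd).continuousOn
        fun y hy => k0 ψ hψ _ hy) (k1 ψ) (k2 ψ hψ)
  have k5 : ∀ ψ : V ≃ₜ V, (∀ v ∈ U, ψ v = v) → (∀ v ∈ U, ψ.symm v = v) → ∀ y,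
      L ψ.symm (L ψ y) = y := fun ψ hψ hψ' y => by
    by_cases e : (C.pj y).1 ∈ U
    · rw [k1 ψ y e, k1 _ y e]
    · have e' : (C.pj y).1 ∉ S := fun e' => e (hSU e')
      rw [k2 _ hψ' _ (by rw [k3 ψ hψ]; exact k0 ψ hψ _ e'), k3 ψ hψ]
      simp only [Homeomorph.symm_apply_apply, h3 y e']
  have hψ' : ∀ v ∈ U, ψ.symm v = v := fun v hv => ψ.symm_apply_eq.2 (hψ v hv).symm
  exact ⟨⟨⟨L ψ, L ψ.symm, k5 ψ hψ hψ', k5 ψ.symm hψ' hψ⟩, k4 ψ hψ, k4 _ hψ'⟩, k3 ψ hψ⟩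

/-- MOVE -/
theorem Std.move (h : Std C S) (hS : IsClosed S) (hU : IsOpen U) (hSU : S ⊆ U) {E E' : V ≃ₜ V}
    (hE : ∀ v ∈ U, E v = E' v) (t : ℝ) : Iso (C.mv E t) (C.mv E' t) ∅ 0 := by
  obtain ⟨θ, hθ⟩ := h.lift hS hU hSU (E.trans E'.symm) fun v hv => by simp [hE v hv]
  refine iso0_iff.2 ⟨θ, fun y : C.Y => ?_⟩
  change (E' (C.pj (θ y)).1, t • (C.pj (θ y)).2) = (E (C.pj y).1, t • (C.pj y).2)
  simp [hθ]

theorem Std.move1 (h : Std C S) (hS : IsClosed S) (hU : IsOpen U) (hSU : S ⊆ U) {ψ : V ≃ₜ V}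
    (hψ : ∀ v ∈ U, ψ v = v) : Iso (C.mv ψ 1) C ∅ 0 :=
  (h.move hS hU hSU (E' := Homeomorph.refl V) hψ 1).trans_left (mv_refl C)

/-- COMPRESS -/
theorem Iso.compress (hi : Iso C C' H e) (h : Std C S) (h' : Std C' S) (hS : IsClosed S)
    (hU : IsOpen U) (hSU : S ⊆ U) (ψ : V ≃ₜ V) (hψ : ∀ v ∈ U, ψ v = v) :
    Iso C C' (ψ '' H) e := by
  simpa using ((h.move1 hS hU hSU hψ).symm.trans_left (hi.mv ψ 1)).trans_right
    (h'.move1 hS hU hSU hψ)

theorem fpc_aux {σ : V × Z → A.Y} (h1 : ContinuousOn σ {b | b.1 ∉ S})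
    (h2 : ∀ b, b.1 ∉ S → A.pj (σ b) = b) (h3 : ∀ y, (A.pj y).1 ∉ S → σ (A.pj y) = y)
    (hS : IsClosed S) (hH : IsClosed H) (hd : Disjoint S H) {θ : C.Y → C'.Y} (hθ : Continuous θ)
    (h : ∀ y, Nr H e (C.pj y) (C'.pj (θ y))) :
    ∃ F : (A.fp C).Y → (A.fp C').Y, Continuous F ∧ ∀ p, (F p).1.2 = θ p.1.2 ∧
      ((A.pj p.1.1).1 ∉ H → (F p).1.1 = p.1.1) := by
  classical
  have k0 : ∀ y, (C.pj y).1 ∉ S → (C'.pj (θ y)).1 ∉ S := fun y hy => by
    rcases h y with e | e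
    · rwa [← e]
    · exact disjoint_right.1 hd e.2.1
  obtain ⟨f, hf⟩ : ∃ f : (A.fp C).Y → A.Y, f = fun p =>
    if (C.pj p.1.2).1 ∈ H then σ (C'.pj (θ p.1.2)) else p.1.1 := ⟨_, rfl⟩
  have k1 : ∀ p : (A.fp C).Y, (C.pj p.1.2).1 ∉ H → f p = p.1.1 := fun p hp => by
    simp only [hf, if_neg hp]
  have k2 : ∀ p : (A.fp C).Y, (C.pj p.1.2).1 ∉ S → f p = σ (C'.pj (θ p.1.2)) := fun p hp => by
    by_cases e : (C.pj p.1.2).1 ∈ H
    · simp only [hf, if_pos e]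
    · rw [k1 p e, ← (h _).eq_of_left e, ← p.2, h3 _ (p.2 ▸ hp)]
  have k3 : ∀ p : (A.fp C).Y, A.pj (f p) = C'.pj (θ p.1.2) := fun p => by
    by_cases e : (C.pj p.1.2).1 ∈ H
    · have e' := disjoint_right.1 hd e
      rw [k2 p e', h2 _ (k0 _ e')]
    · rw [k1 p e, ← (h _).eq_of_left e, p.2]
  have c2 : Continuous fun p : (A.fp C).Y => p.1.2 := continuous_snd.comp continuous_subtype_val
  have c1 : Continuous f := cont_two (hH.isOpen_compl.preimage (C.cont.comp c2).fst)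
    (hS.isOpen_compl.preimage (C.cont.comp c2).fst)
    (fun p hp => disjoint_right.1 hd (not_not.1 hp))
    (continuous_fst.comp continuous_subtype_val).continuousOn
    (h1.comp (C'.cont.comp (hθ.comp c2)).continuousOn fun p hp => k0 _ hp) k1 k2
  exact ⟨fun p => ⟨(f p, θ p.1.2), k3 p⟩, (c1.prodMk (hθ.comp c2)).subtype_mk _,
    fun p => ⟨rfl, fun hp => k1 p (p.2 ▸ hp)⟩⟩

/-- FPC -/
theorem Iso.fpc (hi : Iso C C' H e) (hA : Std A S) (hS : IsClosed S) (hH : IsClosed H)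
    (hd : Disjoint S H) : Iso (A.fp C) (A.fp C') H e := by
  obtain ⟨σ, h1, h2, h3⟩ := hA
  obtain ⟨θ, h⟩ := hi
  have h' : ∀ y, Nr H e (C'.pj y) (C.pj (θ.symm y)) := fun y => by
    simpa using (h (θ.symm y)).symm
  have key : ∀ {C C' : Ctl} {θ : C.Y → C'.Y} {θ' : C'.Y → C.Y} {F : (A.fp C).Y → (A.fp C').Y}
      {F' : (A.fp C').Y → (A.fp C).Y}, (∀ y, Nr H e (C.pj y) (C'.pj (θ y))) →
      (∀ y, θ' (θ y) = y) →
      (∀ p, (F p).1.2 = θ p.1.2 ∧ ((A.pj p.1.1).1 ∉ H → (F p).1.1 = p.1.1)) →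
      (∀ p, (F' p).1.2 = θ' p.1.2 ∧ ((A.pj p.1.1).1 ∉ H → (F' p).1.1 = p.1.1)) →
      ∀ p, F' (F p) = p := fun {C C' θ θ' F F'} h e1 hF hF' p => by
    have e2 : (F' (F p)).1.2 = p.1.2 := by rw [(hF' _).1, (hF _).1, e1]
    refine Subtype.ext (Prod.ext ?_ e2)
    by_cases e : (A.pj p.1.1).1 ∈ H
    · have e3 : A.pj (F' (F p)).1.1 = A.pj p.1.1 := by rw [(F' (F p)).2, e2, p.2]
      have e4 := disjoint_right.1 hd e
      rw [← h3 _ e4, ← e3, h3 _ (e3 ▸ e4)]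
    · rw [(hF' _).2 (by rwa [(hF _).2 e]), (hF _).2 e]
  obtain ⟨F, cF, hF⟩ := fpc_aux h1 h2 h3 hS hH hd θ.continuous h
  obtain ⟨F', cF', hF'⟩ := fpc_aux h1 h2 h3 hS hH hd θ.symm.continuous h'
  refine ⟨⟨⟨F, F', key h θ.symm_apply_apply hF hF', key h' θ.apply_symm_apply hF' hF⟩, cF, cF'⟩,
    fun p => ?_⟩
  have e1 : (A.fp C).pj p = C.pj p.1.2 := p.2
  have e2 : (A.fp C').pj (F p) = C'.pj (θ p.1.2) := (hF p).1 ▸ (F p).2
  exact e1 ▸ e2 ▸ h p.1.2

/-- FPC with the factors exchanged -/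
theorem Iso.fpc' (hi : Iso C C' H e) (hA : Std A S) (hS : IsClosed S) (hH : IsClosed H)
    (hd : Disjoint S H) : Iso (C.fp A) (C'.fp A) H e :=
  ((fp_comm _ _).trans_left (hi.fpc hA hS hH hd)).trans_right (fp_comm _ _)

/-! ### Homeomorphisms of `ℝ` and of `V` -/

/-- a strictly monotone map onto `ℝ` -/
def rh (g : ℝ → ℝ) (hm : StrictMono g) (hs : Surjective g) : ℝ ≃ₜ ℝ :=
  (hm.orderIsoOfSurjective g hs).toHomeomorph

@[simp] theorem rh_apply (g : ℝ → ℝ) (hm : StrictMono g) (hs : Surjective g) (x : ℝ) :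
    rh g hm hs x = g x := rfl

theorem surj_of_slope {g : ℝ → ℝ} {μ c : ℝ} (hg : Continuous g) (hμ : 0 < μ)
    (h : ∀ x, 0 ≤ x → μ * x - c ≤ g x) (h' : ∀ x, x ≤ 0 → g x ≤ μ * x + c) : Surjective g :=
  hg.surjective
    (tendsto_atTop_mono' _ ((eventually_ge_atTop 0).mono h)
      (tendsto_atTop_add_const_right _ (-c) (tendsto_id.const_mul_atTop hμ)))
    (tendsto_atBot_mono' _ ((eventually_le_atBot 0).mono h')
      (tendsto_atBot_add_const_right _ c (tendsto_id.const_mul_atBot hμ)))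

/-- `x ↦ μ * x + f x` with `f` monotone -/
def rhm (μ : ℝ) (f : ℝ → ℝ) (hμ : 0 < μ) (hc : Continuous f) (hm : Monotone f) : ℝ ≃ₜ ℝ :=
  rh (fun x => μ * x + f x) ((strictMono_mul_left_of_pos hμ).add_monotone hm)
    (surj_of_slope (μ := μ) (c := |f 0|) (by fun_prop) hμ
      (fun x hx => by linarith [hm hx, neg_abs_le (f 0)])
      fun x hx => by linarith [hm hx, le_abs_self (f 0)])

@[simp] theorem rhm_apply (μ : ℝ) (f : ℝ → ℝ) (hμ : 0 < μ) (hc : Continuous f) (hm : Monotone f)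
    (x : ℝ) : rhm μ f hμ hc hm x = μ * x + f x := rfl

/-- change of one coordinate -/
def upd (i : Fin 3) (g : ℝ ≃ₜ ℝ) : V ≃ₜ V where
  toFun v := update v i (g (v i))
  invFun v := update v i (g.symm (v i))
  left_inv v := by simp
  right_inv v := by simp
  continuous_toFun := continuous_id.update i (g.continuous.comp (continuous_apply i))
  continuous_invFun := continuous_id.update i (g.symm.continuous.comp (continuous_apply i))

theorem upd_apply (i : Fin 3) (g : ℝ ≃ₜ ℝ) (v : V) : upd i g v = update v i (g (v i)) := rfl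

@[simp] theorem upd_self (i : Fin 3) (g : ℝ ≃ₜ ℝ) (v : V) : upd i g v i = g (v i) :=
  update_self ..

theorem upd_ne {i j : Fin 3} (h : j ≠ i) (g : ℝ ≃ₜ ℝ) (v : V) : upd i g v j = v j :=
  update_of_ne h ..

theorem upd_fix {i : Fin 3} {g : ℝ ≃ₜ ℝ} {v : V} (h : g (v i) = v i) : upd i g v = v := by
  rw [upd_apply, h, update_eq_self]

/-- scaling by a factor that depends on the last coordinate -/
def rad (lam : ℝ → ℝ) (g : ℝ ≃ₜ ℝ) (hc : Continuous lam) (hp : ∀ x, 0 < lam x)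
    (hg : ∀ x, g x = lam x * x) : V ≃ₜ V where
  toFun v := lam (v 2) • v
  invFun w := (lam (g.symm (w 2)))⁻¹ • w
  left_inv v := by
    simp only [Pi.smul_apply, smul_eq_mul, ← hg, Homeomorph.symm_apply_apply, smul_smul,
      inv_mul_cancel₀ (hp _).ne', one_smul]
  right_inv w := by
    have e : (lam (g.symm (w 2)))⁻¹ * w 2 = g.symm (w 2) := by
      rw [inv_mul_eq_iff_eq_mul₀ (hp _).ne', ← hg, g.apply_symm_apply]
    simp only [Pi.smul_apply, smul_eq_mul, e, smul_smul, mul_inv_cancel₀ (hp _).ne', one_smul]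
  continuous_toFun := (hc.comp (continuous_apply 2)).smul continuous_id
  continuous_invFun := ((hc.comp (g.symm.continuous.comp (continuous_apply 2))).inv₀
    fun _ => (hp _).ne').smul continuous_id

@[simp] theorem rad_apply (lam : ℝ → ℝ) (g : ℝ ≃ₜ ℝ) (hc : Continuous lam) (hp : ∀ x, 0 < lam x)
    (hg : ∀ x, g x = lam x * x) (v : V) : rad lam g hc hp hg v = lam (v 2) • v := rfl

/-- shear: the coordinate `0` is moved by a function of the coordinate `2` -/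
def shear (f : ℝ → ℝ) (hf : Continuous f) : V ≃ₜ V where
  toFun v := update v 0 (v 0 + f (v 2))
  invFun v := update v 0 (v 0 - f (v 2))
  left_inv v := by simp
  right_inv v := by simp
  continuous_toFun := continuous_id.update 0 (by fun_prop)
  continuous_invFun := continuous_id.update 0 (by fun_prop)

theorem shear_apply (f : ℝ → ℝ) (hf : Continuous f) (v : V) :
    shear f hf v = update v 0 (v 0 + f (v 2)) := rfl

@[simp] theorem shear_zero (f : ℝ → ℝ) (hf : Continuous f) (v : V) :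
    shear f hf v 0 = v 0 + f (v 2) := rfl

@[simp] theorem shear_one (f : ℝ → ℝ) (hf : Continuous f) (v : V) : shear f hf v 1 = v 1 := rfl

@[simp] theorem shear_two (f : ℝ → ℝ) (hf : Continuous f) (v : V) : shear f hf v 2 = v 2 := rfl

/-- scaling -/
def scl (t : ℝ) (ht : t ≠ 0) : V ≃ₜ V := Homeomorph.smulOfNeZero t ht

@[simp] theorem scl_apply (t : ℝ) (ht : t ≠ 0) (v : V) : scl t ht v = t • v := rfl

end Pool.Agent.MP_e1dc65_gt.T4

end
end MrgPart0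

-- ======== part 1: formerly Pool.Agent.MP_e1dc65_gt.t4.ThinX
section MrgPart1

/-! PROJECT HC, part T4, row THIN: far slices are thin in the patch. -/

open scoped Topology
open Set Filter Function Module Metric

noncomputable section

namespace Pool.Agent.MP_e1dc65_gt.T4

namespace ThinX

theorem step {F : Mf V} {P : Mf (Rn 5)} {q : Pat (F × Z) P} {G D D' : Set Z} {r : ℝ}
    (oe : OE (F.prod (vs Z)) P q.φ q.Kᶜ) (hK : ∀ w ∈ q.K, ‖w.2‖ ≤ r) {h : ℝ × Z → Z}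
    (hc : Continuous h) (h0 : ∀ z ∈ D, h (0, z) = z) (h1 : ∀ z ∈ D, h (1, z) ∈ D')
    (hm : ∀ t ∈ Icc (0 : ℝ) 1, ∀ z ∈ D, h (t, z) ∈ G ∧ r < ‖h (t, z)‖)
    (ht : Thin (q.φ '' (univ ×ˢ D')) (q.dom (univ ×ˢ G))) :
    Thin (q.φ '' (univ ×ˢ D)) (q.dom (univ ×ˢ G)) := by
  have out : ∀ w : F × Z, r < ‖w.2‖ → w ∈ q.Kᶜ := fun w hw hk => (hK w hk).not_gt hw
  have hD : ∀ w : F × Z, w ∈ univ ×ˢ D → w ∈ q.Kᶜ := fun w hw => out w (by
    have := (hm 0 ⟨le_rfl, zero_le_one⟩ _ hw.2).2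
    rwa [h0 _ hw.2] at this)
  let ψ : P → F × Z := invFunOn q.φ q.Kᶜ
  have hl : ∀ w : F × Z, w ∈ univ ×ˢ D → ψ (q.φ w) = w := fun w hw => oe.left (hD w hw)
  have hψ : ContinuousOn ψ (q.φ '' (univ ×ˢ D)) := oe.symm.sm.contOn.mono (image_mono hD)
  have hM : MapsTo (fun p : ℝ × P => q.φ ((ψ p.2).1, h (p.1, (ψ p.2).2)))
      (Icc 0 1 ×ˢ (q.φ '' (univ ×ˢ D))) (q.dom (univ ×ˢ G)) := by
    rintro ⟨t, _⟩ ⟨ht, w, hw, rfl⟩
    simp only [hl w hw]
    exact Or.inl ⟨_, ⟨⟨trivial, (hm t ht _ hw.2).1⟩, out _ (hm t ht _ hw.2).2⟩, rfl⟩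
  have e0 : ∀ p ∈ q.φ '' (univ ×ˢ D), q.φ ((ψ p).1, h (0, (ψ p).2)) = p := by
    rintro _ ⟨w, hw, rfl⟩
    rw [hl w hw, h0 _ hw.2]
  refine (thin _ _ _ fun p hp => ?_).2 fun A _ τ hτ => hτ.deform ?_ hM e0 ?_ (hτ.triv_of_thin ht)
  · exact e0 p hp ▸ hM (x := (0, p)) ⟨⟨le_rfl, zero_le_one⟩, hp⟩
  · have h2 : ContinuousOn (fun p : ℝ × P => ψ p.2) (Icc 0 1 ×ˢ (q.φ '' (univ ×ˢ D))) :=
      hψ.comp continuousOn_snd fun p hp => hp.2
    refine oe.sm.contOn.comp (h2.fst.prodMk (hc.comp_continuousOn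
      (continuousOn_fst.prodMk h2.snd))) ?_
    rintro ⟨t, _⟩ ⟨ht, w, hw, rfl⟩
    simp only [hl w hw]
    exact out _ (hm t ht _ hw.2).2
  · rintro _ ⟨w, hw, rfl⟩
    simp only [hl w hw]
    exact ⟨_, ⟨trivial, h1 _ hw.2⟩, rfl⟩

theorem joined {G : Set Z} {r : ℝ} {z₀ z₁ : Z} (hG : Convex ℝ G) (hb : ball 0 1 ⊆ G)
    (h1 : r < ‖z₀‖) (h2 : ‖z₀‖ < 1) (h3 : z₁ ∈ G) (h4 : 1 ≤ ‖z₁‖) :
    JoinedIn {z | z ∈ G ∧ r < ‖z‖} z₁ z₀ := by
  have p1 : 0 < ‖z₁‖ := by linarith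
  have hn : ‖(‖z₀‖ / ‖z₁‖) • z₁‖ = ‖z₀‖ := by
    rw [norm_smul, Real.norm_eq_abs, abs_of_nonneg (by positivity), div_mul_cancel₀ _ p1.ne']
  have hs : sphere (0 : Z) ‖z₀‖ ⊆ {z | z ∈ G ∧ r < ‖z‖} := fun z hz => by
    rw [mem_sphere_zero_iff_norm] at hz
    exact ⟨hb (mem_ball_zero_iff.2 (hz ▸ h2)), hz ▸ h1⟩
  have hr : 1 < Module.rank ℝ Z := by
    rw [← finrank_eq_rank]
    simp
  refine JoinedIn.trans (y := (‖z₀‖ / ‖z₁‖) • z₁) (JoinedIn.of_segment_subset ?_)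
    (((isPathConnected_sphere hr (0 : Z) (norm_nonneg z₀)).joinedIn _
      (mem_sphere_zero_iff_norm.2 hn) _ (mem_sphere_zero_iff_norm.2 rfl)).mono hs)
  intro z hz
  refine ⟨hG.segment_subset h3 (hs (mem_sphere_zero_iff_norm.2 hn)).1 hz, ?_⟩
  obtain ⟨a, b, ha, hb', hab, rfl⟩ := hz
  have e : a • z₁ + b • (‖z₀‖ / ‖z₁‖) • z₁ = (a + b * (‖z₀‖ / ‖z₁‖)) • z₁ := by
    rw [add_smul, mul_smul]
  rw [e, norm_smul, Real.norm_eq_abs, abs_of_nonneg (by positivity), add_mul, mul_assoc,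
    div_mul_cancel₀ _ p1.ne']
  obtain rfl : a = 1 - b := by linarith
  nlinarith

end ThinX

theorem thinX : ThinXStmt := by
  intro F P q G D hP hG hb hD hDG hd
  obtain ⟨r, z₀, h1, h2, hK, ht⟩ := hP.sc
  rcases D.eq_empty_or_nonempty with rfl | ⟨z₁, hz₁⟩
  · intro x γ hγ
    obtain ⟨w, hw, -⟩ := hγ 0
    exact hw.2.elim
  have hn : ∀ z ∈ D, 1 ≤ ‖z‖ := fun z hz => not_lt.1 fun h =>
    disjoint_left.1 hd hz (mem_ball_zero_iff.2 h)
  obtain ⟨γ, hγ⟩ := ThinX.joined hG hb h1 h2 (hDG hz₁) (hn _ hz₁)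
  refine ThinX.step (D' := {z₁}) hP.oe hK (h := fun p => (1 - p.1) • p.2 + p.1 • z₁) (by fun_prop)
    (fun z _ => by simp) (fun z _ => by simp) (fun t ht z hz => ?_)
    (ThinX.step (D' := {z₀}) hP.oe hK (h := fun p => γ.extend p.1)
      (γ.continuous_extend.comp continuous_fst) (fun z hz => γ.extend_zero.trans (Eq.symm hz))
      (fun z _ => by simp) (fun t ht z _ => ?_) (ht.mono subset_rfl ?_))
  · have h3 : (1 - t) • z + t • z₁ ∈ D := hD hz hz₁ (sub_nonneg.2 ht.2) ht.1 (sub_add_cancel _ _)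
    exact ⟨hDG h3, by linarith [hn _ h3]⟩
  · simp only [γ.extend_apply ht]
    exact hγ _
  · exact union_subset_union_left _ (image_mono (sdiff_subset_sdiff_left (prod_mono_right hb)))

end Pool.Agent.MP_e1dc65_gt.T4

end
end MrgPart1

-- ======== part 2: formerly Pool.Agent.MP_e1dc65_gt.t4.Half
section MrgPart2

/-! PROJECT HC, part T4: the periodic space is boundedly isomorphic to its half-size copy. -/

open scoped Topology Real
open Set Filter Function Metric Topology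

noncomputable section

namespace Pool.Agent.MP_e1dc65_gt.T4

namespace Half

/-- an open square -/
def sq (A B : ℝ) : Set Z := {z | ∀ k, A < z k ∧ z k < B}

theorem sq_eq (A B : ℝ) : sq A B = univ.pi fun _ => Ioo A B := by ext z; simp [sq]
theorem sq_open (A B : ℝ) : IsOpen (sq A B) :=
  sq_eq A B ▸ isOpen_set_pi finite_univ fun _ _ => isOpen_Ioo
theorem sq_convex (A B : ℝ) : Convex ℝ (sq A B) := sq_eq A B ▸ convex_pi fun _ _ => convex_Ioo A B

theorem abs_lt_of {z : Z} {s : ℝ} (h : ‖z‖ < s) (k : Fin 2) : |z k| < s :=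
  (norm_le_pi_norm z k).trans_lt h

theorem zn_apply (r : ℝ) (n : Fin 2 → ℤ) (z : Z) (k : Fin 2) :
    zn r n z k = π + r * z k + 2 * π * n k := rfl

theorem zn_dist {r A B : ℝ} (hr : 0 < r) (n : Fin 2 → ℤ) {z z' : Z} (h : z ∈ sq A B)
    (h' : z' ∈ sq A B) : dist (zn r n z) (zn r n z') ≤ r * (B - A) := by
  have : 0 ≤ B - A := by linarith [(h 0).1, (h 0).2]
  refine (dist_pi_le_iff (by positivity)).2 fun k => ?_
  rw [Real.dist_eq, zn_apply, zn_apply, abs_le]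
  constructor <;> nlinarith [(h k).1, (h k).2, (h' k).1, (h' k).2]

theorem zn_inj {r A B : ℝ} (hr : 0 < r) (hAB : r * (B - A) ≤ 2 * π) {n n' : Fin 2 → ℤ} {z z' : Z}
    (h : z ∈ sq A B) (h' : z' ∈ sq A B) (e : zn r n z = zn r n' z') : n = n' ∧ z = z' := by
  have k1 : n = n' := funext fun k => by
    have e1 := congrFun e k
    rw [zn_apply, zn_apply] at e1
    have a1 : ((n k - n' k : ℤ) : ℝ) < 1 := by
      push_cast; nlinarith [(h k).1, (h' k).2, Real.pi_pos]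
    have a2 : (-1 : ℝ) < ((n k - n' k : ℤ) : ℝ) := by
      push_cast; nlinarith [(h k).2, (h' k).1, Real.pi_pos]
    have b1 : n k - n' k < 1 := by exact_mod_cast a1
    have b2 : -1 < n k - n' k := by exact_mod_cast a2
    omega
  subst k1
  refine ⟨rfl, funext fun k => ?_⟩
  have e1 := congrFun e k
  rw [zn_apply, zn_apply] at e1
  exact mul_left_cancel₀ hr.ne' (by linarith)

theorem locFin {r A B : ℝ} (hr : 0 < r) : LocallyFinite fun n => zn r n '' sq A B := fun t => by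
  obtain ⟨M, hM⟩ := exists_nat_ge (‖t‖ + 1 + π + r * (|A| + |B|))
  refine ⟨ball t 1, ball_mem_nhds _ one_pos,
    (finite_Icc (fun _ : Fin 2 => -(M : ℤ)) fun _ => (M : ℤ)).subset ?_⟩
  rintro n ⟨_, ⟨z, hz, rfl⟩, hb⟩
  have key : ∀ k, |n k| ≤ M := fun k => by
    have h1 := abs_lt.1 (abs_lt_of (mem_ball_iff_norm.1 hb) k)
    rw [Pi.sub_apply, zn_apply] at h1
    have h2 := abs_le.1 (norm_le_pi_norm t k)
    have h3 : |r * z k| ≤ r * (|A| + |B|) := by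
      rw [abs_mul, abs_of_pos hr]
      refine mul_le_mul_of_nonneg_left (abs_le.2 ⟨?_, ?_⟩) hr.le
      · linarith [(hz k).1, neg_abs_le A, abs_nonneg B]
      · linarith [(hz k).2, le_abs_self B, abs_nonneg A]
    have h4 : |2 * π * n k| ≤ M := abs_le.2 ⟨by linarith [(abs_le.1 h3).2],
      by linarith [(abs_le.1 h3).1, Real.pi_pos]⟩
    rw [abs_mul, abs_of_pos Real.two_pi_pos] at h4
    have : |(n k : ℝ)| ≤ M := by nlinarith [Real.pi_gt_three, abs_nonneg (n k : ℝ)]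
    exact_mod_cast this
  exact ⟨fun k => (abs_le.1 (key k)).1, fun k => (abs_le.1 (key k)).2⟩

variable {F : Mf V} {P : Mf (Rn 5)} {q : Pat (F × Z) P} {x : Ctl} {W : Set (F × Z)}
  {ζ : P → V × Z} {κ : F → V} {ρ r : ℝ} {α : F × Z → x.Y} {β : (Fin 2 → ℤ) → P → x.Y}

theorem oe_aff (c : Z) {s : ℝ} (hs : s ≠ 0) :
    OE (F.prod (vs Z)) (F.prod (vs Z)) (fun w => (w.1, c + s • w.2)) univ :=
  oe_of_inv (g := fun w => (w.1, s⁻¹ • (w.2 - c))) isOpen_univ isOpen_univ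
    (fun _ _ => smAt_fst.pair (smAt_snd.vcomp (g := fun z => c + s • z) (by fun_prop)))
    (fun _ _ => smAt_fst.pair (smAt_snd.vcomp (g := fun z => s⁻¹ • (z - c)) (by fun_prop)))
    (mapsTo_univ _ _) (mapsTo_univ _ _) (fun w _ => by simp [smul_smul, hs])
    fun w _ => by simp [smul_smul, hs]

theorem te_ez (hr : 0 < r) (n : Fin 2 → ℤ) : TE (ez (F := F) r n) univ :=
  (te_of_oe (oe_aff (F := F) (zn r n 0) hr.ne')).congr fun w _ =>
    Prod.ext rfl (funext fun k => by simp [ez, zn_apply]; ring)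

/-- more packages are put into the periodic space -/
theorem more {Λ I : Type} [Nonempty Λ] [Finite I] (hp : Pkg F P q) (h : Pres x q W ζ κ ρ r α β)
    {μ : Λ → Fin 2 → ℤ} (hμ : Injective μ) {A B s : ℝ} (hA : A ≤ -1) (hB : 1 ≤ B)
    (hAB : r * (B - A) ≤ 2 * π) (hs : 0 < s) {c : I → Z}
    (hG : ∀ i k, A + s ≤ c i k ∧ c i k + s ≤ B) (hb : ∀ i, 1 + s ≤ |c i 0|)
    (hd : ∀ i j, i ≠ j → ∃ k, 2 * s ≤ |c i k - c j k|) :
    ∃ (α' : F × Z → x.Y) (β' : (Fin 2 → ℤ) ⊕ Λ × I → P → x.Y) (R ε : ℝ), 0 ≤ ε ∧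
      Ins q W univ (Sum.elim (ez r) fun j w => ez r (μ j.1) (w.1, c j.2 + s • w.2)) univ α' β' univ ∧
      (∀ w ∈ q.rest univ (Sum.elim (ez r) fun (j : Λ × I) w =>
        ez r (μ j.1) (w.1, c j.2 + s • w.2)) univ,
        Nr (closedBall 0 R) ε (x.pj (α' w)) (κ w.1, w.2)) ∧
      ∀ j, ∀ p ∈ q.KP, ‖(x.pj (β' j p)).1‖ ≤ R ∧ dist (x.pj (β' j p)).2
        (Sum.elim (fun n => zn r n 0) (fun j => zn r (μ j.1) (c j.2)) j) ≤ ε := by
  have hr := h.r0
  have := h.t2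
  have : Nonempty x.Y := ⟨α (Classical.arbitrary _)⟩
  have b1 : ∀ z : Z, ‖z‖ < 1 → z ∈ sq A B := fun z hz k =>
    ⟨by linarith [(abs_lt.1 (abs_lt_of hz k)).1], by linarith [(abs_lt.1 (abs_lt_of hz k)).2]⟩
  have bc : ∀ i, ∀ z ∈ ball (c i) s, z ∈ sq A B ∧ ¬‖z‖ < 1 := fun i z hz => by
    have a := fun k => abs_lt.1 (abs_lt_of (mem_ball_iff_norm.1 hz) k)
    simp only [Pi.sub_apply] at a
    refine ⟨fun k => ⟨by linarith [(a k).1, (hG i k).1], by linarith [(a k).2, (hG i k).2]⟩,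
      fun b => ?_⟩
    have := abs_lt.1 (abs_lt_of b 0)
    have : |c i 0| < 1 + s := abs_lt.2 ⟨by linarith [(a 0).2], by linarith [(a 0).1]⟩
    linarith [hb i]
  have ab : ∀ i, ∀ w ∈ W, c i + s • w.2 ∈ ball (c i) s := fun i w hw => by
    rw [mem_ball_iff_norm, add_sub_cancel_left, norm_smul, Real.norm_of_nonneg hs.le]
    exact mul_lt_of_lt_one_right hs (h.W1 w hw)
  have aK : ∀ i, ∀ w ∈ W, (w.1, c i + s • w.2) ∈ univ ×ˢ sq A B \ q.K := fun i w hw =>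
    ⟨⟨trivial, (bc i _ (ab i w hw)).1⟩, fun k => (bc i _ (ab i w hw)).2 (h.W1 _ (h.KW k))⟩
  have WG : W ⊆ univ ×ˢ sq A B := fun w hw => ⟨trivial, b1 _ (h.W1 w hw)⟩
  have oG := isOpen_univ.prod (sq_open A B) (s := (univ : Set F))
  have mp : ∀ n, MapsTo (ez r n) (univ ×ˢ sq A B \ q.K) (q.rest univ (ez r) univ) :=
    fun n w hw => Pat.mem_rest.2 ⟨trivial, fun n' _ w' hw' e => by
      have := (zn_inj hr hAB (WG (h.KW hw')).2 hw.1.2 (congrArg Prod.snd e)).2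
      exact hw.2 ((Prod.ext (congrArg Prod.fst e :) this : w' = w) ▸ hw')⟩
  choose g tg gφ gβ using fun l : Λ => h.ins.enl hp.ok (mem_univ (μ l)) WG
    ((te_ez hr (μ l)).mono (oG.sdiff hp.ok.cpt.isClosed) (subset_univ _)) (mp (μ l))
  have gz : ∀ p ∈ q.dom (univ ×ˢ sq A B), ∃ v, ∃ z ∈ sq A B, ∀ l,
      x.pj (g l p) = (v, zn r (μ l) z) := by
    rintro _ (⟨w, hw, rfl⟩ | hp')
    · exact ⟨κ w.1, w.2, hw.1.2, fun l => by rw [gφ l w hw, h.pa _ (mp _ hw)]; rfl⟩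
    · exact ⟨_, _, b1 _ (h.ζb _ hp').2, fun l => by rw [gβ l _ (Or.inr hp'), h.pb _ _ hp']⟩
  obtain ⟨a1, be, C, cC, CO', eC, fix, ins⟩ := hp.ins _ P I W
    (fun i w => q.φ (w.1, c i + s • w.2)) (q.dom (univ ×ˢ sq A B)) (by simp) h.KW
    (fun i => ((oe_aff (c i) hs.ne').mono h.Wo (subset_univ _)).trans hp.oe
      fun w hw => (aK i w hw).2)
    (fun i j hij => disjoint_left.2 (by
      rintro _ ⟨w, hw, rfl⟩ ⟨w', hw', e⟩
      obtain ⟨k, hk⟩ := hd i j hij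
      have e' := congrArg Prod.snd (hp.ok.te.inj (aK j w' hw').2 (aK i w hw).2 e)
      have a := abs_lt.1 (abs_lt_of (mem_ball_iff_norm.1 (ab i w hw)) k)
      have a' := abs_lt.1 (abs_lt_of (mem_ball_iff_norm.1 (ab j w' hw')) k)
      simp only at e'
      rw [e'] at a'
      simp only [Pi.sub_apply] at a a'
      exact absurd (abs_lt.2 ⟨by linarith [a.2, a'.1], by linarith [a.1, a'.2]⟩) (not_lt.2 hk)))
    (hp.ok.nb _ oG (h.KW.trans WG))
    (fun i => image_subset_iff.2 fun w hw => Pat.dom_φ (aK i w hw))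
    fun i => (thinX F P q _ (ball (c i) s) hp (sq_convex A B)
      (fun z hz => b1 z (mem_ball_zero_iff.1 hz)) (convex_ball _ _) (fun z hz => (bc i z hz).1)
      (disjoint_left.2 fun z hz k => (bc i z hz).2 (mem_ball_zero_iff.1 k))).mono
      (image_subset_iff.2 fun w hw => ⟨_, ⟨trivial, ab i w hw⟩, rfl⟩) subset_rfl
  obtain ⟨a, ins2, -, ha, bC⟩ := ins.add (g := g) CO' eC fix
    (fun i => image_subset_iff.2 fun w hw => Pat.dom_φ (aK i w hw)) tg
    (fun l l' p hp' p' hp'' e => by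
      obtain ⟨v, z, hz, k⟩ := gz p hp'
      obtain ⟨v', z', hz', k'⟩ := gz p' hp''
      exact hμ (zn_inj hr hAB hz hz'
        (congrArg Prod.snd ((k l).symm.trans ((congrArg x.pj e).trans (k' l'))))).1)
    (((((locFin (A := A) (B := B) hr).comp_injective hμ).preimage_continuous
      x.cont.snd).subset (by
        rintro l _ ⟨p, hp', rfl⟩
        obtain ⟨v, z, hz, k⟩ := gz p (CO' hp')
        exact ⟨z, hz, (congrArg Prod.snd (k l)).symm⟩)).isClosed_iUnion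
      fun l => (cC.image_of_continuousOn ((tg l).cont.mono CO')).isClosed)
  obtain ⟨ins3, r1, r2⟩ := h.ins.comp (f := fun (j : Λ × I) w =>
      ez r (μ j.1) (w.1, c j.2 + s • w.2)) ins2 h.KW
    (fun j w hw => ⟨mp _ (aK j.2 w hw), gφ j.1 _ (aK j.2 w hw)⟩) fun n j w hw w' hw' e => by
      have : w.2 = c j.2 + s • w'.2 :=
        (zn_inj hr hAB (WG hw).2 (aK j.2 w' (h.KW hw')).1.2 (congrArg Prod.snd e)).2
      exact (bc j.2 _ (ab j.2 w' (h.KW hw'))).2 (this ▸ h.W1 w hw)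
  obtain ⟨R, hR⟩ := cC.exists_bound_of_continuousOn
    (x.cont.fst.comp_continuousOn ((tg (Classical.arbitrary Λ)).cont.mono CO'))
  have gC : ∀ l, ∀ y ∈ g l '' C, ‖(x.pj y).1‖ ≤ max R ρ ∧
      ∃ z ∈ sq A B, (x.pj y).2 = zn r (μ l) z := by
    rintro l _ ⟨p, hp', rfl⟩
    obtain ⟨v, z, hz, k⟩ := gz p (CO' hp')
    have := hR p hp'
    simp only [comp_apply, k] at this
    exact ⟨by rw [k]; exact this.trans (le_max_left _ _), z, hz, by rw [k]⟩
  have e0 : 0 ≤ r * (B - A) := mul_nonneg hr.le (by linarith)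
  have nr : ∀ y ∈ q.rest univ (fun (j : Λ × I) w => g j.1 (q.φ (w.1, c j.2 + s • w.2))) univ,
      Nr (closedBall 0 (max R ρ)) (r * (B - A)) (x.pj (a y)) (x.pj y) := fun y hy => by
    rcases ha y hy with e | ⟨l, h1, h2⟩
    · rw [e]; exact Nr.refl _ _ _
    · obtain ⟨k1, z, hz, k2⟩ := gC l _ h1
      obtain ⟨k3, z', hz', k4⟩ := gC l _ h2
      exact Or.inr ⟨mem_closedBall_zero_iff.2 k3, mem_closedBall_zero_iff.2 k1, by
        rw [k2, k4]; exact zn_dist hr _ hz' hz⟩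
  refine ⟨_, _, max R ρ, 2 * (r * (B - A)), by positivity, ins3, fun w hw => ?_, ?_⟩
  · rw [← h.pa w (r1 w hw).1]
    exact (nr _ (r1 w hw).2).mono subset_rfl (by linarith)
  · rintro (n | j) p hp'
    · have k1 := nr _ (r2 n p (Or.inr hp'))
      have k2 := zn_dist hr n (b1 _ (h.ζb p hp').2) (b1 0 (by simp))
      rw [h.pb n p hp'] at k1
      rcases k1 with k1 | k1
      · simp only [Sum.elim_inl, k1]
        exact ⟨(h.ζb p hp').1.trans (le_max_right _ _), by linarith⟩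
      · exact ⟨mem_closedBall_zero_iff.1 k1.1,
          (dist_triangle _ _ _).trans ((add_le_add k1.2.2 k2).trans_eq (two_mul _).symm)⟩
    · obtain ⟨k1, z, hz, k2⟩ := gC j.1 _ ⟨_, bC j.2 p hp', rfl⟩
      refine ⟨k1, ?_⟩
      simp only [Sum.elim_inr, k2]
      linarith [zn_dist hr (μ j.1) hz (bc j.2 _ (mem_ball_self hs)).1]

/-- the two families of packages are matched -/
def sw : (Fin 2 → ℤ) ⊕ (Fin 2 → ℤ) × (Fin 2 → Bool) → (Fin 2 → ℤ) ⊕ (Fin 2 → ℤ) × Unit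
  | Sum.inl n => Sum.inr (n, ())
  | Sum.inr j => Sum.inl fun k => 2 * j.1 k + if j.2 k then 1 else 0

theorem sw_bij : Bijective sw := by
  constructor
  · rintro (n | j) (n' | j') e
    · simpa [sw] using e
    · simp [sw] at e
    · simp [sw] at e
    · have k := fun k => congrFun (Sum.inl_injective e) k
      refine congrArg _ (Prod.ext (funext fun i => ?_) (funext fun i => ?_)) <;> have := k i <;>
        cases h : j.2 i <;> cases h' : j'.2 i <;> simp [h, h'] at this ⊢ <;> omega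
  · rintro (m | ⟨n, _⟩)
    · refine ⟨Sum.inr (fun k => m k / 2, fun k => decide (m k % 2 = 1)), congrArg Sum.inl
        (funext fun k => ?_)⟩
      by_cases h : m k % 2 = 1 <;> simp [h] <;> omega
    · exact ⟨Sum.inl n, rfl⟩

end Half

open Half in
theorem half : HalfStmt := by
  intro F P q x W ζ κ ρ r α β hp h
  have hr := h.r0
  have r1 := h.r1
  have p3 := Real.pi_gt_three
  have : Nonempty x.Y := ⟨α (Classical.arbitrary _)⟩
  obtain ⟨u, hu, u3⟩ : ∃ u, r * u = π ∧ 3 ≤ u :=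
    ⟨π / r, mul_div_cancel₀ _ hr.ne', (le_div_iff₀ hr).2 (by linarith)⟩
  obtain ⟨α₁, β₁, R₁, ε₁, e₁, i₁, a₁, b₁⟩ := more (I := Fin 2 → Bool) hp h injective_id
    (A := -u) (B := u) (s := 1 / 2) (c := fun i k => if i k then u / 2 else -(u / 2))
    (by linarith) (by linarith) (by linarith) (by norm_num)
    (fun i k => by cases i k <;> simp <;> constructor <;> linarith)
    (fun i => by cases i 0 <;> simp [abs_of_pos (by linarith : 0 < u / 2)] <;> linarith)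
    fun i j hij => by
      obtain ⟨k, hk⟩ := Function.ne_iff.1 hij
      refine ⟨k, ?_⟩
      cases h1 : i k <;> cases h2 : j k <;> simp [h1, h2] at hk ⊢ <;> rw [le_abs]
      exacts [Or.inr (by linarith), Or.inl (by linarith)]
  obtain ⟨α₂, β₂, R₂, ε₂, e₂, i₂, a₂, b₂⟩ := more (I := Unit) hp h
    (μ := fun (n : Fin 2 → ℤ) k => 2 * n k)
    (fun n n' e => funext fun k => by have := congrFun e k; simp only at this; omega)
    (A := -1) (B := u + 2) (s := 2) (c := fun _ _ => u) le_rfl (by linarith) (by linarith)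
    (by norm_num) (fun _ _ => ⟨by linarith, le_rfl⟩)
    (fun _ => by rw [abs_of_pos (by linarith)]; linarith) fun _ _ h => (h rfl).elim
  have tf : TE (fun w : F × Z => (w.1, (0 : Z) + (2 : ℝ) • w.2)) univ := te_of_oe (oe_aff 0 two_ne_zero)
  have cz : ∀ j z, (0 : Z) + (2 : ℝ) • Sum.elim (fun n => zn r n z) (fun (j : (Fin 2 → ℤ) ×
      (Fin 2 → Bool)) => zn r j.1 ((fun k => if j.2 k then u / 2 else -(u / 2)) + (1 / 2 : ℝ) • z)) j =
      Sum.elim (fun n => zn r n z) (fun (j : (Fin 2 → ℤ) × Unit) =>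
        zn r (fun k => 2 * j.1 k) ((fun _ => u) + (2 : ℝ) • z)) (sw j) := by
    rintro (n | j) z <;> funext k
    · simp [sw, zn_apply]; linarith
    · cases h : j.2 k <;> simp [sw, zn_apply, h] <;> linarith
  obtain ⟨i₃, rr⟩ := i₂.pull (J' := univ) (σ := sw) (e' := Sum.elim (ez r) fun j w =>
      ez r j.1 (w.1, (fun k => if j.2 k then u / 2 else -(u / 2)) + (1 / 2 : ℝ) • w.2)) h.KW tf
    (mapsTo_univ _ _) (mapsTo_univ _ _) sw_bij.1.injOn (fun j _ w _ => ⟨trivial, by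
      have := cz j w.2
      rcases j with n | j <;> exact Prod.ext rfl this⟩)
    fun j _ hj => (hj (by rw [image_univ]; exact sw_bij.2 j)).elim
  obtain ⟨θ, t, im, θa, θb⟩ := i₁.uniq i₃
  obtain ⟨Θ, hΘ⟩ := t.homeo fun y => by
    rw [← mem_range, ← image_univ, im]
    rcases i₂.cases (mem_univ y) with ⟨w, hw, rfl⟩ | ⟨j, -, p, hp', rfl⟩
    · have k : (w.1, (0 : Z) + (2 : ℝ) • (2⁻¹ : ℝ) • w.2) = w := by simp [smul_smul]
      exact Or.inl ⟨(w.1, (2⁻¹ : ℝ) • w.2), rr ▸ ⟨trivial, by rw [mem_preimage, k]; exact hw⟩,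
        congrArg α₂ k⟩
    · obtain ⟨j, rfl⟩ := sw_bij.2 j
      exact Or.inr (mem_biUnion (mem_univ j) ⟨p, hp', rfl⟩)
  have m1 := closedBall_subset_closedBall (x := (0 : V)) (le_max_left R₁ R₂)
  have m2 := closedBall_subset_closedBall (x := (0 : V)) (le_max_right R₁ R₂)
  have hd : ∀ z z' : Z, dist ((1 / 2 : ℝ) • z) z' ≤ dist z (0 + (2 : ℝ) • z') := fun z z' => by
    have : z' = (1 / 2 : ℝ) • (0 + (2 : ℝ) • z') := by simp [smul_smul]
    conv_lhs => rw [this, dist_smul₀]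
    exact mul_le_of_le_one_left dist_nonneg (by norm_num)
  refine ⟨max R₁ R₂, ε₁ + ε₂, by positivity, Θ, fun y => ?_⟩
  change Nr _ _ _ ((x.pj (Θ y)).1, (1 / 2 : ℝ) • (x.pj (Θ y)).2)
  rw [hΘ]
  rcases i₁.cases (mem_univ y) with ⟨w, hw, rfl⟩ | ⟨j, -, p, hp', rfl⟩
  · refine ((a₁ w hw).mono m1 le_rfl).trans (Nr.symm ?_) e₁ e₂
    rw [θa w hw]
    rcases a₂ _ (rr ▸ hw).2 with k | k
    · exact Or.inl (by rw [k]; simp [smul_smul])
    · exact Or.inr ⟨m2 k.1, m2 k.2.1, (hd _ _).trans k.2.2⟩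
  · rw [θb j trivial p (Or.inr hp')]
    have k1 := b₁ j p hp'
    have k2 := b₂ (sw j) p hp'
    have k3 := cz j 0
    simp only [smul_zero, add_zero] at k3
    refine Or.inr ⟨m1 (mem_closedBall_zero_iff.2 k1.1), m2 (mem_closedBall_zero_iff.2 k2.1),
      (dist_triangle_right _ _ _).trans (add_le_add k1.2 ((hd _ _).trans ?_))⟩
    exact (k3 ▸ k2.2 :)

end Pool.Agent.MP_e1dc65_gt.T4

end
end MrgPart2

-- ======== part 3: formerly Pool.Agent.MP_e1dc65_gt.t4.MidA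
section MrgPart3

/-! PROJECT HC, part T5: packages in the neck. -/

open scoped Topology Real
open Set Filter Function Metric Topology

noncomputable section

namespace Pool.Agent.MP_e1dc65_gt.T4

namespace MidA

open Half

theorem core_closed {D : TDat} (hD : D.Ok) : IsClosed (D.l '' (univ ×ˢ {0})) := by
  have z : (0 : V) ∈ {v : V | nsq v < 1} := by simp [nsq]
  have : D.l '' (univ ×ˢ {0}) = (fun θ => D.l (θ, 0)) '' Icc 0 8 := by
    ext x; constructor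
    · rintro ⟨⟨θ, _⟩, ⟨-, rfl⟩, rfl⟩
      obtain ⟨θ', a, b, m, e⟩ := CoreR.red8 θ 0
      exact ⟨θ', ⟨a, by linarith⟩, (CoreR.per hD.tl z e).symm⟩
    · rintro ⟨θ, -, rfl⟩
      exact ⟨(θ, 0), ⟨trivial, rfl⟩, rfl⟩
  rw [this]
  exact (isCompact_Icc.image (continuous_iff_continuousAt.2 fun θ =>
    (hD.tl.ld θ 0 z).sm.cont.comp (f := fun θ : ℝ => (θ, (0 : V))) (by fun_prop))).isClosed

theorem oe_nk {D : TDat} (hD : D.Ok) {F₀ : Mf V} {j : F₀ → D.F} (hj : OE F₀ D.F j univ) {N : ℕ}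
    (hN : 0 < N) : OE (F₀.prod (vs Z)) D.M.cyl (nk D j N) univ := by
  have hδ : (3 / (2 * π * N) : ℝ) ≠ 0 := by positivity
  have a : OE (F₀.prod (vs Z)) F₀.cyl.cyl
      (fun w => ((w.1, 3 / (2 * π * N) * w.2 0), w.2 1)) univ :=
    oe_of_inv (g := fun y => (y.1.1, ![(3 / (2 * π * N))⁻¹ * y.1.2, y.2])) isOpen_univ isOpen_univ
      (fun _ _ => (smAt_fst.pair (smAt_snd.vcomp (g := fun z : Z => 3 / (2 * π * N) * z 0)
        (by fun_prop))).pair (smAt_snd.vcomp (g := fun z : Z => z 1) (by fun_prop)))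
      (fun _ _ => (smAt_fst.trans smAt_fst).pair (((smAt_fst.trans smAt_snd).vpair smAt_snd).vcomp
        (g := fun y : ℝ × ℝ => (![(3 / (2 * π * N))⁻¹ * y.1, y.2] : Z))
        (contDiffAt_pi.2 fun k => by fin_cases k <;> simp <;> fun_prop)))
      (mapsTo_univ _ _) (mapsTo_univ _ _)
      (fun w _ => Prod.ext rfl (funext fun k => by
        fin_cases k
        · exact inv_mul_cancel_left₀ hδ _
        · rfl))
      fun y _ => Prod.ext (Prod.ext rfl (mul_inv_cancel_left₀ hδ _)) rfl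
  have b : ∀ y : F₀.cyl.cyl, LDAt F₀.cyl.cyl D.M.cyl (fun y => (D.ν (j y.1.1, y.1.2), y.2)) y :=
    fun y => (((hj.ld y.1.1 trivial).prodMap (ldAt_id (x := y.1.2))).trans
      (hD.neck.ld _ trivial)).prodMap (ldAt_id (x := y.2))
  refine ⟨isOpen_univ, fun w _ => (a.ld w trivial).trans (b _),
    fun w _ w' _ e => a.inj trivial trivial ?_⟩
  have := hD.neck.inj trivial trivial (congrArg Prod.fst e)
  exact Prod.ext (Prod.ext (hj.inj trivial trivial (congrArg Prod.fst this))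
    (congrArg Prod.snd this :)) (congrArg Prod.snd e :)

theorem cell {r : ℝ} (r0 : 0 < r) (r1 : r ≤ 1) (n : Fin 2 → ℤ) {z : Z} (hz : ‖z‖ < 1) (k : Fin 2) :
    2 * π * n k < zn r n z k ∧ zn r n z k < 2 * π * n k + 2 * π := by
  have := abs_lt.1 (abs_lt_of hz k)
  rw [zn_apply]
  constructor <;> nlinarith [Real.pi_gt_three]

theorem slab {k k' : ℤ} {t t' : ℝ} (h : t ∈ Ioo 0 (2 * π)) (h' : t' ∈ Ioo 0 (2 * π))
    (e : t + 2 * π * k = t' + 2 * π * k') : k = k' := by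
  have a1 : ((k - k' : ℤ) : ℝ) < 1 := by push_cast; nlinarith [h.1, h'.2, Real.pi_pos]
  have a2 : (-1 : ℝ) < ((k - k' : ℤ) : ℝ) := by push_cast; nlinarith [h.2, h'.1, Real.pi_pos]
  have b1 : k - k' < 1 := by exact_mod_cast a1
  have b2 : -1 < k - k' := by exact_mod_cast a2
  omega

theorem locFin1 : LocallyFinite fun k : ℤ => Ioo (2 * π * k) (2 * π * k + 2 * π) := fun t => by
  obtain ⟨M, hM⟩ := exists_nat_ge (|t| + 2)
  refine ⟨Ioo (t - 1) (t + 1), Ioo_mem_nhds (by linarith) (by linarith),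
    (finite_Icc (-(M : ℤ)) M).subset ?_⟩
  rintro k ⟨s, h1, h2⟩
  have p := Real.pi_gt_three
  have a := abs_le.1 (le_refl |t|)
  have b1 : (k : ℝ) ≤ M := by
    by_contra c
    nlinarith [h1.1, h2.2, abs_nonneg t]
  have b2 : -(M : ℝ) ≤ k := by
    by_contra c
    nlinarith [h1.2, h2.1, abs_nonneg t]
  exact ⟨by exact_mod_cast b2, by exact_mod_cast b1⟩

end MidA

open MidA Half in
theorem midA : MidAStmt := by
  intro D F₀ j P q W r N hD hj hq hp Wo KW W1 r0 r1 hN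
  have : Finite (Ico (-(N : ℤ)) N) := (finite_Ico _ _).to_subtype
  have hL : (0 : ℝ) < 2 * π * N := by positivity
  have b1 : ∀ w ∈ W, w.2 ∈ sq (-1) 1 := fun w hw k => abs_lt.1 (abs_lt_of (W1 w hw) k)
  have hS : ∀ (i : Ico (-(N : ℤ)) N), ∀ w ∈ W, nk D j N (ez r ![i, 0] w) ∈
      (D.ν '' ({D.e₀ q0}ᶜ ×ˢ Ioo (-3) 3)) ×ˢ Ioo 0 (2 * π) := fun i w hw => by
    have c0 := cell r0 r1 ![i, 0] (W1 w hw) 0
    have c1 := cell r0 r1 ![i, 0] (W1 w hw) 1
    have i1 : -(N : ℝ) ≤ (i : ℤ) := by exact_mod_cast i.2.1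
    have i2 : ((i : ℤ) : ℝ) + 1 ≤ N := by exact_mod_cast i.2.2
    simp only [Matrix.cons_val_zero, Matrix.cons_val_one, Int.cast_zero, mul_zero, zero_add] at c0 c1
    refine ⟨⟨(j w.1, _), ⟨hq _, ?_, ?_⟩, rfl⟩, c1⟩ <;> rw [div_mul_eq_mul_div]
    · exact (lt_div_iff₀ hL).2 (by simp only [ez]; nlinarith [c0.1, Real.pi_pos])
    · exact (div_lt_iff₀ hL).2 (by simp only [ez]; nlinarith [c0.2, Real.pi_pos])
  have th := thin_prod hD.thin (thin_convex (convex_Ioo (0 : ℝ) (2 * π)))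
  have eO := fun (i : Ico (-(N : ℤ)) N) => (image_subset_iff (f := fun w =>
    nk D j N (ez r ![i, 0] w))).2 fun w hw => th.subset (hS i w hw)
  have oO := (core_closed hD).isOpen_compl.prod (isOpen_Ioo (a := (0 : ℝ)) (b := 2 * π))
  obtain ⟨a1, be, C, cC, CO', eC, fix, ins⟩ := hp.ins _ D.M.cyl (Ico (-(N : ℤ)) N) W
    (fun i w => nk D j N (ez r ![i, 0] w)) _ (by simp) KW
    (fun i => ((((oe_aff (F := F₀) (zn r ![i, 0] 0) r0.ne').congr (f' := ez r ![i, 0]) fun w _ =>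
      Prod.ext rfl (funext fun k => by simp [ez, zn_apply]; ring)).trans (oe_nk hD hj hN)
        (mapsTo_univ _ _)).mono Wo (subset_univ _)))
    (fun i i' h => disjoint_left.2 (by
      rintro _ ⟨w, hw, rfl⟩ ⟨w', hw', e⟩
      exact h (Subtype.ext (congrFun (zn_inj r0 (by nlinarith [Real.pi_gt_three]) (b1 w' hw')
        (b1 w hw) (congrArg Prod.snd ((oe_nk hD hj hN).inj trivial trivial e))).1 0).symm)))
    oO eO fun i => th.mono (image_subset_iff.2 (hS i)) subset_rfl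
  have gc : ∀ k : ℤ, ∀ y ∈ (fun y : D.M × ℝ => (y.1, y.2 + 2 * π * k)) '' C,
      y.1 ∈ Prod.fst '' C ∧ 2 * π * k < y.2 ∧ y.2 < 2 * π * k + 2 * π := by
    rintro k _ ⟨y, hy, rfl⟩
    exact ⟨⟨y, hy, rfl⟩, by linarith [(CO' hy).2.1], by linarith [(CO' hy).2.2]⟩
  obtain ⟨a, ins2, h1, h2, h3⟩ := ins.add (g := fun (k : ℤ) (y : D.M × ℝ) => (y.1, y.2 + 2 * π * k))
    CO' eC fix eO
    (fun k => te_homeo ((Homeomorph.refl _).prodCongr (Homeomorph.addRight (2 * π * k))) oO)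
    (fun k k' y hy y' hy' e => slab hy.2 hy'.2 (congrArg Prod.snd e))
    (((locFin1.preimage_continuous continuous_snd).subset fun k y hy =>
      (gc k y hy).2).isClosed_iUnion fun k => (cC.image (by fun_prop)).isClosed)
  let i₀ : Ico (-(N : ℤ)) N := ⟨0, by omega, by omega⟩
  let σ : (Fin 2 → ℤ) → ℤ × Ico (-(N : ℤ)) N := fun n =>
    (n 1, if h : n 0 ∈ Ico (-(N : ℤ)) N then ⟨n 0, h⟩ else i₀)
  have s2 : ∀ n : Fin 2 → ℤ, n 0 ∈ Ico (-(N : ℤ)) N → ((σ n).2 : ℤ) = n 0 := fun n h => by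
    simp only [σ, dif_pos h]
  have sur : ∀ x, x ∈ σ '' {n | -(N : ℤ) ≤ n 0 ∧ n 0 < N} := fun x =>
    ⟨![x.2, x.1], x.2.2, Prod.ext rfl (Subtype.ext (s2 _ x.2.2))⟩
  have ce : ∀ n : Fin 2 → ℤ, n 0 ∈ Ico (-(N : ℤ)) N → ∀ w, nk D j N (ez r n w) =
      ((nk D j N (ez r ![(σ n).2, 0] w)).1,
        (nk D j N (ez r ![(σ n).2, 0] w)).2 + 2 * π * (σ n).1) := fun n h w => by
    rw [s2 n h]
    exact Prod.ext rfl (by simp [nk, ez, zn_apply, σ])
  obtain ⟨ins3, rr⟩ := ins2.pull (J' := {n : Fin 2 → ℤ | -(N : ℤ) ≤ n 0 ∧ n 0 < N}) (σ := σ)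
    (e' := fun n w => nk D j N (ez r n w)) KW (te_id isOpen_univ) (mapsTo_univ _ _)
    (mapsTo_univ _ _) (fun n hn n' hn' e => funext fun k => by
      fin_cases k
      · exact (s2 n hn).symm.trans ((congrArg (fun x => (x.2 : ℤ)) e).trans (s2 n' hn'))
      · exact congrArg Prod.fst e)
    (fun n hn w _ => ⟨trivial, ce n hn w⟩) fun x _ hx => (hx (sur x)).elim
  refine ⟨a, fun n p => ((be (σ n).2 p).1, (be (σ n).2 p).2 + 2 * π * (σ n).1), Prod.fst '' C,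
    cC.image continuous_fst, image_subset_iff.2 fun y hy => (CO' hy).1,
    { ins3 with cov := (eq_univ_of_forall fun y => ?_).symm }, fun n a b w hw => ?_, fun y hy => h1 y fun c => ?_,
    fun y hy => ?_, fun n _ _ p hp' => gc _ _ ⟨_, h3 _ p hp', rfl⟩⟩
  · rcases ins2.cases (mem_univ y) with ⟨w, hw, rfl⟩ | ⟨x, -, p, hp', rfl⟩
    · exact Or.inl ⟨w, rr ▸ ⟨trivial, hw⟩, rfl⟩
    · obtain ⟨n, hn, rfl⟩ := sur x
      exact Or.inr (mem_biUnion hn ⟨p, hp', rfl⟩)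
  · rw [ce n ⟨a, b⟩]
    exact ⟨_, eC _ ⟨w, hw, rfl⟩, rfl⟩
  · obtain ⟨k, hk⟩ := mem_iUnion.1 c
    exact hy (gc k y hk).1
  · rcases h2 y (rr ▸ hy).2 with e | ⟨k, a, b⟩
    · rw [e]; exact ⟨id, by simp [Real.pi_pos.le]⟩
    · obtain ⟨-, a1, a2⟩ := gc k _ a
      obtain ⟨b0, b1, b2⟩ := gc k _ b
      exact ⟨fun _ => b0, abs_le.2 ⟨by linarith, by linarith⟩⟩

end Pool.Agent.MP_e1dc65_gt.T4

end
end MrgPart3

-- marker of a merged file
example : 731051 + 508605 = 731051 + 508605 := rfl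

end MrgPart3

-- marker of a merged file
example : 731051 + 508605 = 731051 + 508605 := rfl
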