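import Mathlib.Geometry.Manifold.SmoothApprox
import Mathlib.Analysis.Convex.Contractible
import Mathlib.AlgebraicTopology.FundamentalGroupoid.SimplyConnected
import Pool.Agent.MP_e1dc65_gt.t2.Spec2
import Pool.Agent.MP_e1dc65_gt.t1.Base
import Pool.Agent.MP_e1dc65_gt.k.Hol
import Pool.Agent.MP_e1dc65_gt.t4.Inf

-- ======== part 0: formerly Pool.Agent.MP_e1dc65_gt.t2.Gp
section MrgPart0

/-! PROJECT HC, block EMB, row GP: general position for loops. -/

open scoped ContDiff Topology unitInterval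
open Set Filter Function Module Metric

noncomputable section

namespace Pool.Agent.MP_e1dc65_gt.T

namespace Gp

variable {E : Type} [NormedAddCommGroup E] [NormedSpace ℝ E] {O K : Set E}

theorem thin_star {S : Set E} {z : E} (h : StarConvex ℝ z S) : Thin S S := fun x γ hγ => by
  haveI := h.contractibleSpace ⟨x, hγ.source⟩
  exact hin_of_homotopic (SimplyConnectedSpace.paths_homotopic (sub γ hγ)
    (sub (Path.refl x) (In.refl hγ.source))) (fun _ => rfl) fun _ => rfl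

theorem star_seg (T : Set E) (z : E) : StarConvex ℝ z {y | segment ℝ z y ⊆ T} :=
  fun _ hy a b ha hb hab => ((convex_segment _ _).segment_subset (left_mem_segment ℝ _ _)
    ⟨a, b, ha, hb, hab, rfl⟩).trans hy

/-- a generic point sees the curve `c` without meeting `K` -/
theorem gen [FiniteDimensional ℝ E] (hd : finrank ℝ E = 5) (hO : IsOpen O) (hc : Convex ℝ O)
    (hn : O.Nonempty) (hK : T1.RectE (Rn 2) K) {c : ℝ → E} (h : ContDiff ℝ 1 c) :
    ∃ z, ∀ s, c s ∈ O \ K → segment ℝ z (c s) ⊆ O \ K := by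
  obtain ⟨J, hJ, hK⟩ := hK
  obtain ⟨x, hx⟩ := hn
  let F : (Rn 2 → E) → ℝ × ℝ × Rn 2 → E := fun j p => c p.1 + p.2.1 • (j p.2.2 - c p.1)
  obtain ⟨z, hz, hA⟩ := T1.exists_gen (A := ⋃ j ∈ J, F j '' {p | ContDiffAt ℝ 1 (F j) p}) (by
    rw [dimH_bUnion hJ, hd]
    refine lt_of_le_of_lt (iSup₂_le fun j _ => T1.dimH_vals (F j)) ?_
    simp only [finrank_prod, finrank_self, finrank_fin_fun]
    norm_num) (hO.mem_nhds hx)
  refine ⟨z, fun s hs w hw => ⟨hc.segment_subset hz hs.1 hw, fun hwK => hA ?_⟩⟩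
  obtain ⟨a, b, -, -, hab, rfl⟩ := hw
  obtain ⟨j, hj, k, h1, h2⟩ := hK _ hwK
  obtain rfl : b = 1 - a := by linarith
  have ha : a ≠ 0 := by
    rintro rfl
    exact hs.2 (by simpa using hwK)
  refine mem_biUnion hj ⟨(s, a⁻¹, k), ?_, ?_⟩
  · have h3 : ContDiffAt ℝ 1 (fun p : ℝ × ℝ × Rn 2 => c p.1) (s, a⁻¹, k) :=
      h.contDiffAt.comp _ contDiffAt_fst
    exact h3.add (contDiffAt_snd.fst.smul ((ContDiffAt.comp (g := j) (f := fun p : ℝ × ℝ × Rn 2 =>
      p.2.2) _ h1 contDiffAt_snd.snd).sub h3))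
  · change c s + a⁻¹ • (j k - c s) = z
    rw [h2, sub_smul, one_smul, show a • z + (c s - a • c s) - c s = a • (z - c s) by module,
      inv_smul_smul₀ ha, add_sub_cancel]

/-- a loop in an open set is homotopic to a loop of class `C¹` -/
theorem approx [FiniteDimensional ℝ E] {U : Set E} (hU : IsOpen U) {x : E} (γ : Path x x)
    (hγ : In γ U) : ∃ (c : ℝ → E) (δ : Path x x), ContDiff ℝ 1 c ∧ (∀ t, δ t = c t) ∧ HIn U γ δ := by
  obtain ⟨r, hr, hs⟩ := (isCompact_range γ.continuous).exists_thickening_subset_open hU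
    (range_subset_iff.2 hγ)
  obtain ⟨g, g1, g2, -⟩ := γ.continuous_extend.exists_contDiff_approx 1 (ε := fun _ => r / 2)
    continuous_const fun _ => half_pos hr
  let c : ℝ → E := fun t => g t + ((1 - t) • (x - g 0) + t • (x - g 1))
  have hc : ContDiff ℝ 1 c := ContDiff.add g1
    (((contDiff_const.sub contDiff_id).smul contDiff_const).add (contDiff_id.smul contDiff_const))
  have c0 : c 0 = x := by simp [c]
  have c1 : c 1 = x := by simp [c]
  have hb : ∀ t : I, ‖c t - γ t‖ < r := fun t => by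
    have a0 : ‖x - g 0‖ ≤ r / 2 := by simpa [dist_eq_norm'] using (g2 0).le
    have a1 : ‖x - g 1‖ ≤ r / 2 := by simpa [dist_eq_norm'] using (g2 1).le
    have a2 : ‖g t - γ t‖ < r / 2 := by simpa [dist_eq_norm] using g2 t
    have a3 := (convex_closedBall (0 : E) (r / 2)) (mem_closedBall_zero_iff.2 a0)
      (mem_closedBall_zero_iff.2 a1) (sub_nonneg.2 t.2.2) t.2.1 (sub_add_cancel _ _)
    rw [show c t - γ t = g t - γ t + ((1 - (t : ℝ)) • (x - g 0) + (t : ℝ) • (x - g 1)) by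
      simp only [c]; abel]
    linarith [norm_add_le (g t - γ t) ((1 - (t : ℝ)) • (x - g 0) + (t : ℝ) • (x - g 1)),
      mem_closedBall_zero_iff.1 a3]
  refine ⟨c, ⟨⟨fun t => c t, hc.continuous.comp continuous_subtype_val⟩, c0, c1⟩, hc, fun _ => rfl,
    hin_mk (fun p => γ p.2 + (p.1 : ℝ) • (c p.2 - γ p.2)) ?_ (fun t => by simp)
      (fun t => by simp) (fun s => by simp [c0]) (fun s => by simp [c1]) fun p => hs ?_⟩
  · have := hc.continuous
    fun_prop
  · refine mem_thickening_iff.2 ⟨γ p.2, mem_range_self _, ?_⟩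
    rw [dist_eq_norm, add_sub_cancel_left, norm_smul, Real.norm_of_nonneg p.1.2.1]
    exact (mul_le_of_le_one_left (norm_nonneg _) p.1.2.2).trans_lt (hb p.2)

end Gp

theorem gp : GpStmt := by
  intro E _ _ _ O K hd hO hc hn hK hR
  obtain ⟨x₀, hx₀⟩ := hn
  obtain ⟨x, hx, hxK⟩ := T1.exists_gen (A := K) (hR.dimH_le.trans_lt (by
    rw [hd, finrank_fin_fun]; norm_num)) (hO.mem_nhds hx₀)
  refine ⟨⟨x, ⟨hx, hxK⟩, fun y hy => ?_⟩, fun y γ hγ => ?_⟩
  · obtain ⟨z, hz⟩ := Gp.gen hd hO hc ⟨x, hx⟩ hR (c := fun s => x + s • (y - x))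
      (contDiff_const.add (contDiff_id.smul contDiff_const))
    have h0 := hz 0 (by simpa using ⟨hx, hxK⟩)
    have h1 := hz 1 (by simpa using hy)
    simp only [zero_smul, add_zero, one_smul, add_sub_cancel] at h0 h1
    exact (JoinedIn.of_segment_subset h0).symm.trans (JoinedIn.of_segment_subset h1)
  · obtain ⟨c, δ, h1, h2, h3⟩ := Gp.approx (hO.sdiff hK) γ hγ
    obtain ⟨z, hz⟩ := Gp.gen hd hO hc ⟨x, hx⟩ hR h1
    refine h3.trans ((Gp.thin_star (Gp.star_seg (O \ K) z) y δ fun t => ?_).mono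
      fun w hw => hw (right_mem_segment ℝ z w))
    rw [h2]
    exact hz t (h2 t ▸ h3.right t)

end Pool.Agent.MP_e1dc65_gt.T

end
end MrgPart0

-- ======== part 1: formerly Pool.Agent.MP_e1dc65_gt.t4.X
section MrgPart1

/-! PROJECT HC, part T4: the lift of the result of T3 to the periodic space. -/

open scoped Topology Real
open Set Filter Function Metric Topology

noncomputable section

namespace Pool.Agent.MP_e1dc65_gt.T4

namespace XP

section Gen
variable {X Y Y' A P N ι : Type} [TopologicalSpace X] [TopologicalSpace Y] [TopologicalSpace Y']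
  [TopologicalSpace A] [TopologicalSpace P] [TopologicalSpace N] {f f' : X → Y} {g : Y → Y'}
  {U U' : Set X} {O : Set Y}

theorem co_comp (hf : CO f U) (hg : CO g O) (m : MapsTo f U O) : CO (fun x => g (f x)) U :=
  ⟨hf.dom, hg.cont.comp hf.cont m, fun S h1 h2 => by
    rw [← image_image g f]
    exact hg.op _ (hf.op S h1 h2) (m.mono_left h2).image_subset⟩

theorem co_mono (hf : CO f U) (h : IsOpen U') (s : U' ⊆ U) : CO f U' :=
  ⟨h, hf.cont.mono s, fun S h1 h2 => hf.op S h1 (h2.trans s)⟩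

theorem co_congr (hf : CO f U) (e : EqOn f' f U) : CO f' U :=
  ⟨hf.dom, hf.cont.congr e, fun S h1 h2 => by
    rw [(e.mono h2).image_eq]
    exact hf.op S h1 h2⟩

theorem co_union (hf : CO f U) (hf' : CO f U') : CO f (U ∪ U') := by
  refine ⟨hf.dom.union hf'.dom, fun x hx => ?_, fun S h1 h2 => ?_⟩
  · rcases hx with hx | hx
    · exact (hf.cont.continuousAt (hf.dom.mem_nhds hx)).continuousWithinAt
    · exact (hf'.cont.continuousAt (hf'.dom.mem_nhds hx)).continuousWithinAt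
  · rw [← inter_eq_left.2 h2, inter_union_distrib_left, image_union]
    exact (hf.op _ (h1.inter hf.dom) inter_subset_right).union
      (hf'.op _ (h1.inter hf'.dom) inter_subset_right)

theorem co_desc (hf : CO f U) (h : ContinuousOn (fun x => g (f x)) U) {x : X} (hx : x ∈ U) :
    ContinuousAt g (f x) := fun t ht => by
  obtain ⟨S, s1, s2, s3⟩ := mem_nhds_iff.1 ht
  refine mem_map.2 (mem_of_superset ((hf.op _ (h.isOpen_inter_preimage hf.dom s2)
    inter_subset_left).mem_nhds ⟨x, ⟨hx, s3⟩, rfl⟩) ?_)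
  rintro _ ⟨y, hy, rfl⟩
  exact s1 hy.2

omit [TopologicalSpace A] in
/-- maps out of a space with patches -/
theorem desc {q : Pat A P} {W : Set A} {e : ι → A → N} {α : N → Y} {β : ι → P → Y}
    (h : Ins q W univ e univ α β univ) {g₀ : N → X} {g : ι → P → X} (h0 : Continuous g₀)
    (h1 : ∀ i, ContinuousOn (g i) (q.dom W)) (h2 : ∀ i, ∀ w ∈ W \ q.K, g i (q.φ w) = g₀ (e i w)) :
    ∃ G : Y → X, Continuous G ∧ (∀ n ∈ q.rest univ e univ, G (α n) = g₀ n) ∧
      ∀ i, ∀ z ∈ q.dom W, G (β i z) = g i z := by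
  have key : ∀ y, ∃ x, (∀ n ∈ q.rest univ e univ, α n = y → x = g₀ n) ∧
      ∀ i, ∀ z ∈ q.dom W, β i z = y → x = g i z := by
    intro y
    rcases (h.cov ▸ mem_univ y : y ∈ _ ∪ _) with ⟨n₀, hn, rfl⟩ | hy
    · refine ⟨g₀ n₀, fun n k e => by rw [h.ta.inj k hn e], ?_⟩
      rintro i z (⟨w, hw, rfl⟩ | hz) e
      · rw [h.com i trivial w hw] at e
        rw [h2 i w hw, h.ta.inj (h.off i trivial w hw) hn e]
      · exact (h.sep i trivial z hz _ hn e.symm).elim
    · simp only [mem_iUnion] at hy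
      obtain ⟨i₀, -, z₀, hz₀, rfl⟩ := hy
      refine ⟨g i₀ z₀, fun n k e => (h.sep i₀ trivial z₀ hz₀ _ k e).elim, ?_⟩
      rintro i z (⟨w, hw, rfl⟩ | hz) e
      · rw [h.com i trivial w hw] at e
        exact (h.sep i₀ trivial z₀ hz₀ _ (h.off i trivial w hw) e).elim
      · obtain rfl := h.sep' i trivial i₀ trivial z hz z₀ hz₀ e
        rw [(h.tb i trivial).inj (Or.inr hz) (Or.inr hz₀) e]
  choose G k1 k2 using key
  refine ⟨G, continuous_iff_continuousAt.2 fun y => ?_, fun n k => k1 _ n k rfl,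
    fun i z k => k2 _ i z k rfl⟩
  rcases (h.cov ▸ mem_univ y : y ∈ _ ∪ _) with ⟨n₀, hn, rfl⟩ | hy
  · exact co_desc h.ta.toCO (h0.continuousOn.congr fun n k => k1 _ n k rfl) hn
  · simp only [mem_iUnion] at hy
    obtain ⟨i₀, -, z₀, hz₀, rfl⟩ := hy
    exact co_desc (h.tb i₀ trivial).toCO ((h1 i₀).congr fun z k => k2 _ i₀ z k rfl) (Or.inr hz₀)

end Gen

theorem lat_eq {z z' : Z} (h : Lat z z') (d : dist z z' < 2 * π) : z = z' := by
  funext i
  obtain ⟨m, hm⟩ := h i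
  have h1 := (dist_le_pi_dist z z' i).trans_lt d
  have hp := Real.pi_pos
  rw [Real.dist_eq, hm, abs_mul, abs_of_pos (by positivity)] at h1
  have h2 : |(m : ℝ)| < 1 := by nlinarith [abs_nonneg (m : ℝ)]
  have h3 : m = 0 := Int.abs_lt_one_iff.1 (by exact_mod_cast h2)
  rw [h3] at hm
  simpa [sub_eq_zero] using hm

variable {T : Type} [TopologicalSpace T] {p : Z → T}

theorem p_zn (hp : Tor p) (r : ℝ) (n : Fin 2 → ℤ) (z : Z) : p (zn r n z) = p (zc + r • z) :=
  (hp.eq _ _).2 fun i => ⟨n i, by simp [zn]⟩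

theorem zn_of (hp : Tor p) {r : ℝ} {z t : Z} (h : p t = p (zc + r • z)) : ∃ n, t = zn r n z := by
  choose n hn using (hp.eq _ _).1 h
  exact ⟨n, funext fun i => by simp only [zn, Pi.add_apply, ← hn i]; ring⟩

theorem zn_inj {r : ℝ} {z : Z} {n n' : Fin 2 → ℤ} (h : zn r n z = zn r n' z) : n = n' := by
  funext i
  have := congrFun (add_left_cancel h) i
  simpa [Real.pi_ne_zero] using this

/-- the pull-back of the covering along the second component of `G` -/
def cov (p : Z → T) (G : V × T → V × T) (hG : Continuous G) : Ctl :=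
  ⟨{a : (V × T) × Z // (G a.1).2 = p a.2}, fun a => ((G a.1.1).1, a.1.2), by fun_prop⟩

variable {G : V × T → V × T} {hG : Continuous G}

open Classical in
/-- points of the pull-back -/
def mk (d : (cov p G hG).Y) (a : (V × T) × Z) : (cov p G hG).Y :=
  if h : (G a.1).2 = p a.2 then ⟨a, h⟩ else d

variable {d : (cov p G hG).Y}

theorem mk_val {a : (V × T) × Z} (h : (G a.1).2 = p a.2) : (mk d a).1 = a := by
  rw [mk, dif_pos h]

theorem mk_pj {a : (V × T) × Z} (h : (G a.1).2 = p a.2) :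
    (cov p G hG).pj (mk d a) = ((G a.1).1, a.2) := by
  rw [mk, dif_pos h]
  rfl

theorem mk_cont {X : Type} [TopologicalSpace X] {f : X → V × T} {u : X → Z} {U : Set X}
    (hf : ContinuousOn f U) (hu : ContinuousOn u U) (h : ∀ x ∈ U, (G (f x)).2 = p (u x)) :
    ContinuousOn (fun x => mk d (f x, u x)) U :=
  IsInducing.subtypeVal.continuousOn_iff.2 ((hf.prodMk hu).congr fun x hx => mk_val (h x hx))

/-- a lift of a continuous open map is open -/
theorem mk_co (hp : Tor p) {X : Type} [TopologicalSpace X] {f : X → V × T} {u : X → Z} {U : Set X}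
    (hf : CO f U) (hu : ContinuousOn u U) (h : ∀ x ∈ U, (G (f x)).2 = p (u x)) :
    CO (fun x => mk d (f x, u x)) U := by
  refine ⟨hf.dom, mk_cont hf.cont hu h, fun O h1 h2 => isOpen_iff_mem_nhds.2 ?_⟩
  rintro _ ⟨x, hx, rfl⟩
  have o1 : IsOpen (O ∩ u ⁻¹' ball (u x) π) := (hu.mono h2).isOpen_inter_preimage h1 isOpen_ball
  have o2 : IsOpen (Subtype.val ⁻¹' ((f '' (O ∩ u ⁻¹' ball (u x) π)) ×ˢ ball (u x) π) :
      Set (cov p G hG).Y) :=
    ((hf.op _ o1 (inter_subset_left.trans h2)).prod isOpen_ball).preimage continuous_subtype_val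
  refine mem_of_superset (o2.mem_nhds ?_) ?_
  · rw [mem_preimage, mk_val (h x (h2 hx))]
    exact ⟨⟨x, ⟨hx, mem_ball_self Real.pi_pos⟩, rfl⟩, mem_ball_self Real.pi_pos⟩
  · rintro ⟨⟨_, t⟩, ht⟩ ⟨⟨y, ⟨y1, y2⟩, rfl⟩, h3⟩
    have e : u y = t := lat_eq ((hp.eq _ _).1 ((h y (h2 y1)).symm.trans ht)) (by
      have := dist_triangle_right (u y) t (u x)
      linarith [mem_ball.1 y2, mem_ball.1 h3])
    exact ⟨y, y1, Subtype.ext (by rw [mk_val (h y (h2 y1)), e])⟩

/-- the pull-back is boundedly trivial -/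
theorem cov_iso (hL : LiftStmt) (hp : Tor p) {R : ℝ} (h1 : ∀ y : V × T, R ≤ ‖y.1‖ → G y = y)
    (h2 : ∀ y : V × T, ‖y.1‖ ≤ R → ‖(G y).1‖ ≤ R) :
    ∃ ε, 0 ≤ ε ∧ Iso (cov p G hG) one (closedBall 0 R) ε := by
  obtain ⟨δ, ε, d1, d2, d3, d4⟩ := hL T p (fun y => (G y).2) R hp hG.snd fun v τ h => by
    rw [h1 _ h]
  have hc := hp.cov.continuous
  have key : ∀ a : (cov p G hG).Y, p (a.1.2 - δ a.1.1) = a.1.1.2 := by
    rintro ⟨⟨⟨v, τ⟩, t⟩, h⟩
    obtain ⟨t₀, rfl⟩ := hp.sur τ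
    refine (hp.eq _ _).2 fun i => ?_
    obtain ⟨m, hm⟩ := (hp.eq _ _).1 (h.symm.trans (d4 v t₀)) i
    exact ⟨m, by rw [← hm]; simp only [Pi.sub_apply, Pi.add_apply]; ring⟩
  refine ⟨ε, (norm_nonneg _).trans (d2 (0, p 0)),
    { toFun := fun a => (a.1.1.1, a.1.2 - δ a.1.1)
      invFun := fun b => ⟨((b.1, p b.2), b.2 + δ (b.1, p b.2)), d4 _ _⟩
      left_inv := fun a => Subtype.ext (by simp [key a])
      right_inv := fun b => by simp
      continuous_toFun := by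
        change Continuous fun a : {a : (V × T) × Z // (G a.1).2 = p a.2} =>
          (a.1.1.1, a.1.2 - δ a.1.1)
        fun_prop
      continuous_invFun := by
        change Continuous fun b : V × Z => _
        exact Continuous.subtype_mk (by fun_prop) _ }, fun a => ?_⟩
  change Nr _ _ ((G a.1.1).1, a.1.2) (a.1.1.1, a.1.2 - δ a.1.1)
  rcases le_total R ‖a.1.1.1‖ with h | h
  · exact Or.inl (by rw [h1 _ h, d3 a.1.1.1 a.1.1.2 h, sub_zero])
  · exact Or.inr ⟨mem_closedBall_zero_iff.2 (h2 _ h), mem_closedBall_zero_iff.2 h,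
      by simpa [dist_eq_norm] using d2 _⟩

theorem le_norm (v : V) : v 2 ≤ ‖v‖ := (le_abs_self _).trans (norm_le_pi_norm v 2)

theorem convex_hi (c ρ : ℝ) : Convex ℝ (hi c ρ) := by
  have : hi c ρ = closedBall 0 ρ ∩ (LinearMap.proj (R := ℝ) (φ := fun _ : Fin 3 => ℝ) 2) ⁻¹' Ici c :=
    Set.ext fun v => by simp [hi]
  rw [this]
  exact (convex_closedBall _ _).inter ((convex_Ici c).linear_preimage _)

theorem closed_hi (c ρ : ℝ) : IsClosed (hi c ρ) :=
  (isClosed_le continuous_norm continuous_const).inter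
    (isClosed_le continuous_const (continuous_apply 2))

end XP

open XP

theorem xrow (hL : LiftStmt) (hS : SplitStmt) : XStmt := by
  intro F P T L _ _ _ _ _ κ σ q p k s i ρ ρ' r u W e α β _ hE hK h
  classical
  have hp := h.tor
  have pc := hp.cov.continuous
  have ρ1 := h.ρ1
  have ρ2 := h.ρ2
  obtain ⟨ζ, ζ1, ζ2, ζ3⟩ := hE (V × Z) (fun w => (κ w.1, w.2)) (closedBall 0 ρ ×ˢ ball 0 1)
    ((hK.cont.comp continuous_fst).prodMk continuous_snd).continuousOn
    ((convex_closedBall _ _).prod (convex_ball _ _)) ⟨(0, 0), by simpa using by linarith⟩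
    fun w hw => by simpa using ⟨(h.Wρ w hw).1.le, (h.Wρ w hw).2⟩
  obtain ⟨ζ', ζ1', ζ2', ζ3'⟩ := hE (V × Z) (fun w => ((k (e false w)).1, w.2))
    (hi (ρ + 1) ρ' ×ˢ univ)
    ((h.kc.fst.comp_continuousOn (h.ec false)).prodMk continuousOn_snd)
    ((convex_hi _ _).prod convex_univ)
    ⟨(fun _ => ρ + 1, 0), ⟨by rw [pi_norm_const, Real.norm_of_nonneg (by linarith)]; exact ρ2,
      le_rfl⟩, trivial⟩ fun w hw => ⟨(h.ef w hw).1, trivial⟩
  have ζρ : ∀ z ∈ q.dom W, ‖(ζ z).1‖ ≤ ρ := fun z hz => mem_closedBall_zero_iff.1 (ζ2 hz).1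
  have ket : ∀ w ∈ W, k (e true w) = (κ w.1, p (zc + r • w.2)) := fun w hw => by
    rw [h.et w hw, h.ki _ _ (by linarith [(h.Wρ w hw).1])]
  obtain ⟨G, hG, Ga, Gb⟩ := desc h.ins (g₀ := k) (g := fun b z => cond b
      ((ζ z).1, p (zc + r • (ζ z).2)) ((ζ' z).1, p (u (ζ' z).2))) h.kc
    (fun b => by
      cases b
      · exact ζ1'.fst.prodMk ((pc.comp h.uc).comp_continuousOn ζ1'.snd)
      · exact ζ1.fst.prodMk (pc.comp_continuousOn
          (continuousOn_const.add (ζ1.snd.const_smul r))))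
    fun b w hw => by
      cases b
      · simp only [cond_false, ζ3' w hw, ← (h.ef w hw.1).2]
      · simp only [cond_true, ζ3 w hw, ket w hw.1]
  have Gt : ∀ z ∈ q.dom W, G (β true z) = ((ζ z).1, p (zc + r • (ζ z).2)) := Gb true
  have Gf : ∀ z ∈ q.dom W, (G (β false z)).1 ∈ hi (ρ + 1) ρ' := fun z hz => by
    rw [Gb false z hz]
    exact (ζ2' hz).1
  have tri : ∀ y, (∃ l ∈ q.rest univ e univ, α l = y) ∨ (∃ z ∈ q.KP, β true z = y) ∨
      ∃ z ∈ q.KP, β false z = y := fun y => by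
    rcases (h.ins.cov ▸ mem_univ y : y ∈ _ ∪ _) with hy | hy
    · exact Or.inl hy
    · simp only [mem_iUnion] at hy
      obtain ⟨_ | _, -, hy⟩ := hy
      · exact Or.inr (Or.inr hy)
      · exact Or.inr (Or.inl hy)
  have rest : ∀ l, (∀ w ∈ q.K, e true w ≠ l) → (k l).1 ∉ hi (ρ + 1) ρ' →
      l ∈ q.rest univ e univ := fun l h1 h2 => ⟨trivial, fun hl => by
    simp only [mem_iUnion] at hl
    obtain ⟨_ | _, -, w, hw, rfl⟩ := hl
    · exact h2 (h.ef w (h.KW hw)).1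
    · exact h1 w hw rfl⟩
  have sec : ∀ b : V × T, ρ < ‖b.1‖ → b.1 ∉ hi (ρ + 1) ρ' →
      s b ∈ q.rest univ e univ ∧ G (α (s b)) = b := fun b h1 h2 => by
    have e1 := h.ks b (by linarith) h2
    have e2 := rest (s b) (fun w hw e2 => by
      rw [← e1, ← e2, ket w (h.KW hw)] at h1
      linarith [(h.Wρ w (h.KW hw)).1]) (by rwa [e1])
    exact ⟨e2, (Ga _ e2).trans e1⟩
  obtain ⟨R₀, hR₀⟩ := h.far
  obtain ⟨ε, ε0, θ₂, hθ₂⟩ := cov_iso (hG := hG) (R := max R₀ (ρ' + 1)) hL hp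
    (fun y hy => by
      have h1 : ρ' + 1 ≤ ‖y.1‖ := (le_max_right _ _).trans hy
      have h2 : y.1 ∉ hi (ρ + 1) ρ' := fun h => by linarith [h.1]
      have e1 := h.ks y (by linarith) h2
      have e2 := (sec y (by linarith) h2).2
      rwa [hR₀ _ (by rw [e1]; exact (le_max_left _ _).trans hy), e1] at e2)
    fun y hy => by
      rcases tri y with ⟨l, hl, rfl⟩ | ⟨z, hz, rfl⟩ | ⟨z, hz, rfl⟩
      · rw [Ga l hl]
        rcases le_total R₀ ‖(k l).1‖ with h1 | h1
        · rwa [hR₀ l h1] at hy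
        · exact h1.trans (le_max_left _ _)
      · rw [Gt z (Or.inr hz)]
        exact le_max_of_le_right (by linarith [ζρ z (Or.inr hz)])
      · exact le_max_of_le_right (by linarith [(Gf z (Or.inr hz)).1])
  let d : (cov p G hG).Y := θ₂.symm (0, 0)
  have std : Std (cov p G hG) (closedBall 0 ρ ∪ hi (ρ + 1) ρ') := by
    have m : ∀ v : V, v ∉ closedBall 0 ρ ∪ hi (ρ + 1) ρ' → ρ < ‖v‖ ∧ v ∉ hi (ρ + 1) ρ' :=
      fun v hv => by simpa using hv
    have c : ∀ b : V × Z, b.1 ∉ closedBall 0 ρ ∪ hi (ρ + 1) ρ' →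
        s (b.1, p b.2) ∈ q.rest univ e univ ∧ G (α (s (b.1, p b.2))) = (b.1, p b.2) :=
      fun b hb => sec _ (m _ hb).1 (m _ hb).2
    refine ⟨fun b => mk d (α (s (b.1, p b.2)), b.2), mk_cont (h.ins.ta.cont.comp
      (h.sc.comp (by fun_prop) fun b hb => ⟨by linarith [(m _ hb).1], (m _ hb).2⟩)
      fun b hb => (c b hb).1) continuousOn_snd fun b hb => by rw [(c b hb).2],
      fun b hb => by rw [mk_pj (by rw [(c b hb).2]), (c b hb).2], ?_⟩
    rintro ⟨⟨y, t⟩, ht⟩ hy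
    obtain ⟨m1, m2⟩ : ρ < ‖(G y).1‖ ∧ (G y).1 ∉ hi (ρ + 1) ρ' := m _ hy
    refine Subtype.ext ((mk_val (by rw [(c _ hy).2])).trans (Prod.ext ?_ rfl))
    change α (s ((G y).1, p t)) = y
    rw [← show (G y).2 = p t from ht]
    rcases tri y with ⟨l, hl, rfl⟩ | ⟨z, hz, rfl⟩ | ⟨z, hz, rfl⟩
    · rw [Ga l hl] at m1 m2 ⊢
      rw [h.sk l (by linarith) m2]
    · rw [Gt z (Or.inr hz)] at m1
      linarith [ζρ z (Or.inr hz)]
    · exact (m2 (Gf z (Or.inr hz))).elim
  obtain ⟨x, y, j, ⟨σx, x1, x2, x3⟩, sy, ⟨θ₁, hθ₁⟩, t2, tj, jp, js⟩ :=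
    hS (cov p G hG) _ _ (ρ + 1 / 2) isClosed_closedBall (closed_hi _ _)
      (fun v hv => by linarith [le_norm v, mem_closedBall_zero_iff.1 hv])
      (fun v hv => by linarith [hv.2]) std (inferInstanceAs (T2Space (Subtype _)))
  simp only [mem_closedBall_zero_iff, not_le] at x1 x2 x3
  -- the two parts of the complement of the supports
  set U₁ : Set (F × Z) := {w | ‖κ w.1‖ < ρ + 1 / 2 ∧ i (w.1, p w.2) ∈ q.rest univ e univ}
  set U₂ : Set (F × Z) := {w | ρ < ‖κ w.1‖}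
  have etn : ∀ n, ∀ w ∈ W, i ((ez r n w).1, p (ez r n w).2) = e true w := fun n w hw => by
    rw [h.et w hw, ez, p_zn hp]
  have nhi : ∀ v : V, ‖v‖ < ρ + 1 → v ∉ hi (ρ + 1) ρ' := fun v h1 h2 => by
    linarith [le_norm v, h2.2]
  have hU : q.rest univ (ez r) univ = U₁ ∪ U₂ := by
    ext w
    constructor
    · rintro ⟨-, hw⟩
      refine (lt_or_ge ρ ‖κ w.1‖).elim Or.inr fun h1 => Or.inl ⟨by linarith, rest _
        (fun w' hw' e1 => hw ?_) (by rw [h.ki _ _ (by linarith)]; exact nhi _ (by linarith))⟩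
      rw [h.et w' (h.KW hw')] at e1
      obtain ⟨e2, e3⟩ := Prod.mk.inj (h.ti.inj
        (show ‖κ w'.1‖ < ρ + 1 by linarith [(h.Wρ w' (h.KW hw')).1])
        (show ‖κ w.1‖ < ρ + 1 by linarith) e1)
      obtain ⟨n, hn⟩ := zn_of hp e3.symm
      simp only [mem_iUnion]
      exact ⟨n, trivial, w', hw', Prod.ext e2 hn.symm⟩
    · refine fun hw => ⟨trivial, fun h1 => ?_⟩
      simp only [mem_iUnion] at h1
      obtain ⟨n, -, w', hw', rfl⟩ := h1
      rcases hw with hw | hw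
      · refine hw.2.2 ?_
        rw [etn n w' (h.KW hw')]
        simp only [mem_iUnion]
        exact ⟨true, trivial, w', hw', rfl⟩
      · exact lt_asymm (h.Wρ w' (h.KW hw')).1 hw
  have G1 : ∀ w ∈ U₁, G (α (i (w.1, p w.2))) = (κ w.1, p w.2) := fun w hw => by
    rw [Ga _ hw.2, h.ki _ _ (by linarith [hw.1])]
  let a : F × Z → (cov p G hG).Y := fun w => mk d (α (i (w.1, p w.2)), w.2)
  let b : (Fin 2 → ℤ) → P → (cov p G hG).Y := fun n z => mk d (β true z, zn r n (ζ z).2)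
  have av : ∀ w ∈ U₁, (a w).1 = (α (i (w.1, p w.2)), w.2) := fun w hw => mk_val (by rw [G1 w hw])
  have ap : ∀ w ∈ U₁, (cov p G hG).pj (a w) = (κ w.1, w.2) := fun w hw => by
    rw [mk_pj (by rw [G1 w hw]), G1 w hw]
  have am : MapsTo a U₁ {w | ((cov p G hG).pj w).1 2 < ρ + 1 / 2} := fun w hw => by
    rw [mem_ofPred, ap w hw]
    exact (le_norm _).trans_lt hw.1
  have bc : ∀ n, ∀ z ∈ q.dom W, (G (β true z)).2 = p (zn r n (ζ z).2) := fun n z hz => by
    rw [Gt z hz, p_zn hp]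
  have bv : ∀ n, ∀ z ∈ q.dom W, (b n z).1 = (β true z, zn r n (ζ z).2) := fun n z hz =>
    mk_val (bc n z hz)
  have bp : ∀ n, ∀ z ∈ q.dom W, (cov p G hG).pj (b n z) = ((ζ z).1, zn r n (ζ z).2) :=
    fun n z hz => by rw [mk_pj (bc n z hz), Gt z hz]
  have bm : ∀ n, MapsTo (b n) (q.dom W) {w | ((cov p G hG).pj w).1 2 < ρ + 1 / 2} :=
    fun n z hz => by
      rw [mem_ofPred, bp n z hz]
      linarith [le_norm (ζ z).1, ζρ z hz]
  let α' : F × Z → x.Y := fun w => if w ∈ U₁ then j (a w) else σx (κ w.1, w.2)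
  have a1 : ∀ w ∈ U₁, α' w = j (a w) := fun w hw => if_pos hw
  have pa : ∀ w ∈ U₁ ∪ U₂, x.pj (α' w) = (κ w.1, w.2) := fun w hw => by
    by_cases h1 : w ∈ U₁
    · rw [a1 w h1, jp _ (am h1), ap w h1]
    · rw [show α' w = σx (κ w.1, w.2) from if_neg h1, x2 (κ w.1, w.2) (hw.resolve_left h1)]
  have a2 : ∀ w ∈ U₂, α' w = σx (κ w.1, w.2) := fun w hw => by
    rw [← pa w (Or.inr hw), x3 _ (by rw [pa w (Or.inr hw)]; exact hw)]
  have low : ∀ w ∈ U₁ ∪ U₂, ‖κ w.1‖ ≤ ρ → w ∈ U₁ := fun w hw h1 =>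
    hw.resolve_right (not_lt.2 h1)
  have κc : Continuous fun w : F × Z => ‖κ w.1‖ := (hK.cont.comp continuous_fst).norm
  have c0 : CO (fun w : F × Z => i (w.1, p w.2)) {w | ‖κ w.1‖ < ρ + 1 / 2} :=
    co_comp (f := fun w : F × Z => (w.1, p w.2)) ⟨isOpen_lt κc continuous_const, by fun_prop,
      fun O h1 _ => (IsOpenMap.id.prodMap hp.cov.isOpenMap) O h1⟩ h.ti.toCO
      fun w hw => show ‖κ w.1‖ < ρ + 1 by linarith [show ‖κ w.1‖ < ρ + 1 / 2 from hw]
  have c1 : CO α' U₁ := co_congr (co_comp (mk_co hp (co_comp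
    (co_mono c0 (c0.cont.isOpen_inter_preimage c0.dom h.ins.ta.dom) fun w hw => hw.1)
    h.ins.ta.toCO fun w hw => hw.2) continuousOn_snd fun w hw => by rw [G1 w hw]) tj.toCO am) a1
  have c2 : CO α' U₂ := by
    refine ⟨isOpen_lt continuous_const κc, (x1.comp
      ((hK.cont.comp continuous_fst).prodMk continuous_snd).continuousOn fun w hw => hw).congr a2,
      fun O h1 h2 => ?_⟩
    have : α' '' O = {z | ρ < ‖(x.pj z).1‖} ∩ (fun z => (σ (x.pj z).1, (x.pj z).2)) ⁻¹' O := by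
      ext z
      constructor
      · rintro ⟨w, hw, rfl⟩
        have h3 : ρ < ‖κ w.1‖ := h2 hw
        simp only [mem_inter_iff, mem_ofPred, mem_preimage, pa w (Or.inr h3)]
        exact ⟨h3, by rwa [hK.left _ (by linarith)]⟩
      · rintro ⟨h3, h4⟩
        have h5 : ρ < ‖(x.pj z).1‖ := h3
        exact ⟨_, h4, by rw [a2 _ (h2 h4), hK.right _ (by linarith), x3 z h5]⟩
    rw [this]
    exact ((hK.scont.comp x.cont.fst.continuousOn fun z hz =>
      show 1 < ‖(x.pj z).1‖ by linarith [show ρ < ‖(x.pj z).1‖ from hz]).prodMk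
      x.cont.snd.continuousOn).isOpen_inter_preimage (isOpen_lt continuous_const x.cont.fst.norm) h1
  have eU : ∀ n, ∀ w ∈ W \ q.K, ez r n w ∈ U₁ := fun n w hw =>
    ⟨show ‖κ w.1‖ < _ by linarith [(h.Wρ w hw.1).1], by
      rw [etn n w hw.1]
      exact h.ins.off true trivial w hw⟩
  refine ⟨x, y, ζ, α', fun n z => j (b n z), ⟨σx, by simpa using x1, by simpa using x2,
    by simpa using x3⟩, sy, ⟨max R₀ (ρ' + 1), ε, ε0, θ₁.trans θ₂, fun z => ?_⟩, t2, h.r0, h.r1,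
    h.Wo, h.KW, fun w hw => (h.Wρ w hw).2, ⟨?_, fun n _ => ⟨co_comp (mk_co hp (h.ins.tb true trivial).toCO
      ((continuousOn_const.add (ζ1.snd.const_smul r)).add continuousOn_const) (bc n)) tj.toCO
      (bm n), fun z hz z' hz' e1 => ?_⟩, fun n _ w hw => hU ▸ Or.inl (eU n w hw),
      fun n _ w hw => ?_, fun n _ z hz w hw e1 => ?_, fun n _ n' _ z hz z' hz' e1 => ?_, ?_⟩,
    hU ▸ pa, fun n z hz => ?_, fun z hz => ⟨ζρ z (Or.inr hz),
      mem_ball_zero_iff.1 (ζ2 (Or.inr hz)).2⟩⟩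
  · rw [(hθ₁ z).resolve_right fun h => h.1]
    exact hθ₂ (θ₁ z)
  · rw [hU]
    refine ⟨co_union c1 c2, fun w hw w' hw' e1 => ?_⟩
    obtain ⟨e2, e3⟩ := Prod.mk.inj ((pa w hw).symm.trans ((congrArg x.pj e1).trans (pa w' hw')))
    refine Prod.ext ?_ e3
    rcases lt_or_ge ρ ‖κ w.1‖ with h1 | h1
    · rw [← hK.left w.1 (by linarith), e2, hK.left _ (by rw [← e2]; linarith)]
    · have h2 := low w hw h1
      have h3 := low w' hw' (e2 ▸ h1)
      rw [a1 w h2, a1 w' h3] at e1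
      have e4 := congrArg Subtype.val (tj.inj (am h2) (am h3) e1)
      rw [av w h2, av w' h3] at e4
      exact (Prod.mk.inj (h.ti.inj (show ‖κ w.1‖ < ρ + 1 by linarith)
        (show ‖κ w'.1‖ < ρ + 1 by linarith [h3.1])
        (h.ins.ta.inj h2.2 h3.2 (Prod.mk.inj e4).1))).1
  · have e4 := congrArg Subtype.val (tj.inj (bm n hz) (bm n hz') e1)
    rw [bv n z hz, bv n z' hz'] at e4
    exact (h.ins.tb true trivial).inj hz hz' (Prod.mk.inj e4).1
  · rw [a1 _ (eU n w hw)]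
    simp only [a, b, etn n w hw.1, h.ins.com true trivial w hw, ζ3 w hw]
    rfl
  · rw [hU] at hw
    have e2 := (pa w hw).symm.trans ((congrArg x.pj e1).trans
      ((jp _ (bm n (Or.inr hz))).trans (bp n z (Or.inr hz))))
    have h2 := low w hw (by rw [(Prod.mk.inj e2).1]; exact ζρ z (Or.inr hz))
    rw [a1 w h2] at e1
    have e4 := congrArg Subtype.val (tj.inj (am h2) (bm n (Or.inr hz)) e1)
    rw [av w h2, bv n z (Or.inr hz)] at e4
    exact h.ins.sep true trivial z hz _ h2.2 (Prod.mk.inj e4).1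
  · have e4 := congrArg Subtype.val (tj.inj (bm n (Or.inr hz)) (bm n' (Or.inr hz')) e1)
    rw [bv n z (Or.inr hz), bv n' z' (Or.inr hz')] at e4
    obtain rfl := (h.ins.tb true trivial).inj (Or.inr hz) (Or.inr hz') (Prod.mk.inj e4).1
    exact zn_inj (Prod.mk.inj e4).2
  · rw [hU]
    refine (eq_univ_of_forall fun z => ?_).symm
    rcases lt_or_ge ρ ‖(x.pj z).1‖ with h1 | h1
    · have e1 := hK.right (x.pj z).1 (by linarith)
      have h2 : (σ (x.pj z).1, (x.pj z).2) ∈ U₂ := by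
        change ρ < ‖κ (σ (x.pj z).1)‖
        rwa [e1]
      exact Or.inl ⟨_, Or.inr h2, by rw [a2 _ h2, e1, x3 z h1]⟩
    · obtain ⟨⟨⟨y₀, t⟩, ht⟩, h2, rfl⟩ := js z (by linarith [le_norm (x.pj z).1])
      rw [jp _ h2] at h1
      change ‖(G y₀).1‖ ≤ ρ at h1
      change (G y₀).2 = p t at ht
      rcases tri y₀ with ⟨l, hl, rfl⟩ | ⟨z, hz, rfl⟩ | ⟨z, hz, rfl⟩
      · have ht' := ht
        rw [Ga l hl] at h1 ht'
        obtain ⟨m, m1, m2⟩ : ∃ m, ‖κ m‖ ≤ ρ ∧ i (m, p t) = l := by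
          rcases le_or_gt ‖(k l).1‖ 1 with h3 | h3
          · obtain ⟨m, τ, m1, rfl⟩ := h.ik l h3
            rw [h.ki m τ m1] at h1 ht'
            exact ⟨m, h1, by rw [← ht']⟩
          · have e1 := hK.right _ h3
            have e2 : k (i (σ (k l).1, p t)) = k l := by
              rw [h.ki _ _ (by rw [e1]; linarith), e1, ← ht']
            have h4 := nhi (k l).1 (by linarith)
            exact ⟨σ (k l).1, by rwa [e1], by
              rw [← h.sk (i _) (by rwa [e2]) (by rwa [e2]), e2, h.sk l h3 h4]⟩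
        have h3 : (m, t) ∈ U₁ := ⟨show ‖κ m‖ < _ by linarith, by rwa [m2]⟩
        exact Or.inl ⟨_, Or.inl h3, (a1 _ h3).trans
          (congrArg j (Subtype.ext ((av _ h3).trans (by rw [m2]))))⟩
      · have ht' := ht
        rw [Gt z (Or.inr hz)] at ht'
        obtain ⟨n, rfl⟩ := zn_of hp ht'.symm
        refine Or.inr ?_
        simp only [mem_iUnion]
        exact ⟨n, trivial, z, hz, congrArg j (Subtype.ext (bv n z (Or.inr hz)))⟩
      · exact (nhi _ (by linarith) (Gf z (Or.inr hz))).elim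
  · rw [jp _ (bm n (Or.inr hz)), bp n z (Or.inr hz)]

end Pool.Agent.MP_e1dc65_gt.T4

end
end MrgPart1

-- ======== part 2: formerly Pool.Agent.MP_e1dc65_gt.t4.SwCore
section MrgPart2

/-! PROJECT HC, row SWCORE: the swindle in normal position. -/

open scoped Topology Real
open Set Filter Function Module Metric Topology

noncomputable section

namespace Pool.Agent.MP_e1dc65_gt.T4

namespace Sw

variable {A A' C C' C'' : Ctl} {H H' S S' U : Set V} {e e' t : ℝ} {E E' : V ≃ₜ V}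

/-- exact isomorphism -/
def Ex (C C' : Ctl) : Prop := ∃ θ : C.Y ≃ₜ C'.Y, ∀ y, C.pj y = C'.pj (θ y)

theorem Ex.refl (C : Ctl) : Ex C C := ⟨.refl _, fun _ => rfl⟩

theorem Ex.symm (h : Ex C C') : Ex C' C := by
  obtain ⟨θ, h⟩ := h
  exact ⟨θ.symm, fun y => by rw [h, θ.apply_symm_apply]⟩

theorem Ex.trans (h : Ex C C') (h' : Ex C' C'') : Ex C C'' := by
  obtain ⟨θ, h⟩ := h
  obtain ⟨θ', h'⟩ := h'
  exact ⟨θ.trans θ', fun y => (h y).trans (h' _)⟩

theorem Ex.l (h : Ex C C') (h' : Iso C' C'' H e) : Iso C C'' H e := by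
  obtain ⟨θ, h⟩ := h
  obtain ⟨θ', h'⟩ := h'
  exact ⟨θ.trans θ', fun y => h y ▸ h' _⟩

theorem Ex.r (h' : Ex C' C'') (h : Iso C C' H e) : Iso C C'' H e := by
  obtain ⟨θ, h⟩ := h
  obtain ⟨θ', h'⟩ := h'
  exact ⟨θ.trans θ', fun y => by have := h y; rwa [h'] at this⟩

theorem nr_symm {b b' : V × Z} (h : Nr H e b b') : Nr H e b' b :=
  h.imp Eq.symm fun h => ⟨h.2.1, h.1, by rw [dist_comm]; exact h.2.2⟩

theorem iso_symm (h : Iso C C' H e) : Iso C' C H e := by
  obtain ⟨θ, h⟩ := h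
  exact ⟨θ.symm, fun y => by have := nr_symm (h (θ.symm y)); rwa [θ.apply_symm_apply] at this⟩

theorem iso_mono (h : Iso C C' H e) (hH : H ⊆ H') (he : e ≤ e') : Iso C C' H' e' :=
  h.imp fun _ h y => (h y).imp_right fun h => ⟨hH h.1, hH h.2.1, h.2.2.trans he⟩

theorem iso_trans (h : Iso C C' H e) (h' : Iso C' C'' H e') (he : 0 ≤ e) (he' : 0 ≤ e') :
    Iso C C'' H (e + e') := by
  obtain ⟨θ, h⟩ := h
  obtain ⟨θ', h'⟩ := h'
  refine ⟨θ.trans θ', fun y => ?_⟩
  rcases h y with h1 | h1 <;> rcases h' (θ y) with h2 | h2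
  · exact Or.inl (h1.trans h2)
  · exact Or.inr ⟨h1 ▸ h2.1, h2.2.1, h1 ▸ h2.2.2.trans (by linarith)⟩
  · exact Or.inr ⟨h1.1, by have := h1.2.1; rwa [h2] at this,
      by have := h1.2.2; rw [h2] at this; exact this.trans (by linarith)⟩
  · exact Or.inr ⟨h1.1, h2.2.1, (dist_triangle _ _ _).trans (add_le_add h1.2.2 h2.2.2)⟩

theorem iso_mv (h : Iso C C' H e) (E : V ≃ₜ V) (ht : 0 ≤ t) :
    Iso (C.mv E t) (C'.mv E t) (E '' H) (t * e) :=
  h.imp fun θ h y => (h y).imp (congrArg fun b : V × Z => (E b.1, t • b.2)) fun h =>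
    ⟨mem_image_of_mem E h.1, mem_image_of_mem E h.2.1, by
      simp only [Ctl.mv]
      rw [dist_smul₀, Real.norm_of_nonneg ht]
      exact mul_le_mul_of_nonneg_left h.2.2 ht⟩

theorem Ex.mv (h : Ex C C') (E : V ≃ₜ V) (t : ℝ) : Ex (C.mv E t) (C'.mv E t) :=
  h.imp fun _ h y => congrArg (fun b : V × Z => (E b.1, t • b.2)) (h y)

theorem one_mv (E : V ≃ₜ V) (ht : t ≠ 0) : Ex (one.mv E t) one :=
  ⟨E.prodCongr (Homeomorph.smulOfNeZero t ht), fun _ => rfl⟩

theorem Ex.fp (h : Ex A A') (h' : Ex C C') : Ex (A.fp C) (A'.fp C') := by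
  obtain ⟨θ, h⟩ := h
  obtain ⟨θ', h'⟩ := h'
  exact ⟨(θ.prodCongr θ').subtype fun p => by rw [h, h']; rfl, fun y => h _⟩

theorem fp_comm (A C : Ctl) : Ex (A.fp C) (C.fp A) :=
  ⟨(Homeomorph.prodComm _ _).subtype fun _ => eq_comm, fun y => y.2⟩

theorem fp_one (C : Ctl) : Ex (C.fp one) C :=
  ⟨⟨⟨fun p => p.1.1, fun y => ⟨(y, C.pj y), rfl⟩, fun p => Subtype.ext (Prod.ext rfl p.2),
    fun _ => rfl⟩, continuous_fst.comp continuous_subtype_val,
    (continuous_id.prodMk C.cont).subtype_mk _⟩, fun _ => rfl⟩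

theorem fp_mv (A C : Ctl) (E : V ≃ₜ V) (ht : t ≠ 0) :
    Ex ((A.mv E t).fp (C.mv E t)) ((A.fp C).mv E t) :=
  ⟨(Homeomorph.refl _).subtype fun p =>
    (E.prodCongr (Homeomorph.smulOfNeZero t ht)).injective.eq_iff (a := A.pj p.1) (b := C.pj p.2),
    fun _ => rfl⟩

theorem std_mono (h : Std C S) (hS : S ⊆ S') : Std C S' :=
  h.imp fun _ h => ⟨h.1.mono fun _ hb hs => hb (hS hs), fun b hb => h.2.1 b fun hs => hb (hS hs),
    fun y hb => h.2.2 y fun hs => hb (hS hs)⟩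

theorem std_one (S : Set V) : Std one S := ⟨id, continuousOn_id, fun _ _ => rfl, fun _ _ => rfl⟩

theorem std_mv (h : Std C S) (ht : t ≠ 0) (hS : ∀ v ∈ S, E v ∈ S') : Std (C.mv E t) S' := by
  obtain ⟨σ, h1, h2, h3⟩ := h
  have k : ∀ b : V × Z, b.1 ∉ S' → E.symm b.1 ∉ S := fun b hb hs => hb (by simpa using hS _ hs)
  refine ⟨fun b => σ (E.symm b.1, t⁻¹ • b.2), h1.comp (by fun_prop) k, fun b hb => ?_,
    fun y hy => ?_⟩
  · simp [Ctl.mv, h2 (E.symm b.1, t⁻¹ • b.2) (k b hb), smul_smul, ht]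
  · simpa [Ctl.mv, smul_smul, ht] using h3 y fun hs => hy (hS _ hs)

theorem std_fp (h : Std A S) (h' : Std C S) {v₀ : V} (h0 : v₀ ∉ S) : Std (A.fp C) S := by
  classical
  obtain ⟨σ, h1, h2, h3⟩ := h
  obtain ⟨σ', h1', h2', h3'⟩ := h'
  let r : V × Z → V × Z := fun b => if b.1 ∈ S then (v₀, 0) else b
  have p1 : ∀ b, (r b).1 ∉ S := fun b => by
    by_cases hb : b.1 ∈ S <;> simp [r, hb, h0]
  have p2 : ∀ b, b.1 ∉ S → r b = b := fun b hb => if_neg hb
  refine ⟨fun b => ⟨(σ (r b), σ' (r b)), (h2 _ (p1 b)).trans (h2' _ (p1 b)).symm⟩, ?_,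
    fun b hb => (h2 _ (p1 b)).trans (p2 b hb), fun y hy => Subtype.ext (Prod.ext ?_ ?_)⟩
  · refine IsInducing.subtypeVal.continuousOn_iff.2 ((h1.prodMk h1').congr fun b hb => ?_)
    simp only [comp, p2 b hb]
  · exact (congrArg σ (p2 _ hy)).trans (h3 _ hy)
  · have e : (A.fp C).pj y = C.pj y.1.2 := y.2
    rw [e] at hy ⊢
    exact (congrArg σ' (p2 _ hy)).trans (h3' _ hy)

/-- over a standard part a point can be moved along any continuous change of the control -/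
theorem slide (h : Std A S) (hS : IsClosed S) : ∃ τ : A.Y → V × Z → A.Y,
    (∀ a b, ((A.pj a).1 ∈ S → b = A.pj a) → ((A.pj a).1 ∉ S → b.1 ∉ S) →
      A.pj (τ a b) = b ∧ τ (τ a b) (A.pj a) = a) ∧
    ∀ (X : Type) [TopologicalSpace X] (a : X → A.Y) (b : X → V × Z) (O : Set V), Continuous a →
      Continuous b → IsOpen O → S ⊆ O → (∀ x, (A.pj (a x)).1 ∈ O → b x = A.pj (a x)) →
      (∀ x, (A.pj (a x)).1 ∉ S → (b x).1 ∉ S) → Continuous fun x => τ (a x) (b x) := by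
  classical
  obtain ⟨σ, h1, h2, h3⟩ := h
  refine ⟨fun a b => if (A.pj a).1 ∈ S then a else σ b, fun a b k1 k2 => ?_,
    fun X _ a b O ha hb hO hSO k1 k2 => continuous_iff_continuousAt.2 fun x => ?_⟩
  · by_cases ha : (A.pj a).1 ∈ S
    · simp only [if_pos ha, k1 ha, and_self]
    · simp only [if_neg ha, h2 b (k2 ha), if_neg (k2 ha), h3 a ha, and_self]
  have hc : Continuous fun x => (A.pj (a x)).1 := (A.cont.comp ha).fst
  by_cases hx : (A.pj (a x)).1 ∈ S
  · refine ha.continuousAt.congr ?_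
    filter_upwards [hc.continuousAt.preimage_mem_nhds (hO.mem_nhds (hSO hx))] with x' hx'
    split_ifs with h4
    exacts [rfl, by rw [k1 x' hx', h3 _ h4]]
  · refine ((h1.continuousAt ((hS.preimage continuous_fst).isOpen_compl.mem_nhds
      (k2 x hx))).comp hb.continuousAt).congr ?_
    filter_upwards [hc.continuousAt.preimage_mem_nhds (hS.isOpen_compl.mem_nhds hx)] with x' hx'
    exact (if_neg hx').symm

theorem move (h : Std C S) (hS : IsClosed S) (hU : IsOpen U) (hSU : S ⊆ U)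
    (hE : ∀ v ∈ U, E v = E' v) (t : ℝ) : Ex (C.mv E t) (C.mv E' t) := by
  obtain ⟨τ, t1, t2⟩ := slide h hS
  have k : ∀ E E' : V ≃ₜ V, (∀ v ∈ U, E v = E' v) →
      (∀ y : C.Y, C.pj (τ y (E'.symm (E (C.pj y).1), (C.pj y).2)) =
        (E'.symm (E (C.pj y).1), (C.pj y).2) ∧
        τ (τ y (E'.symm (E (C.pj y).1), (C.pj y).2)) (C.pj y) = y) ∧
      Continuous fun y : C.Y => τ y (E'.symm (E (C.pj y).1), (C.pj y).2) := fun E E' hE => by
    have k1 : ∀ y : C.Y, (C.pj y).1 ∈ U → (E'.symm (E (C.pj y).1), (C.pj y).2) = C.pj y :=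
      fun y hy => by rw [hE _ hy, E'.symm_apply_apply]
    have k2 : ∀ y : C.Y, (C.pj y).1 ∉ S → E'.symm (E (C.pj y).1) ∉ S := fun y hy hs => by
      have := hE _ (hSU hs)
      rw [E'.apply_symm_apply, E.injective.eq_iff] at this
      exact hy (this ▸ hs)
    exact ⟨fun y => t1 _ _ (fun hy => k1 y (hSU hy)) (k2 y), t2 _ id _ U continuous_id
      ((E'.symm.continuous.comp (E.continuous.comp C.cont.fst)).prodMk C.cont.snd) hU hSU k1 k2⟩
  obtain ⟨a1, a2⟩ := k E E' hE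
  obtain ⟨b1, b2⟩ := k E' E fun v hv => (hE v hv).symm
  refine ⟨⟨⟨_, _, fun y => ?_, fun y => ?_⟩, a2, b2⟩, fun y => ?_⟩
  · refine Eq.trans ?_ (a1 y).2
    simp [(a1 y).1]
  · refine Eq.trans ?_ (b1 y).2
    simp [(b1 y).1]
  · exact Eq.symm ((congrArg (fun b : V × Z => (E' b.1, t • b.2)) (a1 y).1).trans (by
      simp [Ctl.mv]))

theorem fpc (h : Iso C C' H e) (hA : Std A S) (hS : IsClosed S) (hH : IsClosed H)
    (hd : ∀ v ∈ S, v ∉ H) : Iso (A.fp C) (A.fp C') H e := by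
  obtain ⟨τ, t1, t2⟩ := slide hA hS
  have k : ∀ (C C' : Ctl) (θ : C.Y ≃ₜ C'.Y), (∀ y, Nr H e (C.pj y) (C'.pj (θ y))) →
      (∀ p : (A.fp C).Y, A.pj (τ p.1.1 (C'.pj (θ p.1.2))) = C'.pj (θ p.1.2) ∧
        τ (τ p.1.1 (C'.pj (θ p.1.2))) (A.pj p.1.1) = p.1.1) ∧
      Continuous fun p : (A.fp C).Y => τ p.1.1 (C'.pj (θ p.1.2)) := fun C C' θ h => by
    have k1 : ∀ p : (A.fp C).Y, (A.pj p.1.1).1 ∈ Hᶜ → C'.pj (θ p.1.2) = A.pj p.1.1 :=
      fun p hp => (h p.1.2).elim (fun e => e.symm.trans p.2.symm) fun e => (hp (p.2 ▸ e.1)).elim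
    have k2 : ∀ p : (A.fp C).Y, (A.pj p.1.1).1 ∉ S → (C'.pj (θ p.1.2)).1 ∉ S := fun p hp =>
      (h p.1.2).elim (fun e => by rwa [← e, ← p.2]) fun e hs => hd _ hs e.2.1
    exact ⟨fun p => t1 _ _ (fun hp => k1 p (hd _ hp)) (k2 p), t2 _ (fun p : (A.fp C).Y => p.1.1) _
      Hᶜ continuous_subtype_val.fst (C'.cont.comp (θ.continuous.comp continuous_subtype_val.snd))
      hH.isOpen_compl hd k1 k2⟩
  obtain ⟨θ, h⟩ := h
  obtain ⟨a1, a2⟩ := k C C' θ h
  obtain ⟨b1, b2⟩ := k C' C θ.symm fun y => by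
    have := nr_symm (h (θ.symm y)); rwa [θ.apply_symm_apply] at this
  refine ⟨⟨⟨fun p => ⟨(_, θ p.1.2), (a1 p).1⟩, fun p => ⟨(_, θ.symm p.1.2), (b1 p).1⟩,
    fun p => Subtype.ext (Prod.ext ?_ (θ.symm_apply_apply _)),
    fun p => Subtype.ext (Prod.ext ?_ (θ.apply_symm_apply _))⟩,
    (a2.prodMk (θ.continuous.comp continuous_subtype_val.snd)).subtype_mk _,
    (b2.prodMk (θ.symm.continuous.comp continuous_subtype_val.snd)).subtype_mk _⟩, fun p => ?_⟩
  · have := (a1 p).2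
    rw [p.2] at this
    simpa using this
  · have := (b1 p).2
    rw [p.2] at this
    simpa using this
  · have := h p.1.2
    rwa [← p.2, ← (a1 p).1] at this

theorem mv_refl (C : Ctl) : Ex C (C.mv (.refl V) 1) :=
  ⟨.refl _, fun _ => Prod.ext rfl (one_smul ℝ _).symm⟩

/-- a piecewise linear homeomorphism of the line, the identity on `[a, b]` -/
def pl (a b k t : ℝ) : ℝ := max a (min t b) + k * (t - max a (min t b))

theorem pl_pl {a b k k' : ℝ} (hab : a ≤ b) (hk : 0 < k) (hk' : k' * k = 1) (t : ℝ) :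
    pl a b k' (pl a b k t) = t := by
  have : max a (min (pl a b k t) b) = max a (min t b) := by
    unfold pl
    rcases le_total t a with h | h
    · rw [min_eq_left (h.trans hab), max_eq_left h, max_eq_left (min_le_of_left_le (by nlinarith))]
    rcases le_total t b with h' | h'
    · rw [min_eq_left h', max_eq_right h, sub_self, mul_zero, add_zero, min_eq_left h',
        max_eq_right h]
    · rw [min_eq_right h', max_eq_right hab, min_eq_right (by nlinarith), max_eq_right hab]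
  rw [pl, this, pl, add_sub_cancel_left, ← mul_assoc, hk', one_mul, add_sub_cancel]

/-- compression of one coordinate -/
def cmp (i : Fin 3) {a b k : ℝ} (hab : a ≤ b) (hk : 0 < k) : V ≃ₜ V where
  toFun v := update v i (pl a b k (v i))
  invFun v := update v i (pl a b k⁻¹ (v i))
  left_inv v := by simp [pl_pl hab hk (inv_mul_cancel₀ hk.ne')]
  right_inv v := by simp [pl_pl hab (inv_pos.2 hk) (mul_inv_cancel₀ hk.ne')]
  continuous_toFun := continuous_id.update i (by unfold pl; fun_prop)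
  continuous_invFun := continuous_id.update i (by unfold pl; fun_prop)

theorem cmp_apply (i : Fin 3) {a b k : ℝ} (hab : a ≤ b) (hk : 0 < k) (v : V) :
    cmp i hab hk v = update v i (pl a b k (v i)) := rfl

/-- the support of an isomorphism can be compressed -/
theorem compress (h : BIso C C') (h1 : Std C S) (h2 : Std C' S) (hS : IsClosed S) (i : Fin 3)
    {a b η : ℝ} (hab : a ≤ b) (hη : 0 < η) (hi : ∀ v ∈ S, a < v i ∧ v i < b) :
    ∃ R e, 0 ≤ R ∧ 0 ≤ e ∧ Iso C C' {v | ‖v‖ ≤ R ∧ a - η ≤ v i ∧ v i ≤ b + η} e := by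
  obtain ⟨R, e, he, h⟩ := h
  have hD : 0 < |R| + |a| + |b| + 1 := by positivity
  have hk : 0 < η / (|R| + |a| + |b| + 1) := by positivity
  have hk' : η / (|R| + |a| + |b| + 1) * (|R| + |a| + |b| + 1) = η := div_mul_cancel₀ _ hD.ne'
  generalize η / (|R| + |a| + |b| + 1) = k at hk hk'
  have hU : IsOpen {v : V | a < v i ∧ v i < b} :=
    (isOpen_lt continuous_const (continuous_apply i)).inter
      (isOpen_lt (continuous_apply i) continuous_const)
  have hE : ∀ v ∈ {v : V | a < v i ∧ v i < b}, Homeomorph.refl V v = cmp i hab hk v :=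
    fun v hv => by simp [cmp_apply, pl, min_eq_left hv.2.le, max_eq_right hv.1.le]
  refine ⟨|R| + |a| + |b| + η, e, by positivity, he, iso_mono
    (((mv_refl C).trans (move h1 hS hU hi hE 1)).l
      (((mv_refl C').trans (move h2 hS hU hi hE 1)).symm.r (iso_mv h _ zero_le_one))) ?_
    (one_mul e).le⟩
  rintro _ ⟨v, hv, rfl⟩
  have hv' : ‖v‖ ≤ |R| := (mem_closedBall_zero_iff.1 hv).trans (le_abs_self R)
  have b1 := abs_le.1 ((norm_le_pi_norm v i).trans hv')
  have b2 : a ≤ max a (min (v i) b) := le_max_left _ _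
  have b3 : max a (min (v i) b) ≤ b := max_le hab (min_le_right _ _)
  have b4 := abs_le.1 (le_refl |a|)
  have b5 := abs_le.1 (le_refl |b|)
  have b6 : a - η ≤ pl a b k (v i) ∧ pl a b k (v i) ≤ b + η := by
    unfold pl
    constructor <;> nlinarith [abs_nonneg a, abs_nonneg b]
  refine ⟨(pi_norm_le_iff_of_nonneg (by positivity)).2 fun j => ?_, by simpa [cmp_apply] using b6⟩
  rcases eq_or_ne j i with rfl | hj
  · rw [cmp_apply, update_self, Real.norm_eq_abs, abs_le]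
    constructor <;> linarith [abs_nonneg a, abs_nonneg b, abs_nonneg R]
  · rw [cmp_apply, update_of_ne hj]
    linarith [norm_le_pi_norm v j, abs_nonneg a, abs_nonneg b]

/-- the `m`-th rescaling -/
def sc (m : ℕ) : V ≃ₜ V := Homeomorph.smulOfNeZero ((1 / 9 : ℝ) ^ m) (by positivity)

theorem sc_apply (m : ℕ) (v : V) : sc m v = (1 / 9 : ℝ) ^ m • v := rfl

/-- the `m`-th small copy -/
def cp (C : Ctl) (m : ℕ) : Ctl := C.mv (sc m) ((1 / 2) ^ m)

theorem cp_ne (m : ℕ) : ((1 / 2 : ℝ) ^ m) ≠ 0 := by positivity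

theorem cp_succ (C : Ctl) (m : ℕ) : Ex (cp C (m + 1)) (cp (cp C 1) m) :=
  ⟨.refl _, fun y => Prod.ext
    (show (1 / 9 : ℝ) ^ (m + 1) • (C.pj y).1 = (1 / 9 : ℝ) ^ m • (1 / 9 : ℝ) ^ 1 • (C.pj y).1 by
      rw [smul_smul, pow_add])
    (show (1 / 2 : ℝ) ^ (m + 1) • (C.pj y).2 = (1 / 2 : ℝ) ^ m • (1 / 2 : ℝ) ^ 1 • (C.pj y).2 by
      rw [smul_smul, pow_add])⟩

/-- the product of all small copies is trivial -/
theorem infp (hI : InfStmt) {D : ℕ → Ctl} {R a b : ℝ} (hR : 0 ≤ R) (he : 0 ≤ e) (ha : 0 < a)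
    (hb : 0 ≤ b) (hab : b < 9 * a) (h : Iso C one {v | ‖v‖ ≤ R ∧ a ≤ v 0 ∧ v 0 ≤ b} e)
    (hD : ∀ m, Ex (D m) (cp C m)) : Iso (pr D) one {v | ‖v‖ ≤ R ∧ v 0 ≤ b} e := by
  have p0 : ∀ m : ℕ, 0 < (1 / 9 : ℝ) ^ m := fun m => by positivity
  have p1 : ∀ m : ℕ, (1 / 9 : ℝ) ^ m ≤ (1 / 2) ^ m := fun m =>
    pow_le_pow_left₀ (by norm_num) (by norm_num) m
  have p2 : ∀ m : ℕ, (1 / 2 : ℝ) ^ m ≤ 1 := fun m => pow_le_one₀ (by norm_num) (by norm_num)
  have p3 : ∀ m (v : V), ‖v‖ ≤ R → ‖sc m v‖ ≤ (1 / 2) ^ m * R := fun m v hv => by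
    rw [sc_apply, norm_smul, Real.norm_of_nonneg (p0 m).le]
    exact mul_le_mul (p1 m) hv (norm_nonneg _) (by positivity)
  refine iso_mono (hI D (fun m => sc m '' {v | ‖v‖ ≤ R ∧ a ≤ v 0 ∧ v 0 ≤ b})
    (fun m => (1 / 2) ^ m * e) (fun m => (1 / 2) ^ m * (R + e)) e
    (fun m => (hD m).l ((one_mv _ (cp_ne m)).r (iso_mv h _ (by positivity)))) ?_ ?_
    (fun m => mul_le_mul_of_nonneg_left (by linarith) (by positivity))
    (fun m => mul_le_of_le_one_left he (p2 m)) (fun m => by positivity)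
    (summable_geometric_two.mul_right _)) (iUnion_subset ?_) le_rfl
  · refine (pairwise_disjoint_on _).2 fun m n hmn => disjoint_left.2 ?_
    rintro _ ⟨v, hv, rfl⟩ ⟨w, hw, e⟩
    have e1 : (1 / 9 : ℝ) ^ n * w 0 = (1 / 9) ^ m * v 0 := congrFun e 0
    have e2 : (1 / 9 : ℝ) ^ n ≤ (1 / 9) ^ (m + 1) :=
      pow_le_pow_of_le_one (by norm_num) (by norm_num) hmn
    have e3 : (1 / 9 : ℝ) ^ n * w 0 ≤ (1 / 9) ^ (m + 1) * b :=
      mul_le_mul e2 hw.2.2 (ha.le.trans hw.2.1) (p0 _).le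
    rw [pow_succ] at e3
    nlinarith [mul_le_mul_of_nonneg_left hv.2.1 (p0 m).le, mul_pos (p0 m) (sub_pos.2 hab)]
  · rintro m _ ⟨v, hv, rfl⟩
    exact (p3 m v hv.1).trans (mul_le_mul_of_nonneg_left (by linarith) (by positivity))
  · rintro m _ ⟨v, hv, rfl⟩
    exact ⟨(p3 m v hv.1).trans (mul_le_of_le_one_left hR (p2 m)),
      (mul_le_mul_of_nonneg_left hv.2.2 (p0 m).le).trans
        (mul_le_of_le_one_left hb ((p1 m).trans (p2 m)))⟩

/-- regrouping of an infinite product -/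
theorem regroup (A B : ℕ → Ctl) :
    Ex (pr fun m => (A m).fp (B m)) ((A 0).fp (pr fun m => (B m).fp (A (m + 1)))) := by
  refine ⟨⟨⟨fun p => ⟨((p.1.2 0).1.1, ⟨(p.1.1, fun m => ⟨((p.1.2 m).1.2, (p.1.2 (m + 1)).1.1),
      ((p.1.2 m).2.symm.trans (p.2 m)).trans (p.2 (m + 1)).symm⟩),
      fun m => (p.1.2 m).2.symm.trans (p.2 m)⟩), p.2 0⟩,
    fun r => ⟨(r.1.2.1.1, fun m => ⟨(Nat.casesOn (motive := fun m => (A m).Y) m r.1.1
      fun k => (r.1.2.1.2 k).1.2, (r.1.2.1.2 m).1.1), ?_⟩), fun m => ?_⟩, fun p => ?_,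
    fun r => rfl⟩, ?_, ?_⟩, fun p => (p.2 0).symm⟩
  · cases m with
    | zero => exact r.2.trans (r.1.2.2 0).symm
    | succ k => exact ((r.1.2.1.2 k).2.symm.trans (r.1.2.2 k)).trans (r.1.2.2 (k + 1)).symm
  · cases m with
    | zero => exact r.2
    | succ k => exact (r.1.2.1.2 k).2.symm.trans (r.1.2.2 k)
  · refine Subtype.ext (Prod.ext rfl (funext fun m => ?_))
    cases m <;> rfl
  · have h : ∀ m, Continuous fun p : (pr fun m => (A m).fp (B m)).Y => (p.1.2 m).1 := fun m =>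
      continuous_subtype_val.comp ((continuous_apply m).comp continuous_subtype_val.snd)
    exact ((h 0).fst.prodMk ((continuous_subtype_val.fst.prodMk (continuous_pi fun m =>
      ((h m).snd.prodMk (h (m + 1)).fst).subtype_mk _)).subtype_mk _)).subtype_mk _
  · have h0 : Continuous fun r : ((A 0).fp (pr fun m => (B m).fp (A (m + 1)))).Y => r.1.2.1 :=
      continuous_subtype_val.comp continuous_subtype_val.snd
    have h : ∀ m, Continuous fun r : ((A 0).fp (pr fun m => (B m).fp (A (m + 1)))).Y =>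
        (r.1.2.1.2 m).1 := fun m => continuous_subtype_val.comp ((continuous_apply m).comp h0.snd)
    refine (h0.fst.prodMk (continuous_pi fun m =>
      (Continuous.prodMk ?_ (h m).fst).subtype_mk _)).subtype_mk _
    cases m with
    | zero => exact continuous_subtype_val.fst
    | succ k => exact (h k).snd

/-- the scaling factor: `1/9` below `1/4` and `1` above `3/4` -/
def lam (t : ℝ) : ℝ := max (1 / 9) (min (16 / 9 * t - 1 / 3) 1)

theorem lam_pos (t : ℝ) : 0 < lam t := lt_max_of_lt_left (by norm_num)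
theorem lam_lo (h : t ≤ 1 / 4) : lam t = 1 / 9 := max_eq_left (min_le_of_left_le (by linarith))
theorem lam_hi (h : 3 / 4 ≤ t) : lam t = 1 := by
  rw [lam, min_eq_right (by linarith), max_eq_right (by norm_num)]
theorem lam_cont : Continuous lam := by unfold lam; fun_prop

theorem exists_phi : ∃ φ : V ≃ₜ V, ∀ v, φ v = lam (v 2) • v := by
  have h1 : StrictMono fun t => lam t * t := fun s t h => by
    have h2 : lam s ≤ lam t := max_le_max_left _ (min_le_min_right _ (by linarith))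
    rcases le_total t (1 / 4) with h3 | h3
    · simp only [lam_lo h3, lam_lo (h.le.trans h3)]
      linarith
    · rcases le_total s 0 with h4 | h4
      · exact (mul_nonpos_of_nonneg_of_nonpos (lam_pos s).le h4).trans_lt
          (mul_pos (lam_pos t) (by linarith))
      · exact (mul_le_mul_of_nonneg_right h2 h4).trans_lt (mul_lt_mul_of_pos_left h (lam_pos t))
  have h2 : Surjective fun t => lam t * t := (lam_cont.mul continuous_id).surjective
    (tendsto_id.congr' ((eventually_ge_atTop (3 / 4)).mono fun t h => by simp [lam_hi h]))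
    ((tendsto_id.const_mul_atBot (r := 1 / 9) (by norm_num)).congr'
      ((eventually_le_atBot (1 / 4)).mono fun t h => by simp [lam_lo h]))
  let g := h1.orderIsoOfSurjective _ h2
  have g1 : ∀ t, g.symm (lam t * t) = t := g.symm_apply_apply
  have g2 : ∀ t, lam (g.symm t) * g.symm t = t := g.apply_symm_apply
  refine ⟨⟨⟨fun v => lam (v 2) • v, fun w => (lam (g.symm (w 2)))⁻¹ • w, fun v => ?_,
    fun w => ?_⟩, (lam_cont.comp (continuous_apply 2)).smul continuous_id,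
    ((lam_cont.comp (g.symm.continuous.comp (continuous_apply 2))).inv₀
      fun _ => (lam_pos _).ne').smul continuous_id⟩, fun _ => rfl⟩
  · simp [g1, smul_smul, (lam_pos _).ne']
  · have : (lam (g.symm (w 2)))⁻¹ * w 2 = g.symm (w 2) := by
      rw [inv_mul_eq_iff_eq_mul₀ (lam_pos _).ne', g2]
    simp [this, smul_smul, (lam_pos _).ne']

end Sw

open Sw in
theorem swCore (h : InfStmt) : SwCoreStmt := by
  intro x y hx hy hA hB
  have co : ∀ (c v : V), v ∈ closedBall c (1 / 100) → ∀ i, |v i - c i| ≤ 1 / 100 := fun c v hv i =>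
    (norm_le_pi_norm (v - c) i).trans (mem_closedBall_iff_norm.1 hv)
  have cl : ∀ (i : Fin 3) (a b : ℝ), IsClosed {v : V | a ≤ v i ∧ v i ≤ b} := fun i a b =>
    isClosed_Icc.preimage (continuous_apply i)
  have cl' : ∀ (i : Fin 3) (R b : ℝ), IsClosed {v : V | ‖v‖ ≤ R ∧ v i ≤ b} := fun i R b =>
    (isClosed_le continuous_norm continuous_const).inter
      (isClosed_le (continuous_apply i) continuous_const)
  have x0 : Std x {v | 99 / 100 ≤ v 0 ∧ v 0 ≤ 101 / 100} := std_mono hx fun v hv => by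
    have := abs_le.1 (co _ v hv 0)
    simp only [Matrix.cons_val_zero] at this
    exact ⟨by linarith, by linarith⟩
  have x2 : Std x {v | -(1 / 100) ≤ v 2 ∧ v 2 ≤ 1 / 100} := std_mono hx fun v hv => by
    simpa using abs_le.1 (co _ v hv 2)
  have y0 : Std y {v | 32 / 100 ≤ v 0 ∧ v 0 ≤ 345 / 1000} := std_mono hy fun v hv => by
    have := abs_le.1 (co _ v hv 0)
    simp only [Matrix.cons_val_zero] at this
    exact ⟨by linarith, by linarith⟩
  have y2 : Std y {v | 99 / 100 ≤ v 2 ∧ v 2 ≤ 101 / 100} := std_mono hy fun v hv => by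
    have := abs_le.1 (co _ v hv 2)
    simp only [Matrix.cons_val] at this
    exact ⟨by linarith, by linarith⟩
  -- step 1
  obtain ⟨R₁, e₁, r1, he₁, s1⟩ := compress hA
    (std_fp (S := {v | 32 / 100 ≤ v 0 ∧ v 0 ≤ 101 / 100}) (v₀ := 0)
      (std_mono x0 fun v hv => ⟨by linarith [hv.1], hv.2⟩)
      (std_mono y0 fun v hv => ⟨hv.1, by linarith [hv.2]⟩) (by norm_num)) (std_one _) (cl 0 _ _) 0
    (a := 31 / 100) (b := 102 / 100) (η := 1 / 100) (by norm_num) (by norm_num)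
    fun v hv => ⟨by linarith [hv.1], by linarith [hv.2]⟩
  have s2 := infp h (D := fun m => (cp x m).fp (cp y m)) r1 he₁ (by norm_num) (by norm_num)
    (by norm_num) s1 fun m => fp_mv _ _ _ (cp_ne m)
  -- step 2
  obtain ⟨R₂, e₂, r2, he₂, s3⟩ := compress hB x2 (std_mv x2 (by norm_num) fun v hv => hv)
    (cl 2 _ _) 2 (a := -(1 / 8)) (b := 1 / 8) (η := 1 / 8) (by norm_num) (by norm_num)
    fun v hv => ⟨by linarith [hv.1], by linarith [hv.2]⟩
  have s4 : Iso (x.mv (sc 1) 1) (cp x 1) {v | ‖v‖ ≤ R₂ ∧ v 2 ≤ 1 / 4} e₂ := by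
    refine Ex.r (C' := (x.mv (.refl V) (1 / 2)).mv (sc 1) 1) ⟨.refl _, fun y => ?_⟩
      (iso_mono (iso_mv s3 (sc 1) zero_le_one) ?_ (one_mul _).le)
    · exact Prod.ext rfl ((one_smul ℝ _).trans (by rw [← pow_one (1 / 2 : ℝ)]; rfl))
    · rintro _ ⟨v, hv, rfl⟩
      refine ⟨?_, ?_⟩
      · rw [sc_apply, norm_smul]
        exact (mul_le_of_le_one_left (norm_nonneg _) (by norm_num)).trans hv.1
      · have := hv.2.2
        simp only [sc_apply, Pi.smul_apply, smul_eq_mul]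
        linarith
  have s5 := fpc s4 y2 (cl 2 _ _) (cl' 2 _ _) fun v hv hv' => by linarith [hv.1, hv'.2]
  obtain ⟨φ, hφ⟩ := exists_phi
  have s6 : Ex (y.fp (x.mv (sc 1) 1)) ((x.fp y).mv φ 1) :=
    ((((mv_refl y).trans (move y2 (cl 2 _ _) (isOpen_lt continuous_const (continuous_apply 2))
      (U := {v | 3 / 4 < v 2}) (fun v hv => by
        have := hv.1
        change 3 / 4 < v 2
        linarith) (fun v hv => by rw [hφ, lam_hi (le_of_lt hv), one_smul]; rfl) 1)).fp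
      (move x2 (cl 2 _ _) (isOpen_lt (continuous_apply 2) continuous_const)
        (U := {v | v 2 < 1 / 4}) (fun v hv => by
          have := hv.2
          change v 2 < 1 / 4
          linarith) (fun v hv => by rw [hφ, lam_lo (le_of_lt hv), sc_apply, pow_one]) 1)).trans
      (fp_comm _ _)).trans (fp_mv _ _ _ one_ne_zero)
  have s7 : BIso (y.fp (cp x 1)) one := by
    obtain ⟨R, e, he, hA⟩ := hA
    obtain ⟨R', hR'⟩ := (((isCompact_closedBall (0 : V) R).image φ.continuous).isBounded.union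
      (isBounded_closedBall (x := (0 : V)) (r := R₂))).subset_closedBall 0
    exact ⟨R', _, add_nonneg he₂ he, iso_trans
      (iso_mono (iso_symm s5) (fun v hv => hR' (Or.inr (mem_closedBall_zero_iff.2 hv.1))) le_rfl)
      (iso_mono (s6.l ((one_mv φ one_ne_zero).r (iso_mv hA φ zero_le_one)))
        (fun v hv => hR' (Or.inl hv)) (one_mul e).le) he₂ he⟩
  obtain ⟨R₃, e₃, r3, he₃, s8⟩ := compress s7
    (std_fp (S := {v | 105 / 1000 ≤ v 0 ∧ v 0 ≤ 345 / 1000}) (v₀ := 0)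
      (std_mono y0 fun v hv => ⟨by linarith [hv.1], hv.2⟩)
      (std_mv x0 (cp_ne 1) fun v hv => by
        simp only [sc_apply, mem_ofPred_eq, Pi.smul_apply, smul_eq_mul]
        exact ⟨by linarith [hv.1], by linarith [hv.2]⟩) (by norm_num)) (std_one _) (cl 0 _ _) 0
    (a := 1 / 10) (b := 35 / 100) (η := 1 / 100) (by norm_num) (by norm_num)
    fun v hv => ⟨by linarith [hv.1], by linarith [hv.2]⟩
  have s9 := infp h (D := fun m => (cp y m).fp (cp x (m + 1))) r3 he₃ (by norm_num) (by norm_num)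
    (by norm_num) s8 fun m => ((Ex.refl (cp y m)).fp (cp_succ x m)).trans (fp_mv _ _ _ (cp_ne m))
  -- step 3
  have x1 : Ex x (cp x 0) := ⟨.refl _, fun y => Prod.ext (one_smul ℝ _).symm (one_smul ℝ _).symm⟩
  have s10 := (x1.trans (fp_one _).symm).symm.r ((regroup (cp x) (cp y)).l
    (fpc s9 (std_mv (E := sc 0) x0 (cp_ne 0) fun v hv => by simpa [sc_apply] using hv)
      (cl 0 (99 / 100) (101 / 100)) (cl' 0 _ _) fun v hv hv' => by linarith [hv.1, hv'.2]))
  exact ⟨max R₃ R₁, _, add_nonneg he₃ he₁, iso_trans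
    (iso_mono (iso_symm s10) (fun v hv => mem_closedBall_zero_iff.2 (le_max_of_le_left hv.1)) le_rfl)
    (iso_mono s2 (fun v hv => mem_closedBall_zero_iff.2 (le_max_of_le_right hv.1)) le_rfl) he₃ he₁⟩

end Pool.Agent.MP_e1dc65_gt.T4

end
end MrgPart2

-- marker of a merged file
example : 731051 + 702311 = 731051 + 702311 := rfl
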